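import Pool.Agent.Lib.MP_b37156_an.Interp

namespace Pool.Agent.Lib.MP_b37156_an

open MeasureTheory Set Filter
open scoped Real ENNReal Topology InnerProductSpace ComplexConjugate

/-- variation of `x ↦ x^{-s}` -/
theorem cpow_variation {s : ℂ} (hs : 0 ≤ s.re) {p x : ℝ} (hp : 1 ≤ p) (hx : p ≤ x) (hx1 : x ≤ p + 1) :
    ‖(p : ℂ) ^ (-s) - (x : ℂ) ^ (-s)‖ ≤ ‖s‖ * p ^ (-s.re - 1) := by
  rcases eq_or_ne s 0 with rfl | hs0
  · simp
  have hder : ∀ t ∈ Icc p x, HasDerivWithinAt (fun t : ℝ => (t : ℂ) ^ (-s))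
      (-s * (t : ℂ) ^ (-s - 1)) (Icc p x) t := by
    intro t ht
    have ht0 : t ≠ 0 := by have := ht.1; linarith
    exact (hasDerivAt_ofReal_cpow_const ht0 (by simpa using hs0)).hasDerivWithinAt
  have hbound : ∀ t ∈ Icc p x, ‖-s * (t : ℂ) ^ (-s - 1)‖ ≤ ‖s‖ * p ^ (-s.re - 1) := by
    intro t ht
    have ht0 : 0 < t := by have := ht.1; linarith
    rw [norm_mul, norm_neg, Complex.norm_cpow_eq_rpow_re_of_pos ht0]
    gcongr
    have : (-s - 1).re = -s.re - 1 := by simp
    rw [this]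
    exact Real.rpow_le_rpow_of_nonpos (by linarith) ht.1 (by linarith)
  have := (convex_Icc p x).norm_image_sub_le_of_norm_hasDerivWithin_le hder hbound
    (right_mem_Icc.2 hx) (left_mem_Icc.2 hx)
  refine this.trans ?_
  rw [Real.norm_eq_abs, abs_sub_comm, abs_of_nonneg (by linarith)]
  have h2 : 0 ≤ ‖s‖ * p ^ (-s.re - 1) := by positivity
  nlinarith

theorem cell_error {s : ℂ} (hs : 0 ≤ s.re) {M : ℝ} (hM : 1 ≤ M) (n : ℕ) {x : ℝ}
    (hx : x ∈ Ioc ((n : ℝ) + 1) ((n : ℝ) + 1 + 1)) :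
    ‖((((n : ℝ) + 1 : ℝ)) : ℂ) ^ (-s) / ((M : ℂ) + n) - (x : ℂ) ^ (-s) / (x + M)‖ ≤
      (‖s‖ + 2) * ((n : ℝ) + 1) ^ (-s.re - 1) / M := by
  have hn : (0 : ℝ) ≤ n := by positivity
  set p : ℝ := (n : ℝ) + 1 with hp
  have hp1 : 1 ≤ p := by linarith
  have hxp : p < x := hx.1
  have hxp1 : x ≤ p + 1 := hx.2
  have hx0 : 0 < x := by linarith
  have hMn : 0 < M + n := by linarith
  have hxM : 0 < x + M := by linarith
  have e : (p : ℂ) ^ (-s) / ((M : ℂ) + n) - (x : ℂ) ^ (-s) / (x + M) =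
      ((p : ℂ) ^ (-s) - (x : ℂ) ^ (-s)) * (((M + n)⁻¹ : ℝ) : ℂ) +
        (x : ℂ) ^ (-s) * ((((M + n)⁻¹ - (x + M)⁻¹ : ℝ)) : ℂ) := by
    push_cast
    ring
  rw [e]
  refine (norm_add_le _ _).trans ?_
  rw [norm_mul, norm_mul, Complex.norm_real, Complex.norm_real, Real.norm_of_nonneg (by positivity),
    Complex.norm_cpow_eq_rpow_re_of_pos hx0, Real.norm_eq_abs]
  have h1 := cpow_variation hs hp1 hxp.le hxp1
  have h2 : (M + n)⁻¹ ≤ M⁻¹ := by
    apply inv_anti₀ (by linarith); linarith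
  have h3 : |(M + (n : ℝ))⁻¹ - (x + M)⁻¹| ≤ 2 * (M⁻¹ * p⁻¹) := by
    have e2 : (M + (n : ℝ))⁻¹ - (x + M)⁻¹ = (x - n) * ((M + n)⁻¹ * (x + M)⁻¹) := by
      field_simp; ring
    rw [e2, abs_of_nonneg (by
      apply mul_nonneg (by linarith) (by positivity))]
    apply mul_le_mul (by linarith) _ (by positivity) (by norm_num)
    apply mul_le_mul h2 _ (by positivity) (by positivity)
    apply inv_anti₀ (by linarith); linarith
  have h4 : x ^ (-s).re ≤ p ^ (-s.re) := by
    rw [Complex.neg_re]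
    exact Real.rpow_le_rpow_of_nonpos (by linarith) hxp.le (by linarith)
  calc ‖(p : ℂ) ^ (-s) - (x : ℂ) ^ (-s)‖ * (M + n)⁻¹ + x ^ (-s).re * |(M + (n : ℝ))⁻¹ - (x + M)⁻¹|
      ≤ (‖s‖ * p ^ (-s.re - 1)) * M⁻¹ + p ^ (-s.re) * (2 * (M⁻¹ * p⁻¹)) := by
        gcongr
    _ = _ := by
        rw [Real.rpow_sub_one (by positivity)]
        ring

/-- summation formula: the Hilbert matrix acting on `(n+1)^{-s}`. -/
theorem hilbert_power {s : ℂ} (h0 : 0 < s.re) (h1 : s.re < 1) (m : ℕ) :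
    ∃ v : ℂ, HasSum (fun n : ℕ => en n (-s) / ((m : ℂ) + n + 1)) v ∧
      ‖v - en m (-s) * (π / Complex.sin (π * s))‖ ≤
        ((‖s‖ + 2) * (∑' n : ℕ, ((n : ℝ) + 1) ^ (-s.re - 1)) + 1 / (1 - s.re)) / ((m : ℝ) + 1) := by
  set M : ℝ := (m : ℝ) + 1 with hMdef
  have hm : (0 : ℝ) ≤ m := by positivity
  have hM : 1 ≤ M := by linarith
  have hM0 : 0 < M := by linarith
  set f : ℝ → ℂ := fun x => (x : ℂ) ^ (-s) / (x + M) with hf
  have hint := integrableOn_stieltjes hM0 h0 h1
  have hval := integral_stieltjes hM0 h0 h1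
  -- split the integral
  have hIoi : Ioi (0 : ℝ) = Ioc 0 1 ∪ Ioi 1 := (Ioc_union_Ioi_eq_Ioi zero_le_one).symm
  have hU : Ioi (1 : ℝ) = ⋃ n : ℕ, Ioc ((n : ℝ) + 1) ((n : ℝ) + 1 + 1) := by
    ext x
    simp only [mem_Ioi, mem_iUnion, mem_Ioc]
    constructor
    · intro hx
      have h2 : 0 < x - 1 := by linarith
      obtain ⟨k, hk⟩ : ∃ k : ℕ, ⌈x - 1⌉₊ = k + 1 := ⟨⌈x - 1⌉₊ - 1, by
        have := Nat.ceil_pos.2 h2; omega⟩
      have h3 := Nat.le_ceil (x - 1)
      have h4 := Nat.ceil_lt_add_one h2.le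
      rw [hk] at h3 h4
      push_cast at h3 h4
      exact ⟨k, by linarith, by linarith⟩
    · rintro ⟨n, hn1, hn2⟩
      have : (0 : ℝ) ≤ n := by positivity
      linarith
  have hdisj : Pairwise (Function.onFun Disjoint (fun n : ℕ => Ioc ((n : ℝ) + 1) ((n : ℝ) + 1 + 1))) := by
    intro i j hij
    have : Disjoint (Ioc ((i : ℝ) + 1) ((i : ℝ) + 1 + 1)) (Ioc ((j : ℝ) + 1) ((j : ℝ) + 1 + 1)) := by
      rw [Set.disjoint_left]
      rintro x ⟨h1, h2⟩ ⟨h3, h4⟩
      rcases lt_or_gt_of_ne hij with h | h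
      · have : (i : ℝ) + 1 ≤ j := by exact_mod_cast h
        linarith
      · have : (j : ℝ) + 1 ≤ i := by exact_mod_cast h
        linarith
    exact this
  have hint1 : IntegrableOn f (Ioc 0 1) := hint.mono_set Ioc_subset_Ioi_self
  have hint2 : IntegrableOn f (Ioi 1) := hint.mono_set (Ioi_subset_Ioi zero_le_one)
  have hsum : HasSum (fun n : ℕ => ∫ x in Ioc ((n : ℝ) + 1) ((n : ℝ) + 1 + 1), f x)
      (∫ x in Ioi 1, f x) := by
    have := hasSum_integral_iUnion (fun n => measurableSet_Ioc) hdisj (by rw [← hU]; exact hint2)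
    rwa [← hU] at this
  have hsplit : ∫ x in Ioi 0, f x = (∫ x in Ioc 0 1, f x) + ∫ x in Ioi 1, f x := by
    rw [hIoi, setIntegral_union (by
      rw [Set.disjoint_left]; rintro x ⟨_, h2⟩ h3; exact absurd h3 (not_lt.2 h2)) measurableSet_Ioi
      hint1 hint2]
  -- difference terms
  set d : ℕ → ℂ := fun n => en n (-s) / ((m : ℂ) + n + 1) -
    ∫ x in Ioc ((n : ℝ) + 1) ((n : ℝ) + 1 + 1), f x with hd
  have hd_bound : ∀ n, ‖d n‖ ≤ (‖s‖ + 2) * ((n : ℝ) + 1) ^ (-s.re - 1) / M := by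
    intro n
    have hvol : (volume (Ioc ((n : ℝ) + 1) ((n : ℝ) + 1 + 1))).toReal = 1 := by
      rw [Real.volume_Ioc]
      rw [show (n : ℝ) + 1 + 1 - ((n : ℝ) + 1) = 1 by ring]
      simp
    have hfin : volume (Ioc ((n : ℝ) + 1) ((n : ℝ) + 1 + 1)) < ⊤ := by
      rw [Real.volume_Ioc]; exact ENNReal.ofReal_lt_top
    have hI : IntegrableOn f (Ioc ((n : ℝ) + 1) ((n : ℝ) + 1 + 1)) := by
      apply hint.mono_set
      intro x hx
      have : (0 : ℝ) ≤ n := by positivity
      exact lt_of_le_of_lt (by linarith : (0 : ℝ) ≤ (n : ℝ) + 1) hx.1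
    have e : d n = ∫ x in Ioc ((n : ℝ) + 1) ((n : ℝ) + 1 + 1),
        ((((n : ℝ) + 1 : ℝ) : ℂ) ^ (-s) / ((M : ℂ) + n) - f x) := by
      rw [integral_sub (integrable_const_iff.2 (Or.inr ⟨by simp⟩)) hI]
      rw [hd]
      simp only [setIntegral_const, Measure.real, hvol, one_smul]
      congr 1
      unfold en
      rw [hMdef]
      push_cast
      congr 1
      ring
    rw [e]
    have h2 := norm_setIntegral_le_of_norm_le_const (μ := volume) hfin
      (f := fun x => ((((n : ℝ) + 1 : ℝ) : ℂ) ^ (-s) / ((M : ℂ) + n) - f x))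
      (C := (‖s‖ + 2) * ((n : ℝ) + 1) ^ (-s.re - 1) / M) (fun x hx => cell_error h0.le hM n hx)
    rw [Measure.real, hvol, mul_one] at h2
    exact h2
  have hsz : Summable (fun n : ℕ => ((n : ℝ) + 1) ^ (-s.re - 1)) := by
    have h : Summable (fun n : ℕ => ((n : ℝ)) ^ (-s.re - 1)) :=
      Real.summable_nat_rpow.2 (by linarith)
    have h' := (summable_nat_add_iff 1).2 h
    refine h'.congr fun n => ?_
    push_cast; rfl
  have hsb : Summable (fun n : ℕ => (‖s‖ + 2) * ((n : ℝ) + 1) ^ (-s.re - 1) / M) :=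
    (hsz.mul_left _).div_const _
  have hsd : Summable d := Summable.of_norm_bounded hsb hd_bound
  have hsdn : ‖∑' n, d n‖ ≤ (‖s‖ + 2) * (∑' n : ℕ, ((n : ℝ) + 1) ^ (-s.re - 1)) / M := by
    have := tsum_of_norm_bounded hsb.hasSum hd_bound
    rwa [tsum_div_const, tsum_mul_left] at this
  refine ⟨∑' n, d n + ∫ x in Ioi 1, f x, ?_, ?_⟩
  · have := hsd.hasSum.add hsum
    refine this.congr_fun ?_
    intro n
    rw [hd]; ring
  · have e : en m (-s) * (π / Complex.sin (π * s)) = (∫ x in Ioc 0 1, f x) + ∫ x in Ioi 1, f x := by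
      rw [← hsplit, hval]
      rfl
    rw [e]
    have e3 : ∑' n, d n + (∫ x in Ioi 1, f x) - ((∫ x in Ioc 0 1, f x) + ∫ x in Ioi 1, f x) =
      ∑' n, d n - ∫ x in Ioc 0 1, f x := by ring
    rw [e3]
    refine (norm_sub_le _ _).trans ?_
    have h5 : ‖∫ x in Ioc 0 1, f x‖ ≤ (1 / (1 - s.re)) / M := by
      have hb : ∀ x ∈ Ioc (0 : ℝ) 1, ‖f x‖ ≤ x ^ (-s.re) / M := by
        intro x hx
        have hx0 : 0 < x := hx.1
        rw [hf]
        simp only
        rw [norm_div, Complex.norm_cpow_eq_rpow_re_of_pos hx0, ← Complex.ofReal_add,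
          Complex.norm_real, Real.norm_of_nonneg (by positivity), Complex.neg_re]
        apply div_le_div_of_nonneg_left (by positivity) hM0
        linarith
      have hI : IntegrableOn (fun x : ℝ => x ^ (-s.re) / M) (Ioc 0 1) := by
        apply Integrable.div_const
        have := (intervalIntegral.intervalIntegrable_rpow' (a := 0) (b := 1) (r := -s.re)
          (by linarith))
        rwa [intervalIntegrable_iff_integrableOn_Ioc_of_le zero_le_one] at this
      calc ‖∫ x in Ioc 0 1, f x‖ ≤ ∫ x in Ioc (0 : ℝ) 1, x ^ (-s.re) / M := by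
            apply norm_integral_le_of_norm_le hI
            exact (ae_restrict_mem measurableSet_Ioc).mono hb
        _ = (1 / (1 - s.re)) / M := by
            rw [integral_div, ← intervalIntegral.integral_of_le zero_le_one,
              integral_rpow (Or.inl (by linarith))]
            congr 1
            rw [Real.one_rpow, Real.zero_rpow (by linarith), sub_zero]
            congr 1; ring
    calc _ ≤ (‖s‖ + 2) * (∑' n : ℕ, ((n : ℝ) + 1) ^ (-s.re - 1)) / M + (1 / (1 - s.re)) / M :=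
          add_le_add hsdn h5
      _ = _ := by rw [← add_div]

/-- the approximate eigenvectors -/
theorem approx_eigen {β : ℝ} (hβ : |β| < 1) {μ : ℂ} (hμ : μ.re = (1 + β) / 2) :
    ¬ ∃ c : ℝ, 0 < c ∧ ∀ x : E2,
      c * ‖x‖ ≤ ‖(Kop β - (π / Complex.sin (π * μ)) • (1 : E2 →L[ℂ] E2)) x‖ := by
  rintro ⟨c, hc, hcb⟩
  obtain ⟨b1, b2⟩ := abs_lt.1 hβ
  set σ : ℝ := (1 + β) / 2 with hσ
  have hσ0 : 0 < σ := by rw [hσ]; linarith
  have hσ1 : σ < 1 := by rw [hσ]; linarith
  set ε₀ : ℝ := (1 - σ) / 2 with hε₀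
  have hε₀pos : 0 < ε₀ := by rw [hε₀]; linarith
  -- constants
  set Z : ℝ := ∑' n : ℕ, ((n : ℝ) + 1) ^ (-σ - 1) with hZ
  have hsZ : Summable (fun n : ℕ => ((n : ℝ) + 1) ^ (-σ - 1)) := by
    have h : Summable (fun n : ℕ => ((n : ℝ)) ^ (-σ - 1)) :=
      Real.summable_nat_rpow.2 (by linarith)
    refine ((summable_nat_add_iff 1).2 h).congr fun n => ?_
    push_cast; rfl
  set C : ℝ := (‖μ‖ + ε₀ + 2) * Z + 1 / ε₀ with hC
  have hsw : Summable (fun n : ℕ => ((n : ℝ) + 1) ^ (β - 2)) := by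
    have h : Summable (fun n : ℕ => ((n : ℝ)) ^ (β - 2)) :=
      Real.summable_nat_rpow.2 (by linarith)
    refine ((summable_nat_add_iff 1).2 h).congr fun n => ?_
    push_cast; rfl
  set D : ℝ := ∑' n : ℕ, ((n : ℝ) + 1) ^ (β - 2) with hD
  have hZ0 : 0 ≤ Z := tsum_nonneg fun n => by positivity
  have hC0 : 0 ≤ C := by positivity
  have hD0 : 0 ≤ D := tsum_nonneg fun n => by positivity
  -- the estimate for each ε
  have hkey : ∀ ε : ℝ, 0 < ε → ε < ε₀ → ∃ x : E2, (∀ n, x n = en n (β / 2 - (μ + ε))) ∧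
      ‖Kop β x - (π / Complex.sin (π * (μ + ε))) • x‖ ≤ C * Real.sqrt D := by
    intro ε hε hε1
    set s : ℂ := μ + ε with hs
    have hsre : s.re = σ + ε := by rw [hs]; simp [hμ]
    have hs0 : 0 < s.re := by rw [hsre]; linarith
    have hs1 : s.re < 1 := by rw [hsre]; linarith
    have hmem : Memℓp (fun n => en n (β / 2 - s)) 2 := by
      apply memℓp_gen
      have h : Summable (fun n : ℕ => ((n : ℝ)) ^ (-1 - 2 * ε)) :=
        Real.summable_nat_rpow.2 (by linarith)
      refine ((summable_nat_add_iff 1).2 h).congr fun n => ?_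
      rw [norm_en, ENNReal.toReal_ofNat, ← Real.rpow_mul (by positivity)]
      push_cast
      congr 1
      have : (β / 2 - s : ℂ).re = β / 2 - s.re := by simp
      rw [this, hsre, hσ]
      ring
    set x : E2 := ⟨fun n => en n (β / 2 - s), hmem⟩ with hx
    have hxa : ∀ n, x n = en n (β / 2 - s) := fun n => rfl
    refine ⟨x, hxa, ?_⟩
    set y : E2 := Kop β x - (π / Complex.sin (π * s)) • x with hy
    have hya : ∀ m, ‖y m‖ ≤ C * ((m : ℝ) + 1) ^ (β / 2 - 1) := by
      intro m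
      obtain ⟨v, hv, hvb⟩ := hilbert_power hs0 hs1 m
      have h1 := Kop_spec hβ x m
      have h2 : HasSum (fun n => (kern β m n : ℂ) * x n) (en m (β / 2) * v) := by
        have := hv.mul_left (en m (β / 2))
        refine this.congr_fun ?_
        intro n
        rw [hxa]
        unfold kern
        have e1 : en n (β / 2 - s) = en n (-s) * en n (β / 2) := by
          rw [← en_add]; congr 1; ring
        have e2 : en n (β / 2) = (((((n : ℝ) + 1) ^ (β / 2) : ℝ)) : ℂ) := by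
          rw [← en_ofReal]; congr 1; push_cast; ring
        have e3 : en m (β / 2) = (((((m : ℝ) + 1) ^ (β / 2) : ℝ)) : ℂ) := by
          rw [← en_ofReal]; congr 1; push_cast; ring
        rw [e1, e2, e3, Real.div_rpow (by positivity) (by positivity)]
        have hn' : (((((n : ℝ) + 1) ^ (β / 2) : ℝ)) : ℂ) ≠ 0 := by
          exact_mod_cast (by positivity : (((n : ℝ) + 1) ^ (β / 2)) ≠ 0)
        push_cast only [Complex.ofReal_div, Complex.ofReal_add, Complex.ofReal_natCast,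
          Complex.ofReal_one]
        field_simp
      have h3 : Kop β x m = en m (β / 2) * v := h1.unique h2
      have h4 : y m = en m (β / 2) * (v - en m (-s) * (π / Complex.sin (π * s))) := by
        rw [hy, lp.coeFn_sub, Pi.sub_apply, lp.coeFn_smul, Pi.smul_apply, h3, hxa, smul_eq_mul]
        have e1 : en m (β / 2 - s) = en m (-s) * en m (β / 2) := by
          rw [← en_add]; congr 1; ring
        rw [e1]; ring
      rw [h4, norm_mul, norm_en]
      have e5 : ((β / 2 : ℂ)).re = β / 2 := by simp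
      rw [e5]
      have hbd : ‖v - en m (-s) * (π / Complex.sin (π * s))‖ ≤ C / ((m : ℝ) + 1) := by
        refine hvb.trans ?_
        gcongr
        rw [hC]
        apply add_le_add
        · apply mul_le_mul
          · have : ‖s‖ ≤ ‖μ‖ + ε₀ := by
              rw [hs]
              refine (norm_add_le _ _).trans ?_
              rw [Complex.norm_real, Real.norm_of_nonneg hε.le]
              linarith
            linarith
          · apply Summable.tsum_le_tsum _ _ hsZ
            · intro n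
              apply Real.rpow_le_rpow_of_exponent_le
              · have : (0 : ℝ) ≤ n := by positivity
                linarith
              · rw [hsre]; linarith
            · refine Summable.of_nonneg_of_le (fun n => by positivity) (fun n => ?_) hsZ
              apply Real.rpow_le_rpow_of_exponent_le
              · have : (0 : ℝ) ≤ n := by positivity
                linarith
              · rw [hsre]; linarith
          · exact tsum_nonneg fun n => by positivity
          · positivity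
        · apply one_div_le_one_div_of_le hε₀pos
          rw [hsre, hε₀]
          rw [hε₀] at hε1
          linarith
      calc ((m : ℝ) + 1) ^ (β / 2) * ‖v - en m (-s) * (π / Complex.sin (π * s))‖
          ≤ ((m : ℝ) + 1) ^ (β / 2) * (C / ((m : ℝ) + 1)) := by gcongr
        _ = C * ((m : ℝ) + 1) ^ (β / 2 - 1) := by
            rw [Real.rpow_sub_one (by positivity)]; ring
    have hsq : ‖y‖ ^ 2 ≤ (C * Real.sqrt D) ^ 2 := by
      have h5 := hasSum_norm_sq y
      have h6 : HasSum (fun n : ℕ => C ^ 2 * ((n : ℝ) + 1) ^ (β - 2)) (C ^ 2 * D) :=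
        (hsw.hasSum).mul_left _
      rw [mul_pow, Real.sq_sqrt hD0]
      apply hasSum_le _ h5 h6
      intro n
      calc ‖y n‖ ^ 2 ≤ (C * ((n : ℝ) + 1) ^ (β / 2 - 1)) ^ 2 := by
            gcongr
            exact hya n
        _ = _ := by
            rw [mul_pow, ← Real.rpow_natCast (((n : ℝ) + 1) ^ (β / 2 - 1)),
              ← Real.rpow_mul (by positivity)]
            congr 2
            push_cast; ring
    exact (pow_le_pow_iff_left₀ (norm_nonneg _) (by positivity) two_ne_zero).1 hsq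
  -- sin is nonzero at μ
  have hsin : Complex.sin (π * μ) ≠ 0 := by
    rw [Complex.sin_ne_zero_iff]
    intro k hk
    have hpi : (π : ℂ) ≠ 0 := by exact_mod_cast Real.pi_ne_zero
    rw [mul_comm] at hk
    have : μ = k := mul_right_cancel₀ hpi hk
    have hre : μ.re = k := by rw [this]; simp
    rw [hμ] at hre
    have k0 : (0 : ℝ) < k := by rw [← hre]; exact hσ0
    have k1 : (k : ℝ) < 1 := by rw [← hre]; exact hσ1
    have k0' : (0 : ℤ) < k := by exact_mod_cast k0
    have k1' : k < (1 : ℤ) := by exact_mod_cast k1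
    omega
  have hcont : Tendsto (fun ε : ℝ => ‖(π : ℂ) / Complex.sin (π * (μ + ε)) - π / Complex.sin (π * μ)‖)
      (𝓝 0) (𝓝 0) := by
    have : ContinuousAt (fun ε : ℝ => ‖(π : ℂ) / Complex.sin (π * (μ + ε)) -
        π / Complex.sin (π * μ)‖) 0 := by
      apply ContinuousAt.norm
      apply ContinuousAt.sub _ continuousAt_const
      apply ContinuousAt.div continuousAt_const
      · fun_prop
      · simpa using hsin
    have h2 := this.tendsto
    simpa using h2
  -- choose N with harmonic sum large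
  set R : ℝ := 2 * (C * Real.sqrt D + 1) / c with hR
  have hRpos : 0 < R := by positivity
  obtain ⟨N, hN⟩ : ∃ N : ℕ, R ^ 2 < ∑ n ∈ Finset.range N, 1 / ((n : ℝ) + 1) :=
    (Real.tendsto_sum_range_one_div_nat_succ_atTop.eventually (eventually_gt_atTop (R ^ 2))).exists
  have hlim2 : Tendsto (fun ε : ℝ => ∑ n ∈ Finset.range N, ((n : ℝ) + 1) ^ (-1 - 2 * ε)) (𝓝 0)
      (𝓝 (∑ n ∈ Finset.range N, 1 / ((n : ℝ) + 1))) := by
    apply tendsto_finsetSum
    intro n _
    have : ContinuousAt (fun ε : ℝ => ((n : ℝ) + 1) ^ (-1 - 2 * ε)) 0 := by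
      apply ContinuousAt.rpow continuousAt_const (by fun_prop)
      left
      positivity
    have h2 := this.tendsto
    simpa [Real.rpow_neg_one] using h2
  have ev1 : ∀ᶠ ε : ℝ in 𝓝[>] 0, ‖(π : ℂ) / Complex.sin (π * (μ + ε)) -
      π / Complex.sin (π * μ)‖ < c / 2 :=
    (hcont.mono_left nhdsWithin_le_nhds).eventually (gt_mem_nhds (by positivity))
  have ev2 : ∀ᶠ ε : ℝ in 𝓝[>] 0, R ^ 2 < ∑ n ∈ Finset.range N, ((n : ℝ) + 1) ^ (-1 - 2 * ε) :=
    (hlim2.mono_left nhdsWithin_le_nhds).eventually (lt_mem_nhds hN)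
  have ev3 : ∀ᶠ ε : ℝ in 𝓝[>] 0, ε < ε₀ := by
    apply Filter.Eventually.filter_mono nhdsWithin_le_nhds
    exact gt_mem_nhds hε₀pos
  have ev4 : ∀ᶠ ε : ℝ in 𝓝[>] 0, 0 < ε := eventually_mem_nhdsWithin
  obtain ⟨ε, h1, h2, h3, h4⟩ := (ev1.and (ev2.and (ev3.and ev4))).exists
  obtain ⟨x, hx, hxb⟩ := hkey ε h4 h3
  have hxn : R < ‖x‖ := by
    have h5 : ∑ n ∈ Finset.range N, ((n : ℝ) + 1) ^ (-1 - 2 * ε) ≤ ‖x‖ ^ 2 := by
      have h6 : ∑ n ∈ Finset.range N, ‖x n‖ ^ 2 ≤ ‖x‖ ^ 2 :=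
        sum_le_hasSum _ (fun _ _ => by positivity) (hasSum_norm_sq x)
      refine le_trans (le_of_eq ?_) h6
      apply Finset.sum_congr rfl
      intro n _
      rw [hx, norm_en, ← Real.rpow_natCast, ← Real.rpow_mul (by positivity)]
      congr 1
      have : (β / 2 - (μ + ε) : ℂ).re = β / 2 - (μ.re + ε) := by simp
      rw [this, hμ, hσ]
      push_cast; ring
    have h7 : R ^ 2 < ‖x‖ ^ 2 := lt_of_lt_of_le h2 h5
    exact lt_of_pow_lt_pow_left₀ 2 (norm_nonneg _) h7
  have hfinal := hcb x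
  have e : (Kop β - (π / Complex.sin (π * μ)) • (1 : E2 →L[ℂ] E2)) x =
      (Kop β x - (π / Complex.sin (π * (μ + ε))) • x) +
        ((π : ℂ) / Complex.sin (π * (μ + ε)) - π / Complex.sin (π * μ)) • x := by
    rw [sub_apply, smul_apply, one_apply_eq_self, sub_smul]
    abel
  have hle : ‖(Kop β - (π / Complex.sin (π * μ)) • (1 : E2 →L[ℂ] E2)) x‖ ≤
      C * Real.sqrt D + c / 2 * ‖x‖ := by
    rw [e]
    refine (norm_add_le _ _).trans ?_
    apply add_le_add hxb
    rw [norm_smul]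
    gcongr
  have h8 : c / 2 * ‖x‖ ≤ C * Real.sqrt D := by linarith
  have h9 : c / 2 * R < c / 2 * ‖x‖ := by gcongr
  have h10 : c / 2 * R = C * Real.sqrt D + 1 := by rw [hR]; field_simp
  linarith

end Pool.Agent.Lib.MP_b37156_an
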