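import Mathlib

namespace Pool.Agent.Lib.MP_b37156_an

open MeasureTheory
open scoped Real

/-- The measure on `ℕ` giving the point `n` the mass `(n+1)^α`. -/
noncomputable def wt (α : ℝ) : Measure ℕ :=
  Measure.count.withDensity (fun n : ℕ => ENNReal.ofReal (((n : ℝ) + 1) ^ α))

/-- The weighted sequence space `ℓ_2(α)`, as the space `L²(ℕ, wt α)`. -/
def L2w (α : ℝ) : Type := Lp ℂ 2 (wt α)

/-- `ℓ_2(α)` with the norm of `L²(ℕ, wt α)`, whose square is `∑ |a_n|² (n+1)^α`. -/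
noncomputable instance instNormedAddCommGroupL2w (α : ℝ) : NormedAddCommGroup (L2w α) :=
  Lp.instNormedAddCommGroup (E := ℂ) (p := 2) (μ := wt α)

noncomputable instance instNormedSpaceL2w (α : ℝ) : NormedSpace ℂ (L2w α) :=
  Lp.instNormedSpace (E := ℂ) (p := 2) (μ := wt α) (𝕜 := ℂ)

/-- The `n`-th entry `a_n` of a sequence `a` in `ℓ_2(α)`. -/
noncomputable def entry {α : ℝ} (a : L2w α) (n : ℕ) : ℂ := (show Lp ℂ 2 (wt α) from a) n

/-- A bounded operator `H` on `ℓ_2(α)` acts as the Hilbert matrix: for every `a` and every `m`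
the series `∑ a_n / (m + n + 1)` converges and its sum is `(H a)_m`. -/
def ActsAsHilbertMatrix {α : ℝ} (H : L2w α →L[ℂ] L2w α) : Prop :=
  ∀ (a : L2w α) (m : ℕ), HasSum (fun n : ℕ => entry a n / ((m : ℂ) + n + 1)) (entry (H a) m)

/-- The candidate spectrum: `0` and all the numbers `π / sin (π μ)` with `|Re μ - 1/2| ≤ |α|/2`. -/
def spectralRegion (α : ℝ) : Set ℂ :=
  {0} ∪ {z : ℂ | ∃ μ : ℂ, |μ.re - 1 / 2| ≤ |α| / 2 ∧ z = π / Complex.sin (π * μ)}

end Pool.Agent.Lib.MP_b37156_an
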