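import Mathlib

namespace Pool.Agent.Lib.MP_b37156_an

open MeasureTheory Set
open scoped Real

/-- logistic map -/
theorem image_logistic :
    (fun u : ℝ => Real.exp u / (1 + Real.exp u)) '' (univ : Set ℝ) = Ioo 0 1 := by
  ext x
  constructor
  · rintro ⟨u, -, rfl⟩
    have := Real.exp_pos u
    constructor
    · positivity
    · show Real.exp u / (1 + Real.exp u) < 1
      rw [div_lt_one (by positivity)]; linarith
  · rintro ⟨h0, h1⟩
    have h2 : 0 < 1 - x := by linarith
    refine ⟨Real.log (x / (1 - x)), mem_univ _, ?_⟩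
    show Real.exp (Real.log (x / (1 - x))) / (1 + Real.exp (Real.log (x / (1 - x)))) = x
    rw [Real.exp_log (by positivity)]
    field_simp
    ring

theorem hasDerivAt_logistic (u : ℝ) :
    HasDerivAt (fun u : ℝ => Real.exp u / (1 + Real.exp u)) (Real.exp u / (1 + Real.exp u) ^ 2) u := by
  have h1 := Real.hasDerivAt_exp u
  have h2 : HasDerivAt (fun u : ℝ => 1 + Real.exp u) (Real.exp u) u := by
    simpa using h1.const_add 1
  have hp : (1 + Real.exp u) ≠ 0 := by positivity
  have h3 := h1.div h2 hp
  have e : Real.exp u / (1 + Real.exp u) ^ 2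
      = (Real.exp u * (1 + Real.exp u) - Real.exp u * Real.exp u) / (1 + Real.exp u) ^ 2 := by
    congr 1; ring
  rw [e]
  exact h3

theorem logistic_injective : Function.Injective (fun u : ℝ => Real.exp u / (1 + Real.exp u)) := by
  intro u v h
  have hu := Real.exp_pos u
  have hv := Real.exp_pos v
  simp only at h
  rw [div_eq_div_iff (by positivity) (by positivity)] at h
  apply Real.exp_injective
  linarith

theorem logistic_integrand (s : ℂ) (u : ℝ) :
    |Real.exp u / (1 + Real.exp u) ^ 2| •
      (((Real.exp u / (1 + Real.exp u) : ℝ) : ℂ) ^ (s - 1) *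
        (1 - ((Real.exp u / (1 + Real.exp u) : ℝ) : ℂ)) ^ ((1 - s) - 1))
      = Complex.exp (s * u) / (1 + Complex.exp u) := by
  have hu := Real.exp_pos u
  have hp : 0 < 1 + Real.exp u := by positivity
  set L : ℝ := Real.log (1 + Real.exp u) with hL
  have hE : 1 + Real.exp u = Real.exp L := (Real.exp_log hp).symm
  have hEc : 1 + Complex.exp u = Complex.exp L := by
    have := congrArg (fun x : ℝ => (x : ℂ)) hE
    push_cast at this
    simpa using this
  have e1 : Real.exp u / (1 + Real.exp u) = Real.exp (u - L) := by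
    rw [hE, Real.exp_sub]
  have e2 : 1 - ((Real.exp u / (1 + Real.exp u) : ℝ) : ℂ) = ((Real.exp (-L) : ℝ) : ℂ) := by
    have : 1 - Real.exp u / (1 + Real.exp u) = Real.exp (-L) := by
      rw [Real.exp_neg, ← hE]; field_simp; ring
    rw [← this]; push_cast; ring
  have e3 : |Real.exp u / (1 + Real.exp u) ^ 2| = Real.exp (u - 2 * L) := by
    rw [abs_of_pos (by positivity), hE, ← Real.exp_nat_mul, ← Real.exp_sub]
    norm_num
  rw [e2, e3, e1, hEc]
  rw [Complex.cpow_def_of_ne_zero (by exact_mod_cast (Real.exp_pos _).ne'),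
    Complex.cpow_def_of_ne_zero (by exact_mod_cast (Real.exp_pos _).ne')]
  rw [← Complex.ofReal_log (Real.exp_pos _).le, ← Complex.ofReal_log (Real.exp_pos _).le,
    Real.log_exp, Real.log_exp, ← Complex.exp_add, Complex.real_smul, Complex.ofReal_exp,
    ← Complex.exp_add, ← Complex.exp_sub]
  congr 1
  push_cast
  ring

theorem integrable_kap {s : ℂ} (h0 : 0 < s.re) (h1 : s.re < 1) :
    Integrable (fun u : ℝ => Complex.exp (s * u) / (1 + Complex.exp u)) := by
  have hb := Complex.betaIntegral_convergent (u := s) (v := 1 - s) h0 (by simpa using h1)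
  rw [intervalIntegrable_iff_integrableOn_Ioo_of_le zero_le_one] at hb
  rw [← image_logistic, integrableOn_image_iff_integrableOn_abs_deriv_smul MeasurableSet.univ
    (fun x _ => (hasDerivAt_logistic x).hasDerivWithinAt) (logistic_injective.injOn)] at hb
  rw [integrableOn_univ] at hb
  refine hb.congr (Filter.Eventually.of_forall fun u => ?_)
  exact logistic_integrand s u

theorem integral_kap {s : ℂ} (h0 : 0 < s.re) (h1 : s.re < 1) :
    ∫ u : ℝ, Complex.exp (s * u) / (1 + Complex.exp u) = π / Complex.sin (π * s) := by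
  have hb := Complex.Gamma_mul_Gamma_eq_betaIntegral (s := s) (t := 1 - s) h0 (by simpa using h1)
  rw [Complex.Gamma_mul_Gamma_one_sub] at hb
  rw [hb]
  have : s + (1 - s) = 1 := by ring
  rw [this, Complex.Gamma_one, one_mul, Complex.betaIntegral,
    intervalIntegral.integral_of_le zero_le_one, integral_Ioc_eq_integral_Ioo]
  rw [← image_logistic, integral_image_eq_integral_abs_deriv_smul MeasurableSet.univ
    (fun x _ => (hasDerivAt_logistic x).hasDerivWithinAt) (logistic_injective.injOn)]
  rw [Measure.restrict_univ]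
  refine integral_congr_ae (Filter.Eventually.of_forall fun u => ?_)
  exact (logistic_integrand s u).symm

end Pool.Agent.Lib.MP_b37156_an
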