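import Pool.Agent.Lib.MP_b37156_an.Plancherel
import Pool.Agent.Lib.MP_b37156_an.Stieltjes

namespace Pool.Agent.Lib.MP_b37156_an

open MeasureTheory Set FourierTransform Convolution
open scoped Real ENNReal

/-- the convolution kernel -/
noncomputable def kapF (σ : ℝ) (u : ℝ) : ℂ := Complex.exp (σ * u) / (1 + Complex.exp u)

/-- dominating function -/
noncomputable def psi (σ : ℝ) (u : ℝ) : ℝ := if u < 0 then Real.exp (σ * u) else Real.exp ((σ - 1) * u)

theorem psi_pos (σ u : ℝ) : 0 < psi σ u := by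
  unfold psi; split_ifs <;> positivity

theorem kapF_eq_ofReal (σ u : ℝ) :
    kapF σ u = ((Real.exp (σ * u) / (1 + Real.exp u) : ℝ) : ℂ) := by
  unfold kapF; push_cast; rfl

theorem norm_kapF (σ u : ℝ) : ‖kapF σ u‖ = Real.exp (σ * u) / (1 + Real.exp u) := by
  rw [kapF_eq_ofReal, Complex.norm_real, Real.norm_of_nonneg (by positivity)]

theorem norm_kapF_le_psi (σ u : ℝ) : ‖kapF σ u‖ ≤ psi σ u := by
  rw [norm_kapF]
  have h := Real.exp_pos u
  unfold psi
  split_ifs with hu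
  · exact div_le_self (Real.exp_pos _).le (by linarith)
  · rw [show (σ - 1) * u = σ * u - u by ring, Real.exp_sub]
    exact div_le_div_of_nonneg_left (Real.exp_pos _).le h (by linarith)

theorem psi_le_kapF (σ u : ℝ) : psi σ u ≤ 2 * ‖kapF σ u‖ := by
  rw [norm_kapF]
  have h := Real.exp_pos u
  unfold psi
  split_ifs with hu
  · have h1 : Real.exp u ≤ 1 := Real.exp_le_one_iff.2 hu.le
    rw [← mul_div_assoc, le_div_iff₀ (by positivity)]
    nlinarith [Real.exp_pos (σ * u)]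
  · push Not at hu
    have h1 : 1 ≤ Real.exp u := Real.one_le_exp hu
    rw [show (σ - 1) * u = σ * u - u by ring, Real.exp_sub, ← mul_div_assoc,
      div_le_div_iff₀ h (by positivity)]
    nlinarith [Real.exp_pos (σ * u)]

theorem psi_le_one {σ : ℝ} (h0 : 0 < σ) (h1 : σ < 1) (u : ℝ) : psi σ u ≤ 1 := by
  unfold psi
  split_ifs with hu
  · apply Real.exp_le_one_iff.2; nlinarith
  · push Not at hu
    apply Real.exp_le_one_iff.2; nlinarith

theorem continuous_kapF (σ : ℝ) : Continuous (kapF σ) := by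
  unfold kapF
  apply Continuous.div (by fun_prop) (by fun_prop)
  intro u
  have : (1 : ℂ) + Complex.exp u = ((1 + Real.exp u : ℝ) : ℂ) := by push_cast; rfl
  rw [this]
  have h := Real.exp_pos u
  exact_mod_cast (by positivity : (1 + Real.exp u) ≠ 0)

theorem measurable_psi (σ : ℝ) : Measurable (psi σ) := by
  unfold psi
  apply Measurable.ite measurableSet_Iio <;> fun_prop

theorem integrable_kapF {σ : ℝ} (h0 : 0 < σ) (h1 : σ < 1) : Integrable (kapF σ) :=
  integrable_kap (s := σ) (by simpa using h0) (by simpa using h1)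

theorem integrable_psi {σ : ℝ} (h0 : 0 < σ) (h1 : σ < 1) : Integrable (psi σ) := by
  apply Integrable.mono' ((integrable_kapF h0 h1).norm.const_mul 2)
    (measurable_psi σ).aestronglyMeasurable
  filter_upwards with u
  rw [Real.norm_of_nonneg (psi_pos σ u).le]
  exact psi_le_kapF σ u

theorem memLp_two_of_bounded {f : ℝ → ℂ} {C : ℝ} (hf : Integrable f) (hb : ∀ u, ‖f u‖ ≤ C) :
    MemLp f 2 := by
  rw [memLp_two_iff_integrable_sq_norm hf.aestronglyMeasurable]
  apply Integrable.mono' (hf.norm.const_mul C) (hf.aestronglyMeasurable.norm.pow 2)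
  filter_upwards with u
  rw [Pi.pow_apply, norm_pow, norm_norm, sq]
  exact mul_le_mul_of_nonneg_right (hb u) (norm_nonneg _)

theorem memLp_psi {σ : ℝ} (h0 : 0 < σ) (h1 : σ < 1) : MemLp (psi σ) 2 := by
  rw [memLp_two_iff_integrable_sq_norm (measurable_psi σ).aestronglyMeasurable]
  apply Integrable.mono' (integrable_psi h0 h1)
  · exact ((measurable_psi σ).norm.pow_const 2).aestronglyMeasurable
  filter_upwards with u
  rw [norm_pow, norm_norm, Real.norm_of_nonneg (psi_pos σ u).le, sq]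
  exact mul_le_of_le_one_right (psi_pos σ u).le (psi_le_one h0 h1 u)

theorem fourier_kapF {σ : ℝ} (h0 : 0 < σ) (h1 : σ < 1) (ξ : ℝ) :
    𝓕 (kapF σ) ξ = π / Complex.sin (π * ((σ : ℂ) - 2 * π * ξ * Complex.I)) := by
  rw [Real.fourier_real_eq_integral_exp_smul]
  rw [← integral_kap (s := (σ : ℂ) - 2 * π * ξ * Complex.I) (by simpa using h0) (by simpa using h1)]
  congr 1
  ext u
  unfold kapF
  rw [smul_eq_mul, ← mul_div_assoc, ← Complex.exp_add]
  congr 2
  push_cast
  ring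

/-- distance of `z` to the symbol curve is positive -/
theorem exists_delta {σ : ℝ} (h0 : 0 < σ) (h1 : σ < 1) {z : ℂ} (hz : z ≠ 0)
    (hz' : ∀ s : ℂ, s.re = σ → z ≠ π / Complex.sin (π * s)) :
    ∃ δ : ℝ, 0 < δ ∧ ∀ ξ : ℝ, δ ≤ ‖𝓕 (kapF σ) ξ - z‖ := by
  have hint := integrable_kapF h0 h1
  have hcont : Continuous (𝓕 (kapF σ)) :=
    VectorFourier.fourierIntegral_continuous (μ := (volume : Measure ℝ)) (E := ℂ)
        (e := Real.fourierChar) (L := innerₗ ℝ) Real.continuous_fourierChar (by fun_prop) hint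
  have hlim := Real.zero_at_infty_fourier (kapF σ)
  have h2 : Filter.Tendsto (fun ξ => ‖𝓕 (kapF σ) ξ - z‖) (Filter.cocompact ℝ) (nhds ‖z‖) := by
    have := (hlim.sub_const z).norm
    simpa using this
  have h3 : ∀ᶠ ξ in Filter.cocompact ℝ, ‖z‖ / 2 < ‖𝓕 (kapF σ) ξ - z‖ :=
    h2.eventually (lt_mem_nhds (by linarith [norm_pos_iff.2 hz]))
  obtain ⟨K, hK, hKs⟩ := Filter.mem_cocompact.1 h3
  have hpos : ∀ ξ, 0 < ‖𝓕 (kapF σ) ξ - z‖ := by
    intro ξ
    rw [norm_pos_iff, sub_ne_zero, fourier_kapF h0 h1]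
    intro h
    exact hz' ((σ : ℂ) - 2 * π * ξ * Complex.I) (by simp) h.symm
  rcases K.eq_empty_or_nonempty with hE | hne
  · refine ⟨‖z‖ / 2, by linarith [norm_pos_iff.2 hz], fun ξ => ?_⟩
    have : ξ ∈ Kᶜ := by rw [hE]; simp
    exact (hKs this).le
  · obtain ⟨ξ₀, -, hmin⟩ := hK.exists_isMinOn hne
      (f := fun ξ => ‖𝓕 (kapF σ) ξ - z‖) (by fun_prop)
    refine ⟨min (‖z‖ / 2) ‖𝓕 (kapF σ) ξ₀ - z‖, lt_min (by linarith [norm_pos_iff.2 hz]) (hpos ξ₀),
      fun ξ => ?_⟩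
    by_cases hξ : ξ ∈ K
    · exact (min_le_right _ _).trans (hmin hξ)
    · exact (min_le_left _ _).trans (hKs hξ).le

theorem integrable_exp_smul {f : ℝ → ℂ} (hf : Integrable f) (ξ : ℝ) :
    Integrable (fun v : ℝ => Complex.exp ((↑(-2 * π * v * ξ) : ℂ) * Complex.I) • f v) := by
  apply Integrable.mono hf
  · have hc : Continuous (fun v : ℝ => Complex.exp ((↑(-2 * π * v * ξ) : ℂ) * Complex.I)) := by
      fun_prop
    exact hc.aestronglyMeasurable.smul hf.1
  · filter_upwards with v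
    rw [norm_smul, Complex.norm_exp_ofReal_mul_I, one_mul]

/-- main Fourier inequality -/
theorem fourier_lower {σ : ℝ} (h0 : 0 < σ) (h1 : σ < 1) {z : ℂ} {δ : ℝ} (hδ : 0 < δ)
    (hδ' : ∀ ξ : ℝ, δ ≤ ‖𝓕 (kapF σ) ξ - z‖) {g : ℝ → ℂ} (g1 : Integrable g) (g2 : MemLp g 2) :
    ENNReal.ofReal δ * eLpNorm g 2 ≤
      eLpNorm (fun u => (g ⋆[ContinuousLinearMap.mul ℂ ℂ] (kapF σ)) u - z * g u) 2 := by
  have hk1 := integrable_kapF h0 h1
  have c1 : Integrable (g ⋆[ContinuousLinearMap.mul ℂ ℂ] (kapF σ)) :=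
    g1.integrable_convolution _ hk1
  have hb : ∀ u, ‖(g ⋆[ContinuousLinearMap.mul ℂ ℂ] (kapF σ)) u‖ ≤ ∫ t, ‖g t‖ := by
    intro u
    refine (norm_integral_le_integral_norm _).trans ?_
    apply integral_mono_of_nonneg
    · filter_upwards with t using norm_nonneg _
    · exact g1.norm
    · filter_upwards with t
      rw [ContinuousLinearMap.mul_apply', norm_mul]
      exact mul_le_of_le_one_right (norm_nonneg _)
        ((norm_kapF_le_psi σ _).trans (psi_le_one h0 h1 _))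
  have c2 : MemLp (g ⋆[ContinuousLinearMap.mul ℂ ℂ] (kapF σ)) 2 := memLp_two_of_bounded c1 hb
  set h : ℝ → ℂ := fun u => (g ⋆[ContinuousLinearMap.mul ℂ ℂ] (kapF σ)) u - z * g u with hh
  have e1 : Integrable h := c1.sub (g1.const_mul z)
  have e2 : MemLp h 2 := c2.sub (g2.const_mul z)
  obtain ⟨-, p1⟩ := plancherel h e1 e2
  obtain ⟨-, p2⟩ := plancherel g g1 g2
  rw [← p1, ← p2]
  have hF : ∀ ξ, 𝓕 h ξ = (𝓕 (kapF σ) ξ - z) * 𝓕 g ξ := by
    intro ξ
    have s1 : 𝓕 h ξ = 𝓕 (g ⋆[ContinuousLinearMap.mul ℂ ℂ] (kapF σ)) ξ - z * 𝓕 g ξ := by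
      rw [Real.fourier_real_eq_integral_exp_smul, Real.fourier_real_eq_integral_exp_smul,
        Real.fourier_real_eq_integral_exp_smul, ← integral_const_mul, ← integral_sub]
      · congr 1
        ext v
        rw [hh]
        simp only [smul_eq_mul]
        ring
      · exact integrable_exp_smul c1 ξ
      · exact (integrable_exp_smul g1 ξ).const_mul z
    rw [s1, Real.fourier_mul_convolution_eq g1 hk1]
    ring
  have : ENNReal.ofReal δ * eLpNorm (𝓕 g) 2 = eLpNorm (fun ξ => (δ : ℂ) * 𝓕 g ξ) 2 := by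
    have := eLpNorm_const_smul (δ : ℂ) (𝓕 g) 2 (volume : Measure ℝ)
    rw [show (fun ξ => (δ : ℂ) * 𝓕 g ξ) = (δ : ℂ) • 𝓕 g from rfl, this]
    congr 1
    rw [← ofReal_norm, Complex.norm_real, Real.norm_of_nonneg hδ.le]
  rw [this]
  apply eLpNorm_mono
  intro ξ
  rw [hF, norm_mul, norm_mul, Complex.norm_real, Real.norm_of_nonneg hδ.le]
  exact mul_le_mul_of_nonneg_right (hδ' ξ) (norm_nonneg _)

end Pool.Agent.Lib.MP_b37156_an
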