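import Pool.Agent.Lib.MP_b37156_an.Stab

namespace Pool.Agent.Lib.MP_b37156_an

open MeasureTheory Set Filter Complex.HadamardThreeLines
open scoped Real ENNReal Topology InnerProductSpace ComplexConjugate

/-- finitely supported vectors -/
noncomputable def vec (s : Finset ℕ) (c : ℕ → ℂ) : E2 := ∑ n ∈ s, c n • bv n

theorem vec_apply (s : Finset ℕ) (c : ℕ → ℂ) (m : ℕ) : vec s c m = trunc s c m := sum_bv_apply s c m

theorem vec_congr {s : Finset ℕ} {c d : ℕ → ℂ} (h : ∀ n ∈ s, c n = d n) : vec s c = vec s d := by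
  unfold vec
  exact Finset.sum_congr rfl (fun n hn => by rw [h n hn])

theorem norm_vec_sq (s : Finset ℕ) (c : ℕ → ℂ) : ‖vec s c‖ ^ 2 = ∑ n ∈ s, ‖c n‖ ^ 2 := by
  have h := hasSum_norm_sq (vec s c)
  have h2 : HasSum (fun n => ‖vec s c n‖ ^ 2) (∑ n ∈ s, ‖vec s c n‖ ^ 2) := by
    apply hasSum_sum_of_ne_finset_zero
    intro n hn
    rw [vec_apply]
    unfold trunc
    rw [if_neg hn]; simp
  rw [h.unique h2]
  apply Finset.sum_congr rfl
  intro n hn
  rw [vec_apply]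
  unfold trunc
  rw [if_pos hn]

theorem norm_vec_congr {s : Finset ℕ} {c d : ℕ → ℂ} (h : ∀ n ∈ s, ‖c n‖ = ‖d n‖) :
    ‖vec s c‖ = ‖vec s d‖ := by
  have : ‖vec s c‖ ^ 2 = ‖vec s d‖ ^ 2 := by
    rw [norm_vec_sq, norm_vec_sq]
    exact Finset.sum_congr rfl (fun n hn => by rw [h n hn])
  exact (pow_left_inj₀ (norm_nonneg _) (norm_nonneg _) two_ne_zero).1 this

theorem inner_vec (s s' : Finset ℕ) (c d : ℕ → ℂ) (T : E2 →L[ℂ] E2) :
    ⟪vec s c, T (vec s' d)⟫_ℂ = ∑ m ∈ s, ∑ n ∈ s', (conj (c m) * d n) * (T (bv n) m) := by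
  unfold vec
  rw [map_sum, sum_inner]
  apply Finset.sum_congr rfl; intro m _
  rw [inner_sum]
  apply Finset.sum_congr rfl; intro n _
  rw [map_smul, inner_smul_left, inner_smul_right, inner_bv_left]
  ring

theorem tendsto_vec (x : E2) : Tendsto (fun s => vec s x) atTop (𝓝 x) := hasSum_bv x

theorem diag_vec {Q : E2 →L[ℂ] E2} {q : ℕ → ℂ} (hQ : ∀ x m, Q x m = q m * x m) (s : Finset ℕ)
    (c : ℕ → ℂ) : Q (vec s c) = vec s (fun n => q n * c n) := by
  ext m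
  rw [hQ, vec_apply, vec_apply]
  unfold trunc
  split_ifs <;> simp

theorem diag_symm {Q : E2 →L[ℂ] E2} {q : ℕ → ℝ} (hQ : ∀ x m, Q x m = (q m : ℂ) * x m) (x y : E2) :
    ⟪Q x, y⟫_ℂ = ⟪x, Q y⟫_ℂ := by
  have h : ContinuousLinearMap.adjoint Q = Q := by
    apply ext_bv
    intro n
    ext m
    rw [← inner_bv_left m, ContinuousLinearMap.adjoint_inner_right, inner_bv_right, hQ, hQ,
      bv_apply, bv_apply]
    by_cases hmn : m = n
    · subst hmn; simp
    · rw [if_neg hmn, if_neg (Ne.symm hmn)]; simp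
  rw [← ContinuousLinearMap.adjoint_inner_right, h]

/-- complex powers of `n+1` -/
noncomputable def en (n : ℕ) (w : ℂ) : ℂ := ((((n : ℝ) + 1 : ℝ)) : ℂ) ^ w

theorem norm_en (n : ℕ) (w : ℂ) : ‖en n w‖ = ((n : ℝ) + 1) ^ w.re := by
  unfold en
  rw [Complex.norm_cpow_eq_rpow_re_of_pos (by positivity)]

theorem en_ofReal (n : ℕ) (t : ℝ) : en n t = ((((n : ℝ) + 1) ^ t : ℝ) : ℂ) := by
  unfold en
  rw [Complex.ofReal_cpow (by positivity)]

theorem en_add (n : ℕ) (w w' : ℂ) : en n (w + w') = en n w * en n w' := by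
  unfold en
  rw [Complex.cpow_add _ _ (by exact_mod_cast (by positivity : ((n : ℝ) + 1) ≠ 0))]

theorem interp_finite {α : ℝ} (hα : 0 < α) {T S B : E2 →L[ℂ] E2}
    (hB : ∀ x m, B x m = ((((m : ℝ) + 1) ^ (-α) : ℝ) : ℂ) * x m)
    (hST : ∀ x, B (T x) = S (B x)) {M : ℝ} (hT : ‖T‖ ≤ M) (hS : ‖S‖ ≤ M)
    {θ : ℝ} (hθ0 : 0 ≤ θ) (hθ1 : θ ≤ α) (s s' : Finset ℕ) (u y : ℕ → ℂ) :
    ‖⟪vec s (fun m => conj (en m (-θ)) * u m), T (vec s' (fun n => en n θ * y n))⟫_ℂ‖ ≤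
      M * ‖vec s u‖ * ‖vec s' y‖ := by
  have hM : 0 ≤ M := (norm_nonneg _).trans hT
  set F : ℂ → ℂ := fun w => ∑ m ∈ s, ∑ n ∈ s', (en m (-w) * en n w) * (conj (u m) * y n * T (bv n) m)
    with hF
  have hFe : ∀ w, F w = ⟪vec s (fun m => conj (en m (-w)) * u m), T (vec s' (fun n => en n w * y n))⟫_ℂ := by
    intro w
    rw [inner_vec, hF]
    apply Finset.sum_congr rfl; intro m _
    apply Finset.sum_congr rfl; intro n _
    rw [map_mul, Complex.conj_conj]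
    ring
  have hdiff : Differentiable ℂ F := by
    rw [hF]
    apply Differentiable.fun_sum; intro m _
    apply Differentiable.fun_sum; intro n _
    apply Differentiable.mul_const
    unfold en
    apply Differentiable.mul
    · intro w
      apply DifferentiableAt.const_cpow (by fun_prop)
      left
      exact_mod_cast (by positivity : ((m : ℝ) + 1) ≠ 0)
    · intro w
      apply DifferentiableAt.const_cpow (by fun_prop)
      left
      exact_mod_cast (by positivity : ((n : ℝ) + 1) ≠ 0)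
  have hbdd : BddAbove ((norm ∘ F) '' verticalClosedStrip 0 α) := by
    refine ⟨∑ m ∈ s, ∑ n ∈ s', (1 * ((n : ℝ) + 1) ^ α) * ‖conj (u m) * y n * T (bv n) m‖, ?_⟩
    rintro _ ⟨w, hw, rfl⟩
    have hw : 0 ≤ w.re ∧ w.re ≤ α := hw
    simp only [Function.comp]
    rw [hF]
    refine (norm_sum_le _ _).trans ?_
    apply Finset.sum_le_sum; intro m _
    refine (norm_sum_le _ _).trans ?_
    apply Finset.sum_le_sum; intro n _
    rw [norm_mul, norm_mul, norm_en, norm_en]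
    gcongr
    · apply Real.rpow_le_one_of_one_le_of_nonpos
      · have : (0 : ℝ) ≤ m := by positivity
        linarith
      · rw [Complex.neg_re]; linarith [hw.1]
    · have : (0 : ℝ) ≤ n := by positivity
      linarith
    · exact hw.2
  have hgen : ∀ (A : E2 →L[ℂ] E2), ‖A‖ ≤ M → ∀ (c d : ℕ → ℂ), (∀ m ∈ s, ‖c m‖ = ‖u m‖) →
      (∀ n ∈ s', ‖d n‖ = ‖y n‖) → ‖⟪vec s c, A (vec s' d)⟫_ℂ‖ ≤ M * ‖vec s u‖ * ‖vec s' y‖ := by
    intro A hA c d hc hd
    calc ‖⟪vec s c, A (vec s' d)⟫_ℂ‖ ≤ ‖vec s c‖ * ‖A (vec s' d)‖ := norm_inner_le_norm _ _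
      _ ≤ ‖vec s c‖ * (M * ‖vec s' d‖) := by
          gcongr
          exact (A.le_opNorm _).trans (by gcongr)
      _ = M * ‖vec s u‖ * ‖vec s' y‖ := by
          rw [norm_vec_congr hc, norm_vec_congr hd]; ring
  have hleft : ∀ w ∈ Complex.re ⁻¹' {(0 : ℝ)}, ‖F w‖ ≤ M * ‖vec s u‖ * ‖vec s' y‖ := by
    intro w hw
    have hw : w.re = 0 := hw
    rw [hFe]
    apply hgen T hT
    · intro m _
      rw [norm_mul, Complex.norm_conj, norm_en, Complex.neg_re, hw]; simp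
    · intro n _
      rw [norm_mul, norm_en, hw]; simp
  have hright : ∀ w ∈ Complex.re ⁻¹' {(α : ℝ)}, ‖F w‖ ≤ M * ‖vec s u‖ * ‖vec s' y‖ := by
    intro w hw
    have hw : w.re = α := hw
    set w' : ℂ := w - α with hw'
    have hw'r : w'.re = 0 := by rw [hw']; simp [hw]
    rw [hFe]
    have e1 : vec s (fun m => conj (en m (-w)) * u m) = B (vec s (fun m => conj (en m (-w')) * u m)) := by
      rw [diag_vec hB]
      apply vec_congr
      intro m _
      have : -w = -w' + ((-α : ℝ) : ℂ) := by rw [hw']; push_cast; ring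
      rw [this, en_add, en_ofReal, map_mul, Complex.conj_ofReal]
      ring
    have e2 : B (vec s' (fun n => en n w * y n)) = vec s' (fun n => en n w' * y n) := by
      rw [diag_vec hB]
      apply vec_congr
      intro n _
      have : w = w' + (α : ℂ) := by rw [hw']; ring
      rw [this, en_add, en_ofReal]
      have : ((((n : ℝ) + 1) ^ (-α) : ℝ) : ℂ) * ((((n : ℝ) + 1) ^ α : ℝ) : ℂ) = 1 := by
        rw [← Complex.ofReal_mul, ← Real.rpow_add (by positivity)]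
        simp
      linear_combination (en n w' * y n) * this
    rw [e1, diag_symm hB, hST, e2]
    apply hgen S hS
    · intro m _
      rw [norm_mul, Complex.norm_conj, norm_en, Complex.neg_re, hw'r]; simp
    · intro n _
      rw [norm_mul, norm_en, hw'r]; simp
  have hmain := norm_le_interp_of_mem_verticalClosedStrip' (f := F) (z := (θ : ℂ)) hα
    (show (θ : ℂ) ∈ verticalClosedStrip 0 α from ⟨by simpa using hθ0, by simpa using hθ1⟩)
    hdiff.diffContOnCl hbdd hleft hright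
  rw [← hFe]
  refine hmain.trans ?_
  set A := M * ‖vec s u‖ * ‖vec s' y‖ with hA
  have hA0 : 0 ≤ A := by positivity
  rcases eq_or_lt_of_le hA0 with h | h
  · rw [← h]
    rcases eq_or_ne (((θ : ℂ).re - 0) / (α - 0)) 0 with h2 | h2
    · rw [h2]; simp
    · rw [Real.zero_rpow h2, mul_zero]
  · rw [← Real.rpow_add h]
    simp

theorem interp {α : ℝ} (hα : 0 < α) {T S B : E2 →L[ℂ] E2}
    (hB : ∀ x m, B x m = ((((m : ℝ) + 1) ^ (-α) : ℝ) : ℂ) * x m)
    (hST : ∀ x, B (T x) = S (B x)) {M : ℝ} (hT : ‖T‖ ≤ M) (hS : ‖S‖ ≤ M)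
    {θ : ℝ} (hθ0 : 0 ≤ θ) (hθ1 : θ ≤ α) {Q : E2 →L[ℂ] E2}
    (hQ : ∀ x m, Q x m = ((((m : ℝ) + 1) ^ (-θ) : ℝ) : ℂ) * x m) (x : E2) :
    ‖Q (T x)‖ ≤ M * ‖Q x‖ := by
  have hM : 0 ≤ M := (norm_nonneg _).trans hT
  have hfin : ∀ (s' : Finset ℕ), ‖Q (T (vec s' x))‖ ≤ M * ‖Q (vec s' x)‖ := by
    intro s'
    set v := Q (T (vec s' x)) with hv
    set y : ℕ → ℂ := fun n => ((((n : ℝ) + 1) ^ (-θ) : ℝ) : ℂ) * x n with hy
    have h1 : ∀ s : Finset ℕ, ‖⟪vec s v, v⟫_ℂ‖ ≤ M * ‖vec s v‖ * ‖Q (vec s' x)‖ := by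
      intro s
      have h := interp_finite hα hB hST hT hS hθ0 hθ1 s s' v y
      have e1 : vec s (fun m => conj (en m (-θ)) * v m) = Q (vec s v) := by
        rw [diag_vec hQ]
        apply vec_congr
        intro m _
        rw [← Complex.ofReal_neg, en_ofReal, Complex.conj_ofReal]
      have e2 : vec s' (fun n => en n θ * y n) = vec s' x := by
        apply vec_congr
        intro n _
        rw [en_ofReal, hy]
        have : ((((n : ℝ) + 1) ^ θ : ℝ) : ℂ) * ((((n : ℝ) + 1) ^ (-θ) : ℝ) : ℂ) = 1 := by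
          rw [← Complex.ofReal_mul, ← Real.rpow_add (by positivity)]
          simp
        linear_combination (x n) * this
      have e3 : vec s' y = Q (vec s' x) := by
        rw [diag_vec hQ]
      rw [e1, e2, e3, diag_symm hQ] at h
      exact h
    have hl := tendsto_vec v
    have l1 : Tendsto (fun s => ‖⟪vec s v, v⟫_ℂ‖) atTop (𝓝 ‖⟪v, v⟫_ℂ‖) :=
      ((hl.inner tendsto_const_nhds)).norm
    have l2 : Tendsto (fun s => M * ‖vec s v‖ * ‖Q (vec s' x)‖) atTop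
        (𝓝 (M * ‖v‖ * ‖Q (vec s' x)‖)) := ((hl.norm).const_mul M).mul_const _
    have h2 := le_of_tendsto_of_tendsto' l1 l2 h1
    rcases eq_or_ne v 0 with h0 | h0
    · rw [h0, norm_zero]; positivity
    · have hvn : 0 < ‖v‖ := norm_pos_iff.2 h0
      rw [inner_self_eq_norm_sq_to_K, norm_pow] at h2
      have h3 : ‖v‖ * ‖v‖ ≤ (M * ‖Q (vec s' x)‖) * ‖v‖ := by
        calc ‖v‖ * ‖v‖ = ‖((‖v‖ : ℝ) : ℂ)‖ ^ 2 := by
              rw [Complex.norm_real, norm_norm]; ring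
          _ ≤ _ := h2
          _ = _ := by ring
      exact le_of_mul_le_mul_right h3 hvn
  have hl := tendsto_vec x
  have l1 : Tendsto (fun s => ‖Q (T (vec s x))‖) atTop (𝓝 ‖Q (T x)‖) :=
    (((Q.continuous.comp T.continuous).tendsto x).comp hl).norm
  have l2 : Tendsto (fun s => M * ‖Q (vec s x)‖) atTop (𝓝 (M * ‖Q x‖)) :=
    (((Q.continuous.tendsto x).comp hl).norm).const_mul M
  exact le_of_tendsto_of_tendsto' l1 l2 hfin

theorem exists_pow_diag {t : ℝ} (ht : 0 ≤ t) :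
    ∃ Q : E2 →L[ℂ] E2, ∀ x m, Q x m = ((((m : ℝ) + 1) ^ (-t) : ℝ) : ℂ) * x m := by
  obtain ⟨Q, hQ, -⟩ := exists_diag (fun n => ((((n : ℝ) + 1) ^ (-t) : ℝ) : ℂ)) zero_le_one (by
      intro n
      rw [Complex.norm_real, Real.norm_of_nonneg (by positivity)]
      apply Real.rpow_le_one_of_one_le_of_nonpos
      · have : (0 : ℝ) ≤ n := by positivity
        linarith
      · linarith)
  exact ⟨Q, hQ⟩

theorem pow_diag_intertwine {β γ : ℝ} (hβ : |β| < 1) (hγ : |γ| < 1) {Q : E2 →L[ℂ] E2}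
    {t : ℝ} (ht : t = (γ - β) / 2)
    (hQ : ∀ x m, Q x m = ((((m : ℝ) + 1) ^ (-t) : ℝ) : ℂ) * x m) (x : E2) :
    Kop β (Q x) = Q (Kop γ x) := by
  apply diag_intertwine hβ hγ hQ
  intro m n
  have := kern_conj_pow β γ m n
  rw [show -(γ - β) / 2 = -t by rw [ht]; ring] at this
  exact_mod_cast this

/-- If `K_α - z` and `K_{-α} - z` are invertible then all intermediate `K_β - z` are bounded below. -/
theorem bounded_below_between {α : ℝ} (h0 : 0 < α) (h1 : α < 1) {z : ℂ}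
    (hp : IsUnit (Kop α - z • (1 : E2 →L[ℂ] E2))) (hm : IsUnit (Kop (-α) - z • (1 : E2 →L[ℂ] E2)))
    {β : ℝ} (hβ : |β| ≤ α) :
    ∃ c : ℝ, 0 < c ∧ ∀ x, c * ‖x‖ ≤ ‖(Kop β - z • (1 : E2 →L[ℂ] E2)) x‖ := by
  obtain ⟨T, hT⟩ := hp
  obtain ⟨S, hS⟩ := hm
  have hα1 : |α| < 1 := by rwa [abs_of_pos h0]
  have hα2 : |-α| < 1 := by rwa [abs_neg]
  have hβ1 : |β| < 1 := lt_of_le_of_lt hβ h1
  obtain ⟨b1, b2⟩ := abs_le.1 hβ
  obtain ⟨B, hB⟩ := exists_pow_diag h0.le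
  have hBK : ∀ x, Kop (-α) (B x) = B (Kop α x) :=
    pow_diag_intertwine hα2 hα1 (by ring) hB
  have hBT : ∀ x, S.val (B x) = B (T.val x) := by
    intro x
    rw [hT, hS, sub_apply, sub_apply, hBK, smul_apply, smul_apply, one_apply_eq_self,
      one_apply_eq_self, map_sub, map_smul]
  have hST : ∀ x, B ((T⁻¹).val x) = (S⁻¹).val (B x) := by
    intro x
    have e1 : S.val (B ((T⁻¹).val x)) = B x := by
      rw [hBT, ← mul_apply_eq_comp T.val, Units.mul_inv, one_apply_eq_self]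
    rw [← e1, ← mul_apply_eq_comp (S⁻¹).val, Units.inv_mul, one_apply_eq_self]
  set M : ℝ := max ‖(T⁻¹).val‖ ‖(S⁻¹).val‖ + 1 with hM
  have hM0 : 0 < M := by
    have : 0 ≤ max ‖(T⁻¹).val‖ ‖(S⁻¹).val‖ := (norm_nonneg _).trans (le_max_left _ _)
    linarith
  obtain ⟨Q, hQ⟩ := exists_pow_diag (t := (α - β) / 2) (by linarith)
  have hQK : ∀ x, Kop β (Q x) = Q (Kop α x) := pow_diag_intertwine hβ1 hα1 rfl hQ
  have hint : ∀ x, ‖Q ((T⁻¹).val x)‖ ≤ M * ‖Q x‖ := by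
    apply interp h0 hB hST (by rw [hM]; linarith [le_max_left ‖(T⁻¹).val‖ ‖(S⁻¹).val‖])
      (by rw [hM]; linarith [le_max_right ‖(T⁻¹).val‖ ‖(S⁻¹).val‖]) (θ := (α - β) / 2)
      (by linarith) (by linarith) hQ
  have hQv : ∀ v, ‖Q v‖ ≤ M * ‖(Kop β - z • (1 : E2 →L[ℂ] E2)) (Q v)‖ := by
    intro v
    have h := hint (T.val v)
    rw [← mul_apply_eq_comp (T⁻¹).val, Units.inv_mul, one_apply_eq_self] at h
    have e : Q (T.val v) = (Kop β - z • (1 : E2 →L[ℂ] E2)) (Q v) := by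
      rw [hT, sub_apply, sub_apply, hQK, smul_apply, smul_apply, one_apply_eq_self,
        one_apply_eq_self, map_sub, map_smul]
    rwa [e] at h
  refine ⟨M⁻¹, by positivity, fun x => ?_⟩
  have hfin : ∀ s : Finset ℕ, M⁻¹ * ‖vec s x‖ ≤ ‖(Kop β - z • (1 : E2 →L[ℂ] E2)) (vec s x)‖ := by
    intro s
    have e : vec s x = Q (vec s (fun n => ((((n : ℝ) + 1) ^ ((α - β) / 2) : ℝ) : ℂ) * x n)) := by
      rw [diag_vec hQ]
      apply vec_congr
      intro n _
      have : ((((n : ℝ) + 1) ^ (-((α - β) / 2)) : ℝ) : ℂ) *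
          ((((n : ℝ) + 1) ^ ((α - β) / 2) : ℝ) : ℂ) = 1 := by
        rw [← Complex.ofReal_mul, ← Real.rpow_add (by positivity)]
        simp
      linear_combination -(x n) * this
    rw [inv_mul_le_iff₀ hM0]
    rw [e]
    exact hQv _
  have hl := tendsto_vec x
  have l1 : Tendsto (fun s => M⁻¹ * ‖vec s x‖) atTop (𝓝 (M⁻¹ * ‖x‖)) := (hl.norm).const_mul _
  have l2 : Tendsto (fun s => ‖(Kop β - z • (1 : E2 →L[ℂ] E2)) (vec s x)‖) atTop
      (𝓝 ‖(Kop β - z • (1 : E2 →L[ℂ] E2)) x‖) :=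
    (((Kop β - z • (1 : E2 →L[ℂ] E2)).continuous.tendsto x).comp hl).norm
  exact le_of_tendsto_of_tendsto' l1 l2 hfin

end Pool.Agent.Lib.MP_b37156_an
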