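import Mathlib

namespace Pool.Agent.Lib.MP_b37156_an

open MeasureTheory Set
open scoped Real ENNReal

/-- the Hilbert space `ℓ²` of complex sequences -/
abbrev E2 : Type := lp (fun _ : ℕ => ℂ) 2

theorem hasSum_norm_sq (x : E2) : HasSum (fun n => ‖x n‖ ^ 2) (‖x‖ ^ 2) := by
  have := lp.hasSum_norm (p := 2) (by norm_num) x
  simpa using this

theorem enorm_sq (x : E2) : ‖x‖ₑ ^ 2 = ∑' n, ‖x n‖ₑ ^ 2 := by
  have h := hasSum_norm_sq x
  have h2 : ENNReal.ofReal (∑' n, ‖x n‖ ^ 2) = ∑' n, ENNReal.ofReal (‖x n‖ ^ 2) :=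
    ENNReal.ofReal_tsum_of_nonneg (fun n => by positivity) h.summable
  rw [h.tsum_eq] at h2
  rw [← ofReal_norm, ← ENNReal.ofReal_pow (norm_nonneg _), h2]
  congr 1
  ext n
  rw [← ofReal_norm, ← ENNReal.ofReal_pow (norm_nonneg _)]

theorem memlp_two_of_enorm {y : ℕ → ℂ} (h : ∑' n, ‖y n‖ₑ ^ 2 ≠ ⊤) : Memℓp y 2 := by
  apply memℓp_gen
  have h2 : Summable fun n => ‖y n‖ ^ 2 := by
    have := ENNReal.summable_toReal h
    refine this.congr fun n => ?_
    rw [ENNReal.toReal_pow, toReal_enorm]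
  simpa using h2

theorem cauchy_schwarz_tsum (f g : ℕ → ℝ≥0∞) :
    (∑' n, f n * g n) ^ 2 ≤ (∑' n, f n ^ 2) * (∑' n, g n ^ 2) := by
  have h1 : ∑' n, f n * g n ≤ (∑' n, f n ^ 2) ^ (1 / 2 : ℝ) * (∑' n, g n ^ 2) ^ (1 / 2 : ℝ) := by
    rw [ENNReal.tsum_eq_iSup_sum]
    apply iSup_le
    intro s
    have hpq : (2 : ℝ).HolderConjugate 2 := Real.HolderConjugate.two_two
    refine (ENNReal.inner_le_Lp_mul_Lq s f g hpq).trans ?_
    gcongr
    · have := ENNReal.sum_le_tsum (f := fun n => f n ^ 2) s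
      simpa using this
    · have := ENNReal.sum_le_tsum (f := fun n => g n ^ 2) s
      simpa using this
  calc (∑' n, f n * g n) ^ 2
      ≤ ((∑' n, f n ^ 2) ^ (1 / 2 : ℝ) * (∑' n, g n ^ 2) ^ (1 / 2 : ℝ)) ^ 2 := by gcongr
    _ = _ := by
        rw [mul_pow, ← ENNReal.rpow_natCast, ← ENNReal.rpow_natCast, ← ENNReal.rpow_mul,
          ← ENNReal.rpow_mul]
        norm_num

/-- Schur data for a nonnegative kernel -/
structure Schur (k : ℕ → ℕ → ℝ) (w : ℕ → ℝ) (A : ℝ) : Prop where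
  k_nonneg : ∀ m n, 0 ≤ k m n
  w_pos : ∀ n, 0 < w n
  A_nonneg : 0 ≤ A
  row : ∀ m, ∑' n, ENNReal.ofReal (k m n * w n) ≤ ENNReal.ofReal (A * w m)
  col : ∀ n, ∑' m, ENNReal.ofReal (k m n * w m) ≤ ENNReal.ofReal (A * w n)

theorem Schur.bound {k : ℕ → ℕ → ℝ} {w : ℕ → ℝ} {A : ℝ} (h : Schur k w A) (x : ℕ → ℂ) :
    ∑' m, (∑' n, ENNReal.ofReal (k m n) * ‖x n‖ₑ) ^ 2 ≤
      ENNReal.ofReal (A ^ 2) * ∑' n, ‖x n‖ₑ ^ 2 := by
  have h1 : ∀ m, (∑' n, ENNReal.ofReal (k m n) * ‖x n‖ₑ) ^ 2 ≤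
      ENNReal.ofReal (A * w m) * ∑' n, ENNReal.ofReal (k m n / w n) * ‖x n‖ₑ ^ 2 := by
    intro m
    have e : ∀ n, ENNReal.ofReal (k m n) * ‖x n‖ₑ = ENNReal.ofReal (Real.sqrt (k m n * w n)) *
        (ENNReal.ofReal (Real.sqrt (k m n / w n)) * ‖x n‖ₑ) := by
      intro n
      have hk := h.k_nonneg m n
      have hw := h.w_pos n
      rw [← mul_assoc, ← ENNReal.ofReal_mul (Real.sqrt_nonneg _), ← Real.sqrt_mul (by positivity)]
      congr 2
      rw [show k m n * w n * (k m n / w n) = (k m n) ^ 2 by field_simp, Real.sqrt_sq hk]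
    calc (∑' n, ENNReal.ofReal (k m n) * ‖x n‖ₑ) ^ 2
        = (∑' n, ENNReal.ofReal (Real.sqrt (k m n * w n)) *
        (ENNReal.ofReal (Real.sqrt (k m n / w n)) * ‖x n‖ₑ)) ^ 2 := by
          congr 2; ext n; exact e n
      _ ≤ (∑' n, ENNReal.ofReal (Real.sqrt (k m n * w n)) ^ 2) *
          ∑' n, (ENNReal.ofReal (Real.sqrt (k m n / w n)) * ‖x n‖ₑ) ^ 2 :=
          cauchy_schwarz_tsum _ _
      _ ≤ _ := by
          gcongr
          · calc (∑' n, ENNReal.ofReal (Real.sqrt (k m n * w n)) ^ 2)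
                = ∑' n, ENNReal.ofReal (k m n * w n) := by
                  congr 1; ext n
                  have hk := h.k_nonneg m n
                  have hw := h.w_pos n
                  rw [← ENNReal.ofReal_pow (Real.sqrt_nonneg _), Real.sq_sqrt (by positivity)]
              _ ≤ _ := h.row m
          · have hk := h.k_nonneg m n
            have hw := h.w_pos n
            rw [mul_pow, ← ENNReal.ofReal_pow (Real.sqrt_nonneg _), Real.sq_sqrt (by positivity)]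
  calc ∑' m, (∑' n, ENNReal.ofReal (k m n) * ‖x n‖ₑ) ^ 2
      ≤ ∑' m, ENNReal.ofReal (A * w m) * ∑' n, ENNReal.ofReal (k m n / w n) * ‖x n‖ₑ ^ 2 :=
        ENNReal.tsum_le_tsum h1
    _ = ∑' m, ∑' n, ENNReal.ofReal (A * w m) * (ENNReal.ofReal (k m n / w n) * ‖x n‖ₑ ^ 2) := by
        congr 1; ext m; rw [ENNReal.tsum_mul_left]
    _ = ∑' n, ∑' m, ENNReal.ofReal (A * w m) * (ENNReal.ofReal (k m n / w n) * ‖x n‖ₑ ^ 2) :=
        ENNReal.tsum_comm
    _ = ∑' n, (∑' m, ENNReal.ofReal (k m n * w m)) * (ENNReal.ofReal (A / w n) * ‖x n‖ₑ ^ 2) := by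
        congr 1; ext n
        rw [← ENNReal.tsum_mul_right]
        congr 1; ext m
        have hk := h.k_nonneg m n
        have hw := h.w_pos n
        have hw' := h.w_pos m
        have hA := h.A_nonneg
        rw [← mul_assoc, ← mul_assoc, ← ENNReal.ofReal_mul (by positivity),
          ← ENNReal.ofReal_mul (by positivity)]
        congr 2
        ring
    _ ≤ ∑' n, ENNReal.ofReal (A * w n) * (ENNReal.ofReal (A / w n) * ‖x n‖ₑ ^ 2) := by
        apply ENNReal.tsum_le_tsum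
        intro n
        gcongr
        exact h.col n
    _ = _ := by
        rw [← ENNReal.tsum_mul_left]
        congr 1; ext n
        have hw := h.w_pos n
        have hA := h.A_nonneg
        rw [← mul_assoc, ← ENNReal.ofReal_mul (by positivity)]
        congr 2
        field_simp

/-- Schur test: a complex kernel dominated by a Schur kernel defines a bounded operator. -/
theorem Schur.exists_op {k : ℕ → ℕ → ℝ} {w : ℕ → ℝ} {A : ℝ} (h : Schur k w A)
    (c : ℕ → ℕ → ℂ) (hc : ∀ m n, ‖c m n‖ ≤ k m n) :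
    ∃ T : E2 →L[ℂ] E2, (∀ x m, HasSum (fun n => c m n * x n) (T x m)) ∧ ‖T‖ ≤ A := by
  have hce : ∀ m n, ‖c m n‖ₑ ≤ ENNReal.ofReal (k m n) := by
    intro m n
    rw [← ofReal_norm]
    exact ENNReal.ofReal_le_ofReal (hc m n)
  have hrow : ∀ (x : E2) (m : ℕ), ∑' n, ‖c m n * x n‖ₑ ≠ ⊤ := by
    intro x m
    have h1 : ∑' n, ‖c m n * x n‖ₑ ≤ ∑' n, ENNReal.ofReal (k m n) * ‖x n‖ₑ := by
      apply ENNReal.tsum_le_tsum
      intro n
      rw [enorm_mul]
      gcongr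
      exact hce m n
    have h2 := h.bound x
    rw [← enorm_sq] at h2
    have h3 : (∑' n, ENNReal.ofReal (k m n) * ‖x n‖ₑ) ^ 2 ≠ ⊤ := by
      apply ne_top_of_le_ne_top (b := ENNReal.ofReal (A ^ 2) * ‖x‖ₑ ^ 2)
      · exact ENNReal.mul_ne_top ENNReal.ofReal_ne_top (by simp)
      · exact (ENNReal.le_tsum (f := fun m => (∑' n, ENNReal.ofReal (k m n) * ‖x n‖ₑ) ^ 2)
          m).trans h2
    have h4 : (∑' n, ENNReal.ofReal (k m n) * ‖x n‖ₑ) ≠ ⊤ := by
      intro h5; rw [h5] at h3; simp at h3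
    exact ne_top_of_le_ne_top h4 h1
  have hsum : ∀ (x : E2) (m : ℕ), Summable (fun n => c m n * x n) := by
    intro x m
    apply Summable.of_norm
    have := ENNReal.summable_toReal (hrow x m)
    simpa using this
  have hb : ∀ (x : E2), ∑' m, ‖∑' n, c m n * x n‖ₑ ^ 2 ≤ ENNReal.ofReal (A ^ 2) * ‖x‖ₑ ^ 2 := by
    intro x
    have h2 := h.bound x
    rw [← enorm_sq] at h2
    refine le_trans ?_ h2
    apply ENNReal.tsum_le_tsum
    intro m
    gcongr
    refine (enorm_tsum_le_tsum_enorm).trans ?_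
    apply ENNReal.tsum_le_tsum
    intro n
    rw [enorm_mul]
    gcongr
    exact hce m n
  have hmem : ∀ x : E2, Memℓp (fun m => ∑' n, c m n * x n) 2 := by
    intro x
    apply memlp_two_of_enorm
    exact ne_top_of_le_ne_top (ENNReal.mul_ne_top ENNReal.ofReal_ne_top (by simp)) (hb x)
  let L : E2 →ₗ[ℂ] E2 :=
    { toFun := fun x => ⟨fun m => ∑' n, c m n * x n, hmem x⟩
      map_add' := by
        intro x y
        apply Subtype.ext
        funext m
        show ∑' n, c m n * (x + y) n = ∑' n, c m n * x n + ∑' n, c m n * y n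
        rw [← (hsum x m).tsum_add (hsum y m)]
        congr 1; ext n
        rw [lp.coeFn_add, Pi.add_apply]; ring
      map_smul' := by
        intro a x
        apply Subtype.ext
        funext m
        show ∑' n, c m n * (a • x) n = a * ∑' n, c m n * x n
        rw [← tsum_mul_left]
        congr 1; ext n
        rw [lp.coeFn_smul, Pi.smul_apply, smul_eq_mul]; ring }
  have hL : ∀ x, ‖L x‖ ≤ A * ‖x‖ := by
    intro x
    have h1 : ‖L x‖ₑ ^ 2 ≤ ENNReal.ofReal (A ^ 2) * ‖x‖ₑ ^ 2 := by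
      rw [enorm_sq]
      exact hb x
    have h2 : ‖L x‖ₑ ^ 2 = ENNReal.ofReal (‖L x‖ ^ 2) := by
      rw [← ofReal_norm, ← ENNReal.ofReal_pow (norm_nonneg _)]
    have h3 : ENNReal.ofReal (A ^ 2) * ‖x‖ₑ ^ 2 = ENNReal.ofReal ((A * ‖x‖) ^ 2) := by
      rw [← ofReal_norm, ← ENNReal.ofReal_pow (norm_nonneg _),
        ← ENNReal.ofReal_mul (by positivity), mul_pow]
    rw [h2, h3, ENNReal.ofReal_le_ofReal_iff (by positivity)] at h1
    exact (pow_le_pow_iff_left₀ (norm_nonneg _) (mul_nonneg h.A_nonneg (norm_nonneg _))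
      two_ne_zero).1 h1
  refine ⟨L.mkContinuous A hL, ?_, LinearMap.mkContinuous_norm_le _ h.A_nonneg _⟩
  intro x m
  exact (hsum x m).hasSum

end Pool.Agent.Lib.MP_b37156_an
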