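import Pool.Agent.Lib.MP_b37156_an.Stieltjes2
import Pool.Agent.Lib.MP_b37156_an.Schur

namespace Pool.Agent.Lib.MP_b37156_an

open MeasureTheory Set
open scoped Real ENNReal

/-- the conjugated Hilbert kernel -/
noncomputable def kern (β : ℝ) (m n : ℕ) : ℝ :=
  (((m : ℝ) + 1) / ((n : ℝ) + 1)) ^ (β / 2) / ((m : ℝ) + n + 1)

theorem kern_pos (β : ℝ) (m n : ℕ) : 0 < kern β m n := by
  unfold kern; positivity

theorem kern_symm (β : ℝ) (m n : ℕ) : kern (-β) m n = kern β n m := by
  unfold kern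
  have e : (((m : ℝ) + 1) / ((n : ℝ) + 1)) ^ (-β / 2) = (((n : ℝ) + 1) / ((m : ℝ) + 1)) ^ (β / 2) := by
    rw [show -β / 2 = -(β / 2) by ring, Real.rpow_neg (by positivity), ← Real.inv_rpow (by positivity),
      inv_div]
  rw [e]
  congr 1
  ring

theorem row_kern {β : ℝ} (hβ : |β| < 1) (m : ℕ) :
    ∑' n, ENNReal.ofReal (kern β m n * ((n : ℝ) + 1) ^ (-(1 / 2) : ℝ)) ≤
      ENNReal.ofReal (2 * (π / Real.cos (π * β / 2)) * ((m : ℝ) + 1) ^ (-(1 / 2) : ℝ)) := by
  obtain ⟨h1, h2⟩ := abs_lt.1 hβ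
  have hr := rowsum (σ := (1 + β) / 2) (by linarith) (by linarith) m
  have hs : Real.sin (π * ((1 + β) / 2)) = Real.cos (π * β / 2) := by
    rw [show π * ((1 + β) / 2) = π * β / 2 + π / 2 by ring, Real.sin_add_pi_div_two]
  rw [hs] at hr
  have e1 : ∀ n : ℕ, ENNReal.ofReal (kern β m n * ((n : ℝ) + 1) ^ (-(1 / 2) : ℝ))
      = ENNReal.ofReal (((m : ℝ) + 1) ^ (β / 2)) *
        ENNReal.ofReal (((n : ℝ) + 1) ^ (-((1 + β) / 2)) / (m + n + 1)) := by
    intro n
    rw [← ENNReal.ofReal_mul (by positivity)]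
    congr 1
    unfold kern
    rw [Real.div_rpow (by positivity) (by positivity),
      show -((1 + β) / 2) = -(1 / 2) - β / 2 by ring, Real.rpow_sub (by positivity)]
    ring
  calc ∑' n, ENNReal.ofReal (kern β m n * ((n : ℝ) + 1) ^ (-(1 / 2) : ℝ))
      = ENNReal.ofReal (((m : ℝ) + 1) ^ (β / 2)) *
        ∑' n : ℕ, ENNReal.ofReal (((n : ℝ) + 1) ^ (-((1 + β) / 2)) / (m + n + 1)) := by
        rw [← ENNReal.tsum_mul_left]
        congr 1; ext n; exact e1 n
    _ ≤ ENNReal.ofReal (((m : ℝ) + 1) ^ (β / 2)) *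
        ENNReal.ofReal (2 * (π / Real.cos (π * β / 2)) * ((m : ℝ) + 1) ^ (-((1 + β) / 2))) := by
        gcongr
    _ = _ := by
        rw [← ENNReal.ofReal_mul (by positivity)]
        congr 1
        have : ((m : ℝ) + 1) ^ (-(1 / 2) : ℝ) = ((m : ℝ) + 1) ^ (β / 2) *
            ((m : ℝ) + 1) ^ (-((1 + β) / 2)) := by
          rw [← Real.rpow_add (by positivity)]; congr 1; ring
        rw [this]; ring

theorem schur_kern {β : ℝ} (hβ : |β| < 1) :
    Schur (kern β) (fun n => ((n : ℝ) + 1) ^ (-(1 / 2) : ℝ)) (2 * (π / Real.cos (π * β / 2))) where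
  k_nonneg := fun m n => (kern_pos β m n).le
  w_pos := fun n => by positivity
  A_nonneg := by
    obtain ⟨h1, h2⟩ := abs_lt.1 hβ
    have : 0 < Real.cos (π * β / 2) := by
      apply Real.cos_pos_of_mem_Ioo
      constructor
      · nlinarith [Real.pi_pos]
      · nlinarith [Real.pi_pos]
    positivity
  row := row_kern hβ
  col := by
    intro n
    have := row_kern (β := -β) (by rwa [abs_neg]) n
    simp only [kern_symm] at this
    have e : Real.cos (π * -β / 2) = Real.cos (π * β / 2) := by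
      rw [show π * -β / 2 = -(π * β / 2) by ring, Real.cos_neg]
    rw [e] at this
    exact this

theorem Schur.add {k k' : ℕ → ℕ → ℝ} {w : ℕ → ℝ} {A A' : ℝ} (h : Schur k w A) (h' : Schur k' w A') :
    Schur (fun m n => k m n + k' m n) w (A + A') where
  k_nonneg := fun m n => add_nonneg (h.k_nonneg m n) (h'.k_nonneg m n)
  w_pos := h.w_pos
  A_nonneg := add_nonneg h.A_nonneg h'.A_nonneg
  row := by
    intro m
    have e : ∀ n, ENNReal.ofReal ((k m n + k' m n) * w n) =
        ENNReal.ofReal (k m n * w n) + ENNReal.ofReal (k' m n * w n) := by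
      intro n
      rw [add_mul, ENNReal.ofReal_add (mul_nonneg (h.k_nonneg m n) (h.w_pos n).le)
        (mul_nonneg (h'.k_nonneg m n) (h.w_pos n).le)]
    simp only [e]
    rw [ENNReal.tsum_add, add_mul, ENNReal.ofReal_add (mul_nonneg h.A_nonneg (h.w_pos m).le)
        (mul_nonneg h'.A_nonneg (h.w_pos m).le)]
    exact add_le_add (h.row m) (h'.row m)
  col := by
    intro n
    have e : ∀ m, ENNReal.ofReal ((k m n + k' m n) * w m) =
        ENNReal.ofReal (k m n * w m) + ENNReal.ofReal (k' m n * w m) := by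
      intro m
      rw [add_mul, ENNReal.ofReal_add (mul_nonneg (h.k_nonneg m n) (h.w_pos m).le)
        (mul_nonneg (h'.k_nonneg m n) (h.w_pos m).le)]
    simp only [e]
    rw [ENNReal.tsum_add, add_mul, ENNReal.ofReal_add (mul_nonneg h.A_nonneg (h.w_pos n).le)
        (mul_nonneg h'.A_nonneg (h.w_pos n).le)]
    exact add_le_add (h.col n) (h'.col n)

theorem Schur.smul {k : ℕ → ℕ → ℝ} {w : ℕ → ℝ} {A c : ℝ} (hc : 0 ≤ c) (h : Schur k w A) :
    Schur (fun m n => c * k m n) w (c * A) where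
  k_nonneg := fun m n => mul_nonneg hc (h.k_nonneg m n)
  w_pos := h.w_pos
  A_nonneg := mul_nonneg hc h.A_nonneg
  row := by
    intro m
    have e : ∀ n, ENNReal.ofReal ((c * k m n) * w n) =
        ENNReal.ofReal c * ENNReal.ofReal (k m n * w n) := by
      intro n
      rw [mul_assoc, ENNReal.ofReal_mul hc]
    simp only [e]
    rw [ENNReal.tsum_mul_left, mul_assoc, ENNReal.ofReal_mul hc]
    gcongr
    exact h.row m
  col := by
    intro n
    have e : ∀ m, ENNReal.ofReal ((c * k m n) * w m) =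
        ENNReal.ofReal c * ENNReal.ofReal (k m n * w m) := by
      intro m
      rw [mul_assoc, ENNReal.ofReal_mul hc]
    simp only [e]
    rw [ENNReal.tsum_mul_left, mul_assoc, ENNReal.ofReal_mul hc]
    gcongr
    exact h.col n

theorem exists_Kop {β : ℝ} (hβ : |β| < 1) :
    ∃ T : E2 →L[ℂ] E2, (∀ x m, HasSum (fun n => (kern β m n : ℂ) * x n) (T x m)) := by
  obtain ⟨T, hT, -⟩ := (schur_kern hβ).exists_op (fun m n => (kern β m n : ℂ))
    (fun m n => by rw [Complex.norm_real, Real.norm_of_nonneg (kern_pos β m n).le])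
  exact ⟨T, hT⟩

/-- The operator with matrix `kern β`, for `|β| < 1`. -/
noncomputable def Kop (β : ℝ) : E2 →L[ℂ] E2 :=
  open Classical in if h : |β| < 1 then Classical.choose (exists_Kop h) else 0

theorem Kop_spec {β : ℝ} (hβ : |β| < 1) (x : E2) (m : ℕ) :
    HasSum (fun n => (kern β m n : ℂ) * x n) (Kop β x m) := by
  have : Kop β = Classical.choose (exists_Kop hβ) := by
    unfold Kop; rw [dif_pos hβ]
  rw [this]
  exact Classical.choose_spec (exists_Kop hβ) x m

/-- domination for norm continuity -/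
theorem rpow_diff_bound {r β γ b b' : ℝ} (hr : 0 < r) (hβ : |β| ≤ b) (hγ : |γ| ≤ b) (hb : b < b') :
    |r ^ (β / 2) - r ^ (γ / 2)| ≤ |β - γ| / (b' - b) * (r ^ (b' / 2) + r ^ (-b' / 2)) := by
  set t := Real.log r with ht
  have e : ∀ s : ℝ, r ^ s = Real.exp (t * s) := fun s => Real.rpow_def_of_pos hr s
  rw [e, e, e, e]
  have hd : 0 < b' - b := by linarith
  -- mean value bound
  have h1 : |Real.exp (t * (β / 2)) - Real.exp (t * (γ / 2))| ≤
      Real.exp (|t| * (b / 2)) * |t * (β / 2) - t * (γ / 2)| := by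
    have hle : ∀ x y : ℝ, x ≤ y → |Real.exp y - Real.exp x| ≤ Real.exp y * |y - x| := by
      intro x y hxy
      have h0 := Real.add_one_le_exp (x - y)
      have h2 : Real.exp x = Real.exp y * Real.exp (x - y) := by
        rw [← Real.exp_add]; congr 1; ring
      have h3 : Real.exp x ≤ Real.exp y := Real.exp_le_exp.2 hxy
      rw [abs_of_nonneg (by linarith), abs_of_nonneg (by linarith)]
      rw [h2]
      have := Real.exp_pos y
      nlinarith
    have hmax : ∀ s : ℝ, |s| ≤ b → Real.exp (t * (s / 2)) ≤ Real.exp (|t| * (b / 2)) := by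
      intro s hs
      apply Real.exp_le_exp.2
      calc t * (s / 2) ≤ |t * (s / 2)| := le_abs_self _
        _ = |t| * (|s| / 2) := by rw [abs_mul, abs_div, abs_two]
        _ ≤ _ := by gcongr
    rcases le_total (t * (γ / 2)) (t * (β / 2)) with h | h
    · refine (hle _ _ h).trans ?_
      exact mul_le_mul_of_nonneg_right (hmax β hβ) (abs_nonneg _)
    · rw [abs_sub_comm, abs_sub_comm (t * (β / 2))]
      refine (hle _ _ h).trans ?_
      exact mul_le_mul_of_nonneg_right (hmax γ hγ) (abs_nonneg _)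
  have h2 : |t * (β / 2) - t * (γ / 2)| = |β - γ| * (|t| / 2) := by
    rw [show t * (β / 2) - t * (γ / 2) = (β - γ) * (t / 2) by ring, abs_mul, abs_div, abs_two]
  have h3 : |t| / 2 ≤ Real.exp (|t| * ((b' - b) / 2)) / (b' - b) := by
    rw [le_div_iff₀ hd]
    have := Real.add_one_le_exp (|t| * ((b' - b) / 2))
    nlinarith
  have h4 : Real.exp (|t| * (b / 2)) * Real.exp (|t| * ((b' - b) / 2)) = Real.exp (|t| * (b' / 2)) := by
    rw [← Real.exp_add]; congr 1; ring
  have h5 : Real.exp (|t| * (b' / 2)) ≤ Real.exp (t * (b' / 2)) + Real.exp (t * (-b' / 2)) := by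
    rcases abs_cases t with ⟨h, _⟩ | ⟨h, _⟩
    · rw [h]; linarith [Real.exp_pos (t * (-b' / 2))]
    · rw [h, show -t * (b' / 2) = t * (-b' / 2) by ring]; linarith [Real.exp_pos (t * (b' / 2))]
  calc |Real.exp (t * (β / 2)) - Real.exp (t * (γ / 2))|
      ≤ Real.exp (|t| * (b / 2)) * (|β - γ| * (|t| / 2)) := by rw [← h2]; exact h1
    _ ≤ Real.exp (|t| * (b / 2)) * (|β - γ| * (Real.exp (|t| * ((b' - b) / 2)) / (b' - b))) := by
        gcongr
    _ = |β - γ| / (b' - b) * (Real.exp (|t| * (b / 2)) * Real.exp (|t| * ((b' - b) / 2))) := by ring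
    _ = |β - γ| / (b' - b) * Real.exp (|t| * (b' / 2)) := by rw [h4]
    _ ≤ _ := by gcongr

theorem norm_Kop_sub {β γ b b' : ℝ} (hβ : |β| ≤ b) (hγ : |γ| ≤ b) (hb : b < b') (hb' : b' < 1) :
    ‖Kop β - Kop γ‖ ≤ |β - γ| / (b' - b) * (4 * (π / Real.cos (π * b' / 2))) := by
  have hb0 : 0 ≤ b := (abs_nonneg β).trans hβ
  have h1 : |b'| < 1 := by rw [abs_of_pos (by linarith)]; exact hb'
  have h2 : |-b'| < 1 := by rwa [abs_neg]
  have hS := ((schur_kern h1).add (schur_kern h2)).smul (c := |β - γ| / (b' - b))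
    (div_nonneg (abs_nonneg _) (by linarith))
  have hcos : Real.cos (π * -b' / 2) = Real.cos (π * b' / 2) := by
    rw [show π * -b' / 2 = -(π * b' / 2) by ring, Real.cos_neg]
  obtain ⟨T, hT, hTn⟩ := hS.exists_op (fun m n => (kern β m n : ℂ) - (kern γ m n : ℂ)) (by
    intro m n
    rw [← Complex.ofReal_sub, Complex.norm_real, Real.norm_eq_abs]
    unfold kern
    have := rpow_diff_bound (r := ((m : ℝ) + 1) / ((n : ℝ) + 1)) (by positivity) hβ hγ hb
    rw [← sub_div, abs_div, abs_of_pos (by positivity : (0 : ℝ) < (m : ℝ) + n + 1), ← add_div,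
      ← mul_div_assoc]
    gcongr)
  have hβ1 : |β| < 1 := by linarith
  have hγ1 : |γ| < 1 := by linarith
  have : Kop β - Kop γ = T := by
    ext x m
    have h3 := (Kop_spec hβ1 x m).sub (Kop_spec hγ1 x m)
    have h4 := hT x m
    have h5 : (fun n => (kern β m n : ℂ) * x n - (kern γ m n : ℂ) * x n)
      = fun n => ((kern β m n : ℂ) - (kern γ m n : ℂ)) * x n := by
      ext n; ring
    rw [h5] at h3
    exact h3.unique h4
  rw [this]
  refine hTn.trans (le_of_eq ?_)
  rw [hcos]; ring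

theorem continuousOn_Kop : ContinuousOn Kop (Ioo (-1 : ℝ) 1) := by
  intro β hβ
  apply ContinuousAt.continuousWithinAt
  have h1 : |β| < 1 := abs_lt.2 hβ
  set b := (1 + |β|) / 2 with hb
  set b' := (1 + b) / 2 with hb'
  have h2 : |β| < b := by rw [hb]; linarith
  have h3 : b < b' := by rw [hb']; linarith
  have h4 : b' < 1 := by rw [hb']; linarith
  rw [Metric.continuousAt_iff']
  intro ε hε
  have hc : Filter.Tendsto (fun γ : ℝ => |γ - β| / (b' - b) * (4 * (π / Real.cos (π * b' / 2))))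
      (nhds β) (nhds (|β - β| / (b' - b) * (4 * (π / Real.cos (π * b' / 2))))) := by
    apply Continuous.tendsto
    fun_prop
  rw [sub_self, abs_zero, zero_div, zero_mul] at hc
  have h5 := hc.eventually (gt_mem_nhds hε)
  have h6 : ∀ᶠ γ : ℝ in nhds β, |γ| < b := by
    have : Continuous fun γ : ℝ => |γ| := continuous_abs
    exact this.continuousAt.eventually (gt_mem_nhds h2)
  filter_upwards [h5, h6] with γ h7 h8
  rw [dist_eq_norm]
  exact lt_of_le_of_lt (norm_Kop_sub h8.le h2.le h3 h4) h7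

/-- coordinates: basis vectors -/
noncomputable def bv (n : ℕ) : E2 := lp.single 2 n (1 : ℂ)

theorem bv_apply (n m : ℕ) : (bv n) m = if m = n then 1 else 0 := by
  unfold bv
  rw [lp.single_apply]
  split_ifs with h
  · subst h; simp
  · simp [h]

theorem hasSum_bv (x : E2) : HasSum (fun n => x n • bv n) x := by
  have := lp.hasSum_single (p := 2) (by norm_num) x
  convert this using 1
  ext1 n
  unfold bv
  rw [← lp.single_smul, smul_eq_mul, mul_one]

theorem ext_bv {S T : E2 →L[ℂ] E2} (h : ∀ n, S (bv n) = T (bv n)) : S = T := by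
  ext1 x
  have h1 := (hasSum_bv x).mapL S
  have h2 := (hasSum_bv x).mapL T
  have h3 : (fun n => S (x n • bv n)) = fun n => T (x n • bv n) := by
    ext1 n; rw [map_smul, map_smul, h]
  rw [h3] at h1
  exact h1.unique h2

theorem Kop_bv {β : ℝ} (hβ : |β| < 1) (n m : ℕ) : Kop β (bv n) m = kern β m n := by
  have h := Kop_spec hβ (bv n) m
  have h2 : HasSum (fun k => (kern β m k : ℂ) * bv n k) (kern β m n) := by
    have := hasSum_ite_eq n ((kern β m n : ℂ))
    refine this.congr_fun ?_ |> fun h => h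
    intro k
    rw [bv_apply]
    split_ifs with h
    · subst h; simp
    · simp
  exact h.unique h2

end Pool.Agent.Lib.MP_b37156_an
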