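import Pool.Agent.Lib.MP_b37156_an.Kop

namespace Pool.Agent.Lib.MP_b37156_an

open MeasureTheory Set
open scoped Real ENNReal InnerProductSpace ComplexConjugate

/-- diagonal operators -/
theorem exists_diag (q : ℕ → ℂ) {C : ℝ} (hC : 0 ≤ C) (h : ∀ n, ‖q n‖ ≤ C) :
    ∃ T : E2 →L[ℂ] E2, (∀ x m, T x m = q m * x m) ∧ ‖T‖ ≤ C := by
  have hS : Schur (fun m n => if m = n then C else 0) (fun _ => 1) C :=
    { k_nonneg := fun m n => by split_ifs <;> simp [hC]
      w_pos := fun _ => one_pos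
      A_nonneg := hC
      row := fun m => by
        have : ∀ n, ENNReal.ofReal ((if m = n then C else 0) * 1) =
            if n = m then ENNReal.ofReal C else 0 := by
          intro n
          by_cases hn : n = m
          · subst hn; simp
          · rw [if_neg hn, if_neg (Ne.symm hn)]; simp
        rw [tsum_congr this, tsum_ite_eq, mul_one]
      col := fun n => by
        have : ∀ m, ENNReal.ofReal ((if m = n then C else 0) * 1) =
            if m = n then ENNReal.ofReal C else 0 := by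
          intro m
          by_cases hn : m = n
          · subst hn; simp
          · rw [if_neg hn, if_neg hn]; simp
        rw [tsum_congr this, tsum_ite_eq, mul_one] }
  obtain ⟨T, hT, hTn⟩ := hS.exists_op (fun m n => if m = n then q m else 0) (by
    intro m n
    by_cases hn : m = n
    · rw [if_pos hn, if_pos hn]; exact h m
    · rw [if_neg hn, if_neg hn]; simp)
  refine ⟨T, fun x m => ?_, hTn⟩
  have h1 := hT x m
  have h2 : HasSum (fun n => (if m = n then q m else 0) * x n) (q m * x m) := by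
    have := hasSum_ite_eq m (q m * x m)
    refine this.congr_fun ?_
    intro n
    by_cases hn : n = m
    · subst hn; simp
    · rw [if_neg hn, if_neg (Ne.symm hn)]; simp
  exact h1.unique h2

/-- intertwining of the `Kop`s by diagonal operators -/
theorem diag_intertwine {β γ : ℝ} (hβ : |β| < 1) (hγ : |γ| < 1) {Q : E2 →L[ℂ] E2} {q : ℕ → ℂ}
    (hQ : ∀ x m, Q x m = q m * x m)
    (hq : ∀ m n, (kern β m n : ℂ) * q n = q m * (kern γ m n : ℂ)) (x : E2) :
    Kop β (Q x) = Q (Kop γ x) := by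
  ext m
  have h1 := Kop_spec hβ (Q x) m
  have h2 := (Kop_spec hγ x m).mul_left (q m)
  rw [hQ]
  refine h1.unique ?_
  have e : (fun n => (kern β m n : ℂ) * Q x n) = fun n => q m * ((kern γ m n : ℂ) * x n) := by
    funext n
    rw [hQ, ← mul_assoc, hq, mul_assoc]
  rw [e]
  exact h2

theorem inner_bv_left (m : ℕ) (x : E2) : ⟪bv m, x⟫_ℂ = x m := by
  unfold bv
  rw [lp.inner_single_left]
  simp

theorem inner_bv_right (m : ℕ) (x : E2) : ⟪x, bv m⟫_ℂ = conj (x m) := by
  unfold bv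
  rw [lp.inner_single_right]
  simp

theorem Kop_adjoint {β : ℝ} (hβ : |β| < 1) :
    ContinuousLinearMap.adjoint (Kop β) = Kop (-β) := by
  apply ext_bv
  intro n
  ext m
  rw [← inner_bv_left m, ContinuousLinearMap.adjoint_inner_right, inner_bv_right, Kop_bv hβ,
    Kop_bv (by rwa [abs_neg]), Complex.conj_ofReal, kern_symm]

theorem kern_zero (m n : ℕ) : kern 0 m n = 1 / ((m : ℝ) + n + 1) := by
  unfold kern; simp

theorem finset_pos (s : Finset ℕ) (x : ℕ → ℂ) :
    0 ≤ (∑ m ∈ s, ∑ n ∈ s, conj (x m) * (x n) * (kern 0 n m : ℂ)).re := by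
  have e : ∑ m ∈ s, ∑ n ∈ s, conj (x m) * (x n) * (kern 0 n m : ℂ) =
      ∫ t in (0 : ℝ)..1, conj (∑ m ∈ s, x m * (t : ℂ) ^ m) * (∑ n ∈ s, x n * (t : ℂ) ^ n) := by
    have h1 : ∀ t : ℝ, conj (∑ m ∈ s, x m * (t : ℂ) ^ m) * (∑ n ∈ s, x n * (t : ℂ) ^ n) =
        ∑ m ∈ s, ∑ n ∈ s, (conj (x m) * (x n)) * ((t : ℂ) ^ (n + m)) := by
      intro t
      rw [map_sum, Finset.sum_mul_sum]
      apply Finset.sum_congr rfl; intro m _
      apply Finset.sum_congr rfl; intro n _
      rw [map_mul, map_pow, Complex.conj_ofReal]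
      ring
    simp only [h1]
    rw [intervalIntegral.integral_finsetSum (fun m _ => by
      apply Continuous.intervalIntegrable; fun_prop)]
    apply Finset.sum_congr rfl; intro m _
    rw [intervalIntegral.integral_finsetSum (fun n _ => by
      apply Continuous.intervalIntegrable; fun_prop)]
    apply Finset.sum_congr rfl; intro n _
    rw [intervalIntegral.integral_const_mul]
    congr 1
    have h2 : ∫ t in (0 : ℝ)..1, (t : ℂ) ^ (n + m) = ((∫ t in (0 : ℝ)..1, t ^ (n + m) : ℝ) : ℂ) := by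
      rw [← intervalIntegral.integral_ofReal]
      congr 1; ext t; push_cast; rfl
    rw [h2, integral_pow, kern_zero]
    push_cast
    simp
  rw [e]
  have h3 : ∀ t : ℝ, conj (∑ m ∈ s, x m * (t : ℂ) ^ m) * (∑ n ∈ s, x n * (t : ℂ) ^ n) =
      ((Complex.normSq (∑ n ∈ s, x n * (t : ℂ) ^ n) : ℝ) : ℂ) := by
    intro t
    rw [Complex.normSq_eq_conj_mul_self]
  simp only [h3]
  rw [intervalIntegral.integral_ofReal, Complex.ofReal_re]
  apply intervalIntegral.integral_nonneg (by norm_num)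
  intro t _
  exact Complex.normSq_nonneg _

theorem Kop_zero_nonneg (x : E2) : 0 ≤ (⟪x, Kop 0 x⟫_ℂ).re := by
  have h0 : |(0 : ℝ)| < 1 := by simp
  have hx := hasSum_bv x
  have hc : Continuous fun y : E2 => (⟪y, Kop 0 y⟫_ℂ).re := by fun_prop
  have ht := (hc.tendsto x).comp hx
  apply ge_of_tendsto' ht
  intro s
  simp only [Function.comp]
  have e : ⟪∑ n ∈ s, x n • bv n, Kop 0 (∑ n ∈ s, x n • bv n)⟫_ℂ =
      ∑ m ∈ s, ∑ n ∈ s, conj (x m) * (x n) * (kern 0 n m : ℂ) := by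
    rw [map_sum, sum_inner]
    apply Finset.sum_congr rfl; intro m _
    rw [inner_sum]
    apply Finset.sum_congr rfl; intro n _
    rw [map_smul, inner_smul_left, inner_smul_right, inner_bv_left, Kop_bv h0]
    have : kern 0 m n = kern 0 n m := by
      have := kern_symm 0 m n
      rwa [neg_zero] at this
    rw [this]
    ring
  rw [e]
  exact finset_pos s x

theorem Kop_zero_norm : ‖Kop 0‖ ≤ π := by
  have h0 : |(0 : ℝ)| < 1 := by simp
  have hrow : ∀ m : ℕ, ∑' n, ENNReal.ofReal (kern 0 m n * ((n : ℝ) + 1 / 2) ^ (-(1 / 2) : ℝ)) ≤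
      ENNReal.ofReal (π * ((m : ℝ) + 1 / 2) ^ (-(1 / 2) : ℝ)) := by
    intro m
    refine le_trans (le_of_eq ?_) (rowsum_half m)
    congr 1; ext n
    congr 1
    rw [kern_zero]; ring
  have hS : Schur (kern 0) (fun n => ((n : ℝ) + 1 / 2) ^ (-(1 / 2) : ℝ)) π :=
    { k_nonneg := fun m n => (kern_pos 0 m n).le
      w_pos := fun n => by positivity
      A_nonneg := Real.pi_pos.le
      row := hrow
      col := by
        intro n
        refine le_trans (le_of_eq ?_) (hrow n)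
        congr 1; ext m
        congr 2
        have := kern_symm 0 m n
        rwa [neg_zero] at this }
  obtain ⟨T, hT, hTn⟩ := hS.exists_op (fun m n => (kern 0 m n : ℂ))
    (fun m n => by rw [Complex.norm_real, Real.norm_of_nonneg (kern_pos 0 m n).le])
  have : Kop 0 = T := by
    ext x m
    exact (Kop_spec h0 x m).unique (hT x m)
  rw [this]; exact hTn

/-- invertibility of `K₀ - z` off `[0,π]` -/
theorem Kop_zero_isUnit {z : ℂ} (hz : ∀ t : ℝ, 0 ≤ t → t ≤ π → z ≠ t) :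
    IsUnit (Kop 0 - z • (1 : E2 →L[ℂ] E2)) := by
  have h0 : |(0 : ℝ)| < 1 := by simp
  set S : Set ℂ := (fun t : ℝ => (t : ℂ)) '' Icc 0 π with hS
  have hScomp : IsCompact S := isCompact_Icc.image Complex.continuous_ofReal
  have hSne : S.Nonempty := ⟨_, ⟨0, ⟨le_refl _, Real.pi_pos.le⟩, rfl⟩⟩
  have hzS : z ∉ S := by
    rintro ⟨t, ⟨h1, h2⟩, h3⟩
    exact hz t h1 h2 h3.symm
  have hd : 0 < Metric.infDist z S := (hScomp.isClosed.notMem_iff_infDist_pos hSne).1 hzS
  set d := Metric.infDist z S with hddef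
  refine ContinuousLinearMap.isUnit_of_forall_le_norm_inner_map _ (c := ⟨d, hd.le⟩) hd ?_
  intro x
  show ‖x‖ ^ 2 * d ≤ _
  rcases eq_or_ne x 0 with rfl | hx
  · simp
  have hxn : 0 < ‖x‖ := norm_pos_iff.2 hx
  have hsa : ∀ y, ⟪Kop 0 y, y⟫_ℂ = ⟪y, Kop 0 y⟫_ℂ := by
    intro y
    rw [← ContinuousLinearMap.adjoint_inner_right, Kop_adjoint h0, neg_zero]
  have hreal : ((⟪x, Kop 0 x⟫_ℂ).re : ℂ) = ⟪x, Kop 0 x⟫_ℂ := by
    rw [← Complex.conj_eq_iff_re, inner_conj_symm, hsa]
  set t : ℝ := (⟪x, Kop 0 x⟫_ℂ).re / ‖x‖ ^ 2 with ht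
  have ht0 : 0 ≤ t := div_nonneg (Kop_zero_nonneg x) (by positivity)
  have ht1 : t ≤ π := by
    rw [ht, div_le_iff₀ (by positivity)]
    calc (⟪x, Kop 0 x⟫_ℂ).re ≤ ‖⟪x, Kop 0 x⟫_ℂ‖ := Complex.re_le_norm _
      _ ≤ ‖x‖ * ‖Kop 0 x‖ := norm_inner_le_norm _ _
      _ ≤ ‖x‖ * (π * ‖x‖) := by
          gcongr
          exact ((Kop 0).le_opNorm x).trans (by gcongr; exact Kop_zero_norm)
      _ = π * ‖x‖ ^ 2 := by ring
  have e : ⟪(Kop 0 - z • (1 : E2 →L[ℂ] E2)) x, x⟫_ℂ = ((t : ℂ) - conj z) * (‖x‖ : ℂ) ^ 2 := by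
    rw [sub_apply, inner_sub_left, hsa, ← hreal,
      smul_apply, one_apply_eq_self, inner_smul_left,
      inner_self_eq_norm_sq_to_K, sub_mul, ht]
    push_cast
    have : (‖x‖ : ℂ) ≠ 0 := by exact_mod_cast hxn.ne'
    field_simp
    rfl
  rw [e, norm_mul, norm_pow, Complex.norm_real, Real.norm_of_nonneg hxn.le, mul_comm]
  gcongr
  have : (t : ℂ) - conj z = conj ((t : ℂ) - z) := by rw [map_sub, Complex.conj_ofReal]
  rw [this, Complex.norm_conj, ← dist_eq_norm, dist_comm]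
  exact Metric.infDist_le_dist_of_mem ⟨t, ⟨ht0, ht1⟩, rfl⟩

/-- the conjugating sequence -/
theorem kern_conj_pow (β γ : ℝ) (m n : ℕ) :
    kern β m n * ((n : ℝ) + 1) ^ (-(γ - β) / 2) = ((m : ℝ) + 1) ^ (-(γ - β) / 2) * kern γ m n := by
  unfold kern
  rw [Real.div_rpow (by positivity) (by positivity), Real.div_rpow (by positivity) (by positivity)]
  have e1 : ((m : ℝ) + 1) ^ (β / 2) = ((m : ℝ) + 1) ^ (-(γ - β) / 2) * ((m : ℝ) + 1) ^ (γ / 2) := by
    rw [← Real.rpow_add (by positivity)]; congr 1; ring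
  have e2 : ((n : ℝ) + 1) ^ (γ / 2) = ((n : ℝ) + 1) ^ (β / 2) / ((n : ℝ) + 1) ^ (-(γ - β) / 2) := by
    rw [← Real.rpow_sub (by positivity)]; congr 1; ring
  rw [e1, e2]
  have : (0 : ℝ) < ((n : ℝ) + 1) ^ (β / 2) := by positivity
  have : (0 : ℝ) < ((n : ℝ) + 1) ^ (-(γ - β) / 2) := by positivity
  field_simp

/-- Injectivity of `K_β - z` for `0 ≤ β` and `z ∉ [0,π]`. -/
theorem Kop_injective {β : ℝ} (h0 : 0 ≤ β) (h1 : β < 1) {z : ℂ}
    (hz : ∀ t : ℝ, 0 ≤ t → t ≤ π → z ≠ t) {x : E2}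
    (hx : Kop β x = z • x) : x = 0 := by
  have hβ : |β| < 1 := by rwa [abs_of_nonneg h0]
  obtain ⟨Q, hQ, -⟩ := exists_diag (fun n => ((((n : ℝ) + 1) ^ (-(β - 0) / 2) : ℝ) : ℂ))
    zero_le_one (by
      intro n
      rw [Complex.norm_real, Real.norm_of_nonneg (by positivity)]
      apply Real.rpow_le_one_of_one_le_of_nonpos
      · have : (0 : ℝ) ≤ n := by positivity
        linarith
      · linarith)
  have h2 := diag_intertwine (β := 0) (γ := β) (by simp) hβ hQ (by
    intro m n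
    have := kern_conj_pow 0 β m n
    exact_mod_cast this) x
  rw [hx, map_smul] at h2
  have h3 : (Kop 0 - z • (1 : E2 →L[ℂ] E2)) (Q x) = 0 := by
    rw [sub_apply, smul_apply,
      one_apply_eq_self, h2, sub_self]
  obtain ⟨u, hu⟩ := Kop_zero_isUnit hz
  have h4 : Q x = 0 := by
    have : (u⁻¹.val * u.val) (Q x) = 0 := by
      rw [mul_apply_eq_comp, hu, h3, map_zero]
    rwa [Units.inv_mul, one_apply_eq_self] at this
  ext n
  have h5 : Q x n = 0 := by rw [h4]; rfl
  rw [hQ] at h5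
  rcases mul_eq_zero.1 h5 with h | h
  · exfalso
    have : (0 : ℝ) < ((n : ℝ) + 1) ^ (-(β - 0) / 2) := by positivity
    exact this.ne' (Complex.ofReal_eq_zero.1 h)
  · simpa using h

end Pool.Agent.Lib.MP_b37156_an
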