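import Pool.Agent.Lib.MP_b37156_an.Step
import Pool.Agent.Lib.MP_b37156_an.Props

namespace Pool.Agent.Lib.MP_b37156_an

open MeasureTheory Set FourierTransform Filter
open scoped Real ENNReal Topology

theorem eLpNorm_two_sq {F : Type*} [NormedAddCommGroup F] (f : ℝ → F) :
    (eLpNorm f 2) ^ 2 = ∫⁻ u, ‖f u‖ₑ ^ 2 := by
  have := eLpNorm_nnreal_pow_eq_lintegral (μ := (volume : Measure ℝ)) (f := f) (p := 2) (by norm_num)
  simpa using this

/-- weighted sequence of a vector -/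
noncomputable def wseq (β : ℝ) (y : ℕ → ℂ) (n : ℕ) : ℂ := ((((n : ℝ) + 1) ^ (-β / 2) : ℝ) : ℂ) * y n

theorem enorm_wseq (β : ℝ) (y : ℕ → ℂ) (n : ℕ) :
    ‖wseq β y n‖ₑ ^ 2 = ENNReal.ofReal (((n : ℝ) + 1) ^ (-β)) * ‖y n‖ₑ ^ 2 := by
  unfold wseq
  rw [enorm_mul, mul_pow]
  congr 1
  rw [← ofReal_norm, Complex.norm_real, Real.norm_of_nonneg (by positivity),
    ← ENNReal.ofReal_pow (by positivity), ← Real.rpow_natCast, ← Real.rpow_mul (by positivity)]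
  congr 2
  push_cast; ring

theorem Jf_norm_bounds {β : ℝ} (hβ : |β| < 1) (y : E2) :
    ENNReal.ofReal (1 / 2) * ‖y‖ₑ ^ 2 ≤ (eLpNorm (Jf ((1 + β) / 2) (wseq β y)) 2) ^ 2 ∧
    (eLpNorm (Jf ((1 + β) / 2) (wseq β y)) 2) ^ 2 ≤ ENNReal.ofReal 2 * ‖y‖ₑ ^ 2 := by
  obtain ⟨b1, b2⟩ := abs_lt.1 hβ
  have h0 : 0 < (1 + β) / 2 := by linarith
  have h1 : (1 + β) / 2 < 1 := by linarith
  have e : 2 * ((1 + β) / 2) - 1 = β := by ring
  rw [eLpNorm_two_sq, lintegral_Jf, enorm_sq, ← ENNReal.tsum_mul_left, ← ENNReal.tsum_mul_left]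
  have key : ∀ (n : ℕ) (c : ℝ), 0 ≤ c → ENNReal.ofReal c * ‖y n‖ₑ ^ 2 =
      ENNReal.ofReal (((n : ℝ) + 1) ^ (-β)) * ‖y n‖ₑ ^ 2 * ENNReal.ofReal (c * ((n : ℝ) + 1) ^ β) := by
    intro n c hc
    rw [mul_comm (ENNReal.ofReal (((n : ℝ) + 1) ^ (-β))), mul_assoc,
      ← ENNReal.ofReal_mul (by positivity), mul_comm]
    congr 2
    rw [mul_left_comm, ← Real.rpow_add (by positivity)]
    simp
  constructor
  · apply ENNReal.tsum_le_tsum
    intro n
    rw [enorm_wseq, key n _ (by norm_num)]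
    gcongr
    have := (W_bounds h0 h1 n).1
    rwa [e] at this
  · apply ENNReal.tsum_le_tsum
    intro n
    rw [enorm_wseq, key n 2 (by norm_num)]
    gcongr
    have := (W_bounds h0 h1 n).2
    rwa [e] at this

theorem sum_bv_apply (s : Finset ℕ) (x : ℕ → ℂ) (m : ℕ) :
    (∑ n ∈ s, x n • bv n : E2) m = trunc s x m := by
  have : (∑ n ∈ s, x n • bv n : E2) m = ∑ n ∈ s, (x n • bv n : E2) m := by
    rw [lp.coeFn_sum]; simp
  rw [this]
  unfold trunc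
  have h2 : ∀ n ∈ s, (x n • bv n : E2) m = if m = n then x n else 0 := by
    intro n _
    rw [lp.coeFn_smul, Pi.smul_apply, bv_apply, smul_eq_mul]
    split_ifs <;> simp
  rw [Finset.sum_congr rfl h2, Finset.sum_ite_eq]

theorem lower_fin {β : ℝ} (hβ : |β| < 1) {z : ℂ} (hz : z ≠ 0)
    (hz' : ∀ s : ℂ, s.re = (1 + β) / 2 → z ≠ π / Complex.sin (π * s)) :
    ∃ δ : ℝ, 0 < δ ∧ ∃ C : ℝ, 0 ≤ C ∧ ∀ (s : Finset ℕ) (x : ℕ → ℂ),
      δ * ‖(∑ n ∈ s, x n • bv n : E2)‖ ≤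
        ‖(Kop β - z • (1 : E2 →L[ℂ] E2)) (∑ n ∈ s, x n • bv n)‖ +
          C * ∑ n ∈ s, ‖x n‖ * ((n : ℝ) + 1) ^ (-(β + 2) / 2) := by
  obtain ⟨b1, b2⟩ := abs_lt.1 hβ
  have h0 : 0 < (1 + β) / 2 := by linarith
  have h1 : (1 + β) / 2 < 1 := by linarith
  obtain ⟨δ, hδ, hδ'⟩ := exists_delta h0 h1 hz hz'
  set P : ℝ := (eLpNorm (psi ((1 + β) / 2)) 2).toReal with hP
  have hPfin : eLpNorm (psi ((1 + β) / 2)) 2 ≠ ⊤ := (memLp_psi h0 h1).eLpNorm_ne_top
  refine ⟨δ / 2, by positivity, 6 * P, by positivity, ?_⟩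
  intro s x
  set xs : E2 := ∑ n ∈ s, x n • bv n with hxs
  set y : E2 := (Kop β - z • (1 : E2 →L[ℂ] E2)) xs with hy
  have hxsa : ∀ m, xs m = trunc s x m := fun m => sum_bv_apply s x m
  have hya : ∀ m, y m = ∑ n ∈ s, x n * (kern β m n : ℂ) - z * trunc s x m := by
    intro m
    rw [hy, sub_apply, smul_apply, one_apply_eq_self, lp.coeFn_sub, Pi.sub_apply, lp.coeFn_smul,
      Pi.smul_apply, hxsa, smul_eq_mul]
    congr 1
    rw [hxs, map_sum, lp.coeFn_sum, Finset.sum_apply]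
    apply Finset.sum_congr rfl
    intro n _
    rw [map_smul, lp.coeFn_smul, Pi.smul_apply, Kop_bv hβ, smul_eq_mul]
  set a : ℕ → ℂ := wseq β x with ha
  have e1 : trunc s a = wseq β xs := by
    ext n
    unfold wseq
    rw [hxsa]
    unfold trunc
    rw [ha]
    unfold wseq
    split_ifs <;> simp
  have e2 : (fun m => Hs s a m - z * trunc s a m) = wseq β y := by
    ext m
    unfold wseq Hs
    rw [hya, mul_sub, Finset.mul_sum]
    congr 1
    · apply Finset.sum_congr rfl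
      intro n _
      rw [ha]
      unfold wseq kern
      have hm : (0 : ℝ) < ((m : ℝ) + 1) ^ (β / 2) := by positivity
      have hn : (0 : ℝ) < ((n : ℝ) + 1) ^ (β / 2) := by positivity
      have e3 : (((m : ℝ) + 1) / ((n : ℝ) + 1)) ^ (β / 2) / ((m : ℝ) + n + 1) =
          ((m : ℝ) + 1) ^ (β / 2) / ((n : ℝ) + 1) ^ (β / 2) / ((m : ℝ) + n + 1) := by
        rw [Real.div_rpow (by positivity) (by positivity)]
      have e4 : ∀ k : ℕ, ((k : ℝ) + 1) ^ (-β / 2) = (((k : ℝ) + 1) ^ (β / 2))⁻¹ := by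
        intro k
        rw [← Real.rpow_neg (by positivity)]; congr 1; ring
      rw [e3, e4, e4]
      have hm' : (((((m : ℝ) + 1) ^ (β / 2) : ℝ)) : ℂ) ≠ 0 := by exact_mod_cast hm.ne'
      have hn' : (((((n : ℝ) + 1) ^ (β / 2) : ℝ)) : ℂ) ≠ 0 := by exact_mod_cast hn.ne'
      push_cast only [Complex.ofReal_div, Complex.ofReal_inv, Complex.ofReal_add,
        Complex.ofReal_natCast, Complex.ofReal_one]
      field_simp
    · have := congrFun e1 m
      rw [this]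
      unfold wseq
      rw [hxsa]
      ring
  have main := lower_step h0 h1 hδ hδ' s a
  rw [e2, e1] at main
  have B1 := Jf_norm_bounds hβ xs
  have B2 := Jf_norm_bounds hβ y
  have fin1 : eLpNorm (Jf ((1 + β) / 2) (wseq β xs)) 2 ≠ ⊤ := by
    intro h; rw [h] at B1
    have : (⊤ : ℝ≥0∞) ^ 2 ≤ ENNReal.ofReal 2 * ‖xs‖ₑ ^ 2 := B1.2
    simp only [ne_eq, OfNat.ofNat_ne_zero, not_false_eq_true, ENNReal.top_pow, top_le_iff] at this
    exact ENNReal.mul_ne_top ENNReal.ofReal_ne_top (by simp) this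
  have fin2 : eLpNorm (Jf ((1 + β) / 2) (wseq β y)) 2 ≠ ⊤ := by
    intro h; rw [h] at B2
    have : (⊤ : ℝ≥0∞) ^ 2 ≤ ENNReal.ofReal 2 * ‖y‖ₑ ^ 2 := B2.2
    simp only [ne_eq, OfNat.ofNat_ne_zero, not_false_eq_true, ENNReal.top_pow, top_le_iff] at this
    exact ENNReal.mul_ne_top ENNReal.ofReal_ne_top (by simp) this
  set A := (eLpNorm (Jf ((1 + β) / 2) (wseq β xs)) 2).toReal with hA
  set B := (eLpNorm (Jf ((1 + β) / 2) (wseq β y)) 2).toReal with hB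
  set S : ℝ := ∑ n ∈ s, ‖a n‖ / ((n : ℝ) + 1) with hS
  have hS0 : 0 ≤ S := by positivity
  have main' : δ * A ≤ B + 6 * S * P := by
    have := ENNReal.toReal_mono (ENNReal.add_ne_top.2 ⟨fin2, ENNReal.mul_ne_top
      ENNReal.ofReal_ne_top hPfin⟩) main
    rw [ENNReal.toReal_mul, ENNReal.toReal_add fin2 (ENNReal.mul_ne_top
      ENNReal.ofReal_ne_top hPfin), ENNReal.toReal_mul, ENNReal.toReal_ofReal hδ.le,
      ENNReal.toReal_ofReal (by positivity)] at this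
    exact this
  have hxA : ‖xs‖ ^ 2 ≤ 2 * A ^ 2 := by
    have := ENNReal.toReal_mono (by simp [fin1]) B1.1
    rw [ENNReal.toReal_mul, ENNReal.toReal_pow, ENNReal.toReal_pow, toReal_enorm,
      ENNReal.toReal_ofReal (by norm_num)] at this
    linarith
  have hyB : B ^ 2 ≤ 2 * ‖y‖ ^ 2 := by
    have := ENNReal.toReal_mono (ENNReal.mul_ne_top ENNReal.ofReal_ne_top (by simp)) B2.2
    rw [ENNReal.toReal_mul, ENNReal.toReal_pow, ENNReal.toReal_pow, toReal_enorm,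
      ENNReal.toReal_ofReal (by norm_num)] at this
    linarith
  have hA0 : 0 ≤ A := ENNReal.toReal_nonneg
  have hB0 : 0 ≤ B := ENNReal.toReal_nonneg
  have hP0 : 0 ≤ P := ENNReal.toReal_nonneg
  have r2 : 0 < Real.sqrt 2 := by positivity
  have r2s : Real.sqrt 2 ^ 2 = 2 := Real.sq_sqrt (by norm_num)
  have hx' : ‖xs‖ ≤ Real.sqrt 2 * A := by
    apply (pow_le_pow_iff_left₀ (norm_nonneg _) (by positivity) two_ne_zero).1
    rw [mul_pow, r2s]; exact hxA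
  have hy' : B ≤ Real.sqrt 2 * ‖y‖ := by
    apply (pow_le_pow_iff_left₀ hB0 (by positivity) two_ne_zero).1
    rw [mul_pow, r2s]; exact hyB
  have hSx : S = ∑ n ∈ s, ‖x n‖ * ((n : ℝ) + 1) ^ (-(β + 2) / 2) := by
    rw [hS]
    apply Finset.sum_congr rfl
    intro n _
    rw [ha]
    unfold wseq
    rw [norm_mul, Complex.norm_real, Real.norm_of_nonneg (by positivity),
      show -(β + 2) / 2 = -β / 2 - 1 by ring, Real.rpow_sub (by positivity), Real.rpow_one]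
    ring
  rw [← hSx]
  have r2' : Real.sqrt 2 ≤ 2 := by
    rw [Real.sqrt_le_left (by norm_num)]; norm_num
  have c1 : δ * ‖xs‖ ≤ Real.sqrt 2 * (Real.sqrt 2 * ‖y‖ + 6 * S * P) := by
    calc δ * ‖xs‖ ≤ δ * (Real.sqrt 2 * A) := by gcongr
      _ = Real.sqrt 2 * (δ * A) := by ring
      _ ≤ Real.sqrt 2 * (B + 6 * S * P) := by gcongr
      _ ≤ _ := by gcongr
  have c2 : Real.sqrt 2 * (Real.sqrt 2 * ‖y‖ + 6 * S * P) ≤ 2 * ‖y‖ + 2 * (6 * S * P) := by
    have : Real.sqrt 2 * (Real.sqrt 2 * ‖y‖) = 2 * ‖y‖ := by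
      rw [← mul_assoc, ← sq, r2s]
    rw [mul_add, this]
    have : 0 ≤ 6 * S * P := by positivity
    gcongr
  linarith

end Pool.Agent.Lib.MP_b37156_an
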