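import Pool.Agent.Lib.MP_b37156_an.Spec
import Pool.Agent.Lib.MP_b37156_an.Defs

namespace Pool.Agent.Lib.MP_b37156_an

open MeasureTheory Set Filter
open scoped Real ENNReal Topology InnerProductSpace ComplexConjugate

theorem ae_wt_iff {α : ℝ} {p : ℕ → Prop} : (∀ᵐ n ∂(wt α), p n) ↔ ∀ n, p n := by
  unfold wt
  rw [ae_withDensity_iff (measurable_of_countable _)]
  constructor
  · intro h n
    rw [ae_iff, Measure.count_eq_zero_iff] at h
    by_contra hn
    have : n ∈ {a : ℕ | ¬(ENNReal.ofReal (((a : ℝ) + 1) ^ α) ≠ 0 → p a)} := by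
      simp only [ne_eq, mem_ofPred_eq, Classical.not_imp]
      refine ⟨?_, hn⟩
      rw [ENNReal.ofReal_eq_zero, not_le]
      positivity
    rw [h] at this
    exact this
  · intro h
    exact Eventually.of_forall fun n _ => h n

theorem lintegral_wt {α : ℝ} (f : ℕ → ℝ≥0∞) :
    ∫⁻ n, f n ∂(wt α) = ∑' n : ℕ, ENNReal.ofReal (((n : ℝ) + 1) ^ α) * f n := by
  unfold wt
  rw [lintegral_withDensity_eq_lintegral_mul _ (measurable_of_countable _)
    (measurable_of_countable _), lintegral_count]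
  rfl

theorem eLpNorm_wt_sq {α : ℝ} (f : ℕ → ℂ) :
    (eLpNorm f 2 (wt α)) ^ 2 = ∑' n : ℕ, ENNReal.ofReal (((n : ℝ) + 1) ^ α) * ‖f n‖ₑ ^ 2 := by
  have := eLpNorm_nnreal_pow_eq_lintegral (μ := wt α) (f := f) (p := 2) (by norm_num)
  rw [← lintegral_wt]
  simpa using this

theorem enorm_up (α : ℝ) (f : ℕ → ℂ) (n : ℕ) :
    ‖((((n : ℝ) + 1) ^ (α / 2) : ℝ) : ℂ) * f n‖ₑ ^ 2 =
      ENNReal.ofReal (((n : ℝ) + 1) ^ α) * ‖f n‖ₑ ^ 2 := by
  rw [enorm_mul, mul_pow]
  congr 1
  rw [← ofReal_norm, Complex.norm_real, Real.norm_of_nonneg (by positivity),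
    ← ENNReal.ofReal_pow (by positivity), ← Real.rpow_natCast, ← Real.rpow_mul (by positivity)]
  congr 2
  push_cast; ring

theorem exists_unitary (α : ℝ) : ∃ U : Lp ℂ 2 (wt α) ≃ₗᵢ[ℂ] E2,
    ∀ a n, U a n = ((((n : ℝ) + 1) ^ (α / 2) : ℝ) : ℂ) * a n := by
  have hfin : ∀ a : Lp ℂ 2 (wt α),
      ∑' n : ℕ, ‖((((n : ℝ) + 1) ^ (α / 2) : ℝ) : ℂ) * a n‖ₑ ^ 2 = (eLpNorm a 2 (wt α)) ^ 2 := by
    intro a
    rw [eLpNorm_wt_sq]
    exact tsum_congr fun n => enorm_up α a n
  have hmem : ∀ a : Lp ℂ 2 (wt α), Memℓp (fun n : ℕ => ((((n : ℝ) + 1) ^ (α / 2) : ℝ) : ℂ) * a n) 2 := by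
    intro a
    apply memlp_two_of_enorm
    rw [hfin]
    simp [Lp.eLpNorm_ne_top a]
  have hae : ∀ {f g : ℕ → ℂ}, f =ᵐ[wt α] g → ∀ n, f n = g n := fun h => ae_wt_iff.1 h
  let L : Lp ℂ 2 (wt α) →ₗᵢ[ℂ] E2 :=
    { toFun := fun a => ⟨fun n => ((((n : ℝ) + 1) ^ (α / 2) : ℝ) : ℂ) * a n, hmem a⟩
      map_add' := by
        intro a b
        apply Subtype.ext
        funext n
        show _ * (a + b : Lp ℂ 2 (wt α)) n = _ * a n + _ * b n
        rw [hae (Lp.coeFn_add a b) n, Pi.add_apply, mul_add]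
      map_smul' := by
        intro c a
        apply Subtype.ext
        funext n
        show _ * (c • a : Lp ℂ 2 (wt α)) n = c * (_ * a n)
        rw [hae (Lp.coeFn_smul c a) n, Pi.smul_apply, smul_eq_mul]
        ring
      norm_map' := by
        intro a
        set x : E2 := ⟨fun n => ((((n : ℝ) + 1) ^ (α / 2) : ℝ) : ℂ) * a n, hmem a⟩ with hx
        have h1 : ‖x‖ₑ ^ 2 = (eLpNorm a 2 (wt α)) ^ 2 := by
          rw [enorm_sq, ← hfin]
        have h2 : ‖x‖ₑ = eLpNorm a 2 (wt α) := by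
          have := (ENNReal.pow_right_strictMono (n := 2) two_ne_zero).injective h1
          exact this
        show ‖x‖ = ‖a‖
        rw [Lp.norm_def, ← h2, toReal_enorm] }
  have hsurj : Function.Surjective L := by
    intro x
    set f : ℕ → ℂ := fun n => ((((n : ℝ) + 1) ^ (-(α / 2)) : ℝ) : ℂ) * x n with hf
    have hfx : ∀ n : ℕ, ((((n : ℝ) + 1) ^ (α / 2) : ℝ) : ℂ) * f n = x n := by
      intro n
      rw [hf]
      have : ((((n : ℝ) + 1) ^ (α / 2) : ℝ) : ℂ) * ((((n : ℝ) + 1) ^ (-(α / 2)) : ℝ) : ℂ) = 1 := by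
        rw [← Complex.ofReal_mul, ← Real.rpow_add (by positivity)]
        simp
      linear_combination (x n) * this
    have hfm : MemLp f 2 (wt α) := by
      refine ⟨(measurable_of_countable _).aestronglyMeasurable, ?_⟩
      have h1 : (eLpNorm f 2 (wt α)) ^ 2 = ‖x‖ₑ ^ 2 := by
        rw [eLpNorm_wt_sq, enorm_sq]
        apply tsum_congr
        intro n
        rw [← hfx n, enorm_up]
      have h2 : eLpNorm f 2 (wt α) = ‖x‖ₑ :=
        (ENNReal.pow_right_strictMono (n := 2) two_ne_zero).injective h1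
      rw [h2]; simp
    refine ⟨hfm.toLp f, ?_⟩
    ext n
    show ((((n : ℝ) + 1) ^ (α / 2) : ℝ) : ℂ) * (hfm.toLp f) n = x n
    rw [hae hfm.coeFn_toLp n, hfx]
  refine ⟨LinearIsometryEquiv.ofSurjective L hsurj, fun a n => ?_⟩
  rfl

/-- The Hilbert matrix property on `Lp`. -/
def Acts (α : ℝ) (H : Lp ℂ 2 (wt α) →L[ℂ] Lp ℂ 2 (wt α)) : Prop :=
  ∀ (a : Lp ℂ 2 (wt α)) (m : ℕ), HasSum (fun n : ℕ => a n / ((m : ℂ) + n + 1)) (H a m)

/-- transported operator acts by the kernel -/
theorem transport {α : ℝ} {U : Lp ℂ 2 (wt α) ≃ₗᵢ[ℂ] E2}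
    (hU : ∀ a n, U a n = ((((n : ℝ) + 1) ^ (α / 2) : ℝ) : ℂ) * a n)
    {H : Lp ℂ 2 (wt α) →L[ℂ] Lp ℂ 2 (wt α)} {V : E2 →L[ℂ] E2} (hV : ∀ a, V (U a) = U (H a)) :
    Acts α H ↔ ∀ x m, HasSum (fun n => (kern α m n : ℂ) * x n) (V x m) := by
  have key : ∀ (a : Lp ℂ 2 (wt α)) (m n : ℕ), (kern α m n : ℂ) * U a n =
      ((((m : ℝ) + 1) ^ (α / 2) : ℝ) : ℂ) * (a n / ((m : ℂ) + n + 1)) := by
    intro a m n
    rw [hU]
    unfold kern
    rw [Real.div_rpow (by positivity) (by positivity)]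
    have hn' : (((((n : ℝ) + 1) ^ (α / 2) : ℝ)) : ℂ) ≠ 0 := by
      exact_mod_cast (by positivity : (((n : ℝ) + 1) ^ (α / 2)) ≠ 0)
    push_cast only [Complex.ofReal_div, Complex.ofReal_add, Complex.ofReal_natCast,
      Complex.ofReal_one]
    field_simp
  have hm : ∀ m : ℕ, ((((m : ℝ) + 1) ^ (α / 2) : ℝ) : ℂ) ≠ 0 := fun m => by
    exact_mod_cast (by positivity : (((m : ℝ) + 1) ^ (α / 2)) ≠ 0)
  constructor
  · intro h x m
    obtain ⟨a, rfl⟩ := U.surjective x
    rw [hV, hU]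
    refine ((h a m).mul_left ((((m : ℝ) + 1) ^ (α / 2) : ℝ) : ℂ)).congr_fun ?_
    intro n
    exact key a m n
  · intro h a m
    have h1 := h (U a) m
    rw [hV, hU] at h1
    have h2 := h1.mul_left (((((m : ℝ) + 1) ^ (α / 2) : ℝ) : ℂ))⁻¹
    rw [inv_mul_cancel_left₀ (hm m)] at h2
    refine h2.congr_fun ?_
    intro n
    rw [key, inv_mul_cancel_left₀ (hm m)]

/-- an operator acting by the kernel forces `|α| < 1` -/
theorem abs_lt_one_of_acts {α : ℝ} {V : E2 →L[ℂ] E2}
    (h : ∀ x m, HasSum (fun n => (kern α m n : ℂ) * x n) (V x m)) : |α| < 1 := by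
  have hsh : ∀ r : ℝ, Summable (fun n : ℕ => ((n : ℝ) + 1) ^ r) → r < -1 := by
    intro r hr
    rw [← Real.summable_nat_rpow]
    apply (summable_nat_add_iff 1).1
    refine hr.congr fun n => ?_
    push_cast; rfl
  rw [abs_lt]
  constructor
  · -- lower bound: test on the row 0
    have hsum : Summable (fun n : ℕ => ((n : ℝ) + 1) ^ (-α - 2)) := by
      apply summable_of_sum_range_le (c := ‖V‖ ^ 2) (fun n => by positivity)
      intro N
      set S : ℝ := ∑ i ∈ Finset.range N, ((i : ℝ) + 1) ^ (-α - 2) with hS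
      have hS0 : 0 ≤ S := by positivity
      set x : E2 := vec (Finset.range N) (fun n => (kern α 0 n : ℂ)) with hx
      have hk : ∀ n : ℕ, kern α 0 n ^ 2 = ((n : ℝ) + 1) ^ (-α - 2) := by
        intro n
        unfold kern
        rw [Nat.cast_zero, zero_add, zero_add, one_div, Real.inv_rpow (by positivity),
          ← Real.rpow_neg (by positivity), ← Real.rpow_sub_one (by positivity), ← Real.rpow_natCast,
          ← Real.rpow_mul (by positivity)]
        congr 1
        push_cast; ring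
      have h1 : ‖x‖ ^ 2 = S := by
        rw [hx, norm_vec_sq, hS]
        apply Finset.sum_congr rfl
        intro n _
        rw [Complex.norm_real, Real.norm_of_nonneg (kern_pos α 0 n).le, hk]
      have h2 : V x 0 = S := by
        have h3 := h x 0
        have h4 : HasSum (fun n => (kern α 0 n : ℂ) * x n)
            (∑ n ∈ Finset.range N, (kern α 0 n : ℂ) * x n) := by
          apply hasSum_sum_of_ne_finset_zero
          intro n hn
          rw [hx, vec_apply]
          unfold trunc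
          rw [if_neg hn, mul_zero]
        rw [h3.unique h4, hS]
        push_cast only [Complex.ofReal_sum]
        apply Finset.sum_congr rfl
        intro n hn
        rw [hx, vec_apply]
        unfold trunc
        rw [if_pos hn, ← hk]
        push_cast; ring
      have h3 : S ≤ ‖V‖ * ‖x‖ := by
        calc S = ‖V x 0‖ := by rw [h2, Complex.norm_real, Real.norm_of_nonneg hS0]
          _ ≤ ‖V x‖ := lp.norm_apply_le_norm (by norm_num) _ _
          _ ≤ _ := V.le_opNorm x
      have h4 : S ^ 2 ≤ ‖V‖ ^ 2 * S := by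
        calc S ^ 2 ≤ (‖V‖ * ‖x‖) ^ 2 := by gcongr
          _ = _ := by rw [mul_pow, h1]
      rcases eq_or_lt_of_le hS0 with h5 | h5
      · rw [← h5]; positivity
      · have : S * S ≤ ‖V‖ ^ 2 * S := by rw [← sq]; exact h4
        exact le_of_mul_le_mul_right this h5
    have := hsh _ hsum
    linarith
  · have hsum : Summable (fun n : ℕ => ((n : ℝ) + 1) ^ (α - 2)) := by
      have h1 := (hasSum_norm_sq (V (bv 0))).summable
      refine h1.congr fun m => ?_
      have h2 : V (bv 0) m = kern α m 0 := by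
        have h3 := h (bv 0) m
        have h4 : HasSum (fun n => (kern α m n : ℂ) * bv 0 n) (kern α m 0) := by
          have := hasSum_ite_eq 0 ((kern α m 0 : ℂ))
          refine this.congr_fun ?_
          intro k
          rw [bv_apply]
          split_ifs with h
          · subst h; simp
          · simp
        exact h3.unique h4
      rw [h2, Complex.norm_real, Real.norm_of_nonneg (kern_pos α m 0).le]
      unfold kern
      rw [Nat.cast_zero, zero_add, div_one, add_zero, ← Real.rpow_sub_one (by positivity),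
        ← Real.rpow_natCast, ← Real.rpow_mul (by positivity)]
      congr 1
      push_cast; ring
    have := hsh _ hsum
    linarith

theorem main (α : ℝ) :
    ((∃ H : Lp ℂ 2 (wt α) →L[ℂ] Lp ℂ 2 (wt α), Acts α H) ↔ |α| < 1) ∧
    ∀ H : Lp ℂ 2 (wt α) →L[ℂ] Lp ℂ 2 (wt α), Acts α H →
      spectrum ℂ H =
        {0} ∪ {z : ℂ | ∃ μ : ℂ, |μ.re - 1 / 2| ≤ |α| / 2 ∧ z = π / Complex.sin (π * μ)} := by
  obtain ⟨U, hU⟩ := exists_unitary α
  set Uc : Lp ℂ 2 (wt α) →L[ℂ] E2 := (U.toContinuousLinearEquiv : Lp ℂ 2 (wt α) →L[ℂ] E2) with hUc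
  set Us : E2 →L[ℂ] Lp ℂ 2 (wt α) := (U.symm.toContinuousLinearEquiv : E2 →L[ℂ] Lp ℂ 2 (wt α))
    with hUs
  have hUca : ∀ a, Uc a = U a := fun a => rfl
  have hUsa : ∀ x, Us x = U.symm x := fun x => rfl
  constructor
  · constructor
    · rintro ⟨H, hH⟩
      set V : E2 →L[ℂ] E2 := Uc ∘L H ∘L Us with hV
      have hVa : ∀ a, V (U a) = U (H a) := by
        intro a
        show Uc (H (Us (U a))) = U (H a)
        rw [hUsa, hUca, U.symm_apply_apply]
      exact abs_lt_one_of_acts ((transport hU hVa).1 hH)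
    · intro hα
      set H : Lp ℂ 2 (wt α) →L[ℂ] Lp ℂ 2 (wt α) := Us ∘L (Kop α) ∘L Uc with hH
      refine ⟨H, (transport hU (V := Kop α) ?_).2 (Kop_spec hα)⟩
      intro a
      show Kop α (U a) = U (Us (Kop α (Uc a)))
      rw [hUsa, U.apply_symm_apply, hUca]
  · intro H hH
    set V : E2 →L[ℂ] E2 := Uc ∘L H ∘L Us with hV
    have hVa : ∀ a, V (U a) = U (H a) := by
      intro a
      show Uc (H (Us (U a))) = U (H a)
      rw [hUsa, hUca, U.symm_apply_apply]
    have hVs := (transport hU hVa).1 hH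
    have hα := abs_lt_one_of_acts hVs
    have hVK : V = Kop α := by
      ext x m
      exact (hVs x m).unique (Kop_spec hα x m)
    have hsp : spectrum ℂ H = spectrum ℂ V := by
      ext z
      rw [spectrum.mem_iff, spectrum.mem_iff, not_iff_not,
        ContinuousLinearMap.isUnit_iff_bijective, ContinuousLinearMap.isUnit_iff_bijective]
      have e : ⇑(algebraMap ℂ (E2 →L[ℂ] E2) z - V) =
          U ∘ ⇑(algebraMap ℂ (Lp ℂ 2 (wt α) →L[ℂ] Lp ℂ 2 (wt α)) z - H) ∘ U.symm := by
        funext x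
        simp only [Function.comp]
        rw [sub_apply, sub_apply, Algebra.algebraMap_eq_smul_one, Algebra.algebraMap_eq_smul_one,
          smul_apply, smul_apply, one_apply_eq_self, one_apply_eq_self, map_sub, map_smul,
          U.apply_symm_apply, ← hVa, U.apply_symm_apply]
      rw [e]
      constructor
      · intro h
        exact U.bijective.comp (h.comp U.symm.bijective)
      · intro h
        have h2 := U.symm.bijective.comp (h.comp U.bijective)
        convert h2 using 1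
        funext a
        simp only [Function.comp]
        rw [U.symm_apply_apply, U.symm_apply_apply]
    rw [hsp, hVK, spectrum_Kop hα]
    rfl

theorem main' (α : ℝ) :
    ((∃ H : L2w α →L[ℂ] L2w α, ActsAsHilbertMatrix H) ↔ |α| < 1) ∧
    ∀ H : L2w α →L[ℂ] L2w α, ActsAsHilbertMatrix H → spectrum ℂ H = spectralRegion α :=
  main α

end Pool.Agent.Lib.MP_b37156_an
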