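import Mathlib

namespace Pool.Agent.Lib.MP_b37156_an

open MeasureTheory FourierTransform SchwartzMap
open scoped ContDiff ENNReal

/-- Plancherel for functions in `L¹ ∩ L²`: the Fourier integral is in `L²` with the same norm. -/
theorem plancherel (h : ℝ → ℂ) (h1 : Integrable h) (h2 : MemLp h 2) :
    MemLp (𝓕 h) 2 ∧ eLpNorm (𝓕 h) 2 = eLpNorm h 2 := by
  set H : Lp ℂ 2 (volume : Measure ℝ) := h2.toLp h with hH
  have key : (𝓕 H : Lp ℂ 2 (volume : Measure ℝ)) =ᵐ[volume] 𝓕 h := by
    have hcont : Continuous (𝓕 h) := by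
      have := VectorFourier.fourierIntegral_continuous (μ := (volume : Measure ℝ)) (E := ℂ)
        (e := Real.fourierChar) (L := innerₗ ℝ) Real.continuous_fourierChar
        (by fun_prop) h1
      exact this
    apply ae_eq_of_integral_contDiff_smul_eq
    · exact (Lp.memLp _).locallyIntegrable (by norm_num)
    · exact hcont.locallyIntegrable
    · intro g g_smooth g_cpt
      have hg₁ : HasCompactSupport (Complex.ofRealCLM ∘ g) := g_cpt.comp_left rfl
      have hg₂ : ContDiff ℝ ∞ (Complex.ofRealCLM ∘ g) := by fun_prop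
      set φ : 𝓢(ℝ, ℂ) := hg₁.toSchwartzMap hg₂ with hφ
      have hφv : ∀ x, φ x = (g x : ℂ) := fun x => by simp [hφ]
      have e1 : ∫ x, g x • (𝓕 H : Lp ℂ 2 (volume : Measure ℝ)) x
          = ((𝓕 H : Lp ℂ 2 (volume : Measure ℝ)) : 𝓢'(ℝ, ℂ)) φ := by
        rw [Lp.toTemperedDistribution_apply]
        apply integral_congr_ae
        filter_upwards with x
        rw [hφv]; simp
      have e2 : ((𝓕 H : Lp ℂ 2 (volume : Measure ℝ)) : 𝓢'(ℝ, ℂ)) φ
          = ∫ x, (𝓕 φ) x • h x := by
        rw [← Lp.fourier_toTemperedDistribution_eq, TemperedDistribution.fourier_apply,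
          Lp.toTemperedDistribution_apply]
        apply integral_congr_ae
        filter_upwards [h2.coeFn_toLp] with x hx
        rw [hH, hx]
      have e3 : ∫ x, (𝓕 φ) x • h x = ∫ x, g x • 𝓕 h x := by
        have := VectorFourier.integral_fourierIntegral_smul_eq_flip
          (μ := (volume : Measure ℝ)) (ν := (volume : Measure ℝ)) (f := φ) (g := h)
          (e := Real.fourierChar) (L := innerₗ ℝ) Real.continuous_fourierChar
          (by fun_prop) φ.integrable h1
        have l : ∫ x, (𝓕 φ) x • h x = ∫ ξ, (VectorFourier.fourierIntegral Real.fourierChar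
            volume (innerₗ ℝ) φ ξ) • h ξ := by
          rfl
        rw [l, this]
        apply integral_congr_ae
        filter_upwards with x
        rw [hφv]
        simp only [flip_innerₗ]
        simp only [smul_eq_mul, Complex.real_smul]
        rfl
      rw [e1, e2, e3]
  have hmem : MemLp (𝓕 h) 2 := (memLp_congr_ae key).1 (Lp.memLp _)
  refine ⟨hmem, ?_⟩
  have n1 : eLpNorm (𝓕 h) 2 = eLpNorm (𝓕 H : Lp ℂ 2 (volume : Measure ℝ)) 2 volume :=
    (eLpNorm_congr_ae key).symm
  have n2 : eLpNorm h 2 = eLpNorm H 2 volume := (eLpNorm_congr_ae h2.coeFn_toLp).symm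
  rw [n1, n2]
  have := Lp.norm_fourier_eq H
  rw [Lp.norm_def, Lp.norm_def] at this
  exact (ENNReal.toReal_eq_toReal_iff' (Lp.eLpNorm_ne_top _) (Lp.eLpNorm_ne_top _)).1 this

end Pool.Agent.Lib.MP_b37156_an
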