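import Pool.Agent.Lib.MP_b37156_an.Approx

namespace Pool.Agent.Lib.MP_b37156_an

open MeasureTheory Set Filter
open scoped Real ENNReal Topology InnerProductSpace ComplexConjugate

/-- the region -/
def Region (α : ℝ) : Set ℂ :=
  {0} ∪ {z : ℂ | ∃ μ : ℂ, |μ.re - 1 / 2| ≤ |α| / 2 ∧ z = π / Complex.sin (π * μ)}

theorem conj_mem_Region {α : ℝ} {z : ℂ} (h : z ∈ Region α) : conj z ∈ Region α := by
  rcases h with h | ⟨μ, h1, h2⟩
  · left
    have h : z = 0 := h
    rw [h]; simp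
  · right
    refine ⟨conj μ, by simpa using h1, ?_⟩
    rw [h2, map_div₀, Complex.conj_ofReal, ← Complex.sin_conj, map_mul, Complex.conj_ofReal]

theorem Kop_star {β : ℝ} (hβ : |β| < 1) (x : E2) : Kop β (star x) = star (Kop β x) := by
  ext m
  have h1 := Kop_spec hβ (star x) m
  have h2 := (Kop_spec hβ x m).star
  refine h1.unique ?_
  rw [lp.star_apply]
  refine h2.congr_fun ?_
  intro n
  rw [lp.star_apply]
  simp

theorem isUnit_conj {β : ℝ} (hβ : |β| < 1) {z : ℂ}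
    (h : IsUnit (Kop β - (conj z) • (1 : E2 →L[ℂ] E2))) :
    IsUnit (Kop β - z • (1 : E2 →L[ℂ] E2)) := by
  rw [ContinuousLinearMap.isUnit_iff_bijective] at h ⊢
  have e : ⇑(Kop β - z • (1 : E2 →L[ℂ] E2)) =
      star ∘ ⇑(Kop β - (conj z) • (1 : E2 →L[ℂ] E2)) ∘ star := by
    funext x
    simp only [Function.comp]
    rw [sub_apply, sub_apply, smul_apply, smul_apply, one_apply_eq_self, one_apply_eq_self,
      star_sub, Kop_star hβ, star_star, star_smul, star_star]
    simp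
  rw [e]
  have hs : Function.Bijective (star : E2 → E2) := star_involutive.bijective
  exact hs.comp (h.comp hs)

theorem isUnit_adjoint {β : ℝ} (hβ : |β| < 1) {z : ℂ}
    (h : IsUnit (Kop β - (conj z) • (1 : E2 →L[ℂ] E2))) :
    IsUnit (Kop (-β) - z • (1 : E2 →L[ℂ] E2)) := by
  have h2 := h.star
  have e : star (Kop β - (conj z) • (1 : E2 →L[ℂ] E2)) = Kop (-β) - z • (1 : E2 →L[ℂ] E2) := by
    rw [star_sub, star_smul, star_one, ContinuousLinearMap.star_eq_adjoint, Kop_adjoint hβ]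
    simp
  rwa [e] at h2

theorem isUnit_neg {β : ℝ} (hβ : |β| < 1) {z : ℂ}
    (h : IsUnit (Kop β - z • (1 : E2 →L[ℂ] E2))) :
    IsUnit (Kop (-β) - z • (1 : E2 →L[ℂ] E2)) := by
  apply isUnit_adjoint hβ
  apply isUnit_conj hβ
  rwa [Complex.conj_conj]

theorem isUnit_of_not_mem {α : ℝ} (hα : |α| < 1) {z : ℂ} (hz : z ∉ Region α) :
    IsUnit (Kop α - z • (1 : E2 →L[ℂ] E2)) := by
  have hz0 : z ≠ 0 := fun h => hz (Or.inl h)
  have hz1 : ∀ s : ℂ, |s.re - 1 / 2| ≤ |α| / 2 → z ≠ π / Complex.sin (π * s) :=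
    fun s hs h => hz (Or.inr ⟨s, hs, h⟩)
  have h := isUnit_of_nonneg (abs_nonneg α) hα hz0 hz1
  rcases abs_cases α with ⟨h1, _⟩ | ⟨h1, _⟩
  · rwa [h1] at h
  · have := isUnit_neg (by rwa [abs_abs]) h
    rwa [h1, neg_neg] at this

theorem bounded_below_of_isUnit {T : E2 →L[ℂ] E2} (h : IsUnit T) :
    ∃ c : ℝ, 0 < c ∧ ∀ x, c * ‖x‖ ≤ ‖T x‖ := by
  obtain ⟨u, rfl⟩ := h
  set K : ℝ := ‖(u⁻¹).val‖ + 1 with hK
  have hK0 : 0 < K := by positivity
  refine ⟨K⁻¹, by positivity, fun x => ?_⟩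
  rw [inv_mul_le_iff₀ hK0]
  calc ‖x‖ = ‖(u⁻¹).val (u.val x)‖ := by
        rw [← mul_apply_eq_comp, Units.inv_mul, one_apply_eq_self]
    _ ≤ ‖(u⁻¹).val‖ * ‖u.val x‖ := (u⁻¹).val.le_opNorm _
    _ ≤ K * ‖u.val x‖ := by gcongr; rw [hK]; linarith

theorem not_isUnit_curve {α : ℝ} (hα : |α| < 1) {μ : ℂ} (hμ : |μ.re - 1 / 2| ≤ |α| / 2) :
    ¬ IsUnit (Kop α - (π / Complex.sin (π * μ)) • (1 : E2 →L[ℂ] E2)) := by
  intro h
  set z : ℂ := π / Complex.sin (π * μ) with hz
  set β : ℝ := 2 * μ.re - 1 with hβ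
  have hβα : |β| ≤ |α| := by
    have : β = 2 * (μ.re - 1 / 2) := by rw [hβ]; ring
    rw [this, abs_mul, abs_two]; linarith
  have hβ1 : |β| < 1 := lt_of_le_of_lt hβα hα
  have hμβ : μ.re = (1 + β) / 2 := by rw [hβ]; ring
  apply approx_eigen hβ1 hμβ
  rcases eq_or_lt_of_le (abs_nonneg α) with h0 | h0
  · have hα0 : α = 0 := abs_eq_zero.1 h0.symm
    have hβ0 : β = 0 := by
      rw [← h0] at hβα
      exact abs_eq_zero.1 (le_antisymm hβα (abs_nonneg _))
    rw [hβ0]
    rw [hα0] at h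
    exact bounded_below_of_isUnit h
  · have hboth : IsUnit (Kop |α| - z • (1 : E2 →L[ℂ] E2)) ∧
        IsUnit (Kop (-|α|) - z • (1 : E2 →L[ℂ] E2)) := by
      rcases abs_cases α with ⟨h1, _⟩ | ⟨h1, _⟩
      · rw [h1]; exact ⟨h, isUnit_neg hα h⟩
      · rw [h1, neg_neg]; exact ⟨isUnit_neg hα h, h⟩
    exact bounded_below_between h0 hα hboth.1 hboth.2 hβα

theorem mem_spectrum_iff (T : E2 →L[ℂ] E2) (z : ℂ) :
    z ∈ spectrum ℂ T ↔ ¬ IsUnit (T - z • (1 : E2 →L[ℂ] E2)) := by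
  rw [spectrum.mem_iff, Algebra.algebraMap_eq_smul_one, IsUnit.sub_iff]

/-- the spectrum of the conjugated operator -/
theorem spectrum_Kop {α : ℝ} (hα : |α| < 1) : spectrum ℂ (Kop α) = Region α := by
  have hcurve : ∀ μ : ℂ, |μ.re - 1 / 2| ≤ |α| / 2 → π / Complex.sin (π * μ) ∈ spectrum ℂ (Kop α) := by
    intro μ hμ
    rw [mem_spectrum_iff]
    exact not_isUnit_curve hα hμ
  apply Subset.antisymm
  · intro z hz
    by_contra h
    rw [mem_spectrum_iff] at hz
    exact hz (isUnit_of_not_mem hα h)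
  · rintro z (hz | ⟨μ, hμ, rfl⟩)
    · have hz : z = 0 := hz
      rw [hz]
      have hclosed : IsClosed (spectrum ℂ (Kop α)) := spectrum.isClosed _
      have hseq : ∀ k : ℕ, (((π / Real.cosh (π * k) : ℝ)) : ℂ) ∈ spectrum ℂ (Kop α) := by
        intro k
        have h1 := hcurve (1 / 2 + (k : ℝ) * Complex.I) (by simp; positivity)
        have e : Complex.sin (π * (1 / 2 + ((k : ℝ) : ℂ) * Complex.I)) = ((Real.cosh (π * k) : ℝ) : ℂ) := by
          have : (π : ℂ) * (1 / 2 + ((k : ℝ) : ℂ) * Complex.I) =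
              (((π * k : ℝ)) : ℂ) * Complex.I + π / 2 := by
            push_cast; ring
          rw [this, Complex.sin_add_pi_div_two, Complex.cos_mul_I, ← Complex.ofReal_cosh]
        rw [e] at h1
        rw [Complex.ofReal_div]
        exact h1
      have hlim : Tendsto (fun k : ℕ => (((π / Real.cosh (π * k) : ℝ)) : ℂ)) atTop (𝓝 0) := by
        have h1 : Tendsto (fun k : ℕ => π / Real.cosh (π * k)) atTop (𝓝 0) := by
          apply Tendsto.div_atTop tendsto_const_nhds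
          have h2 : Tendsto (fun k : ℕ => Real.exp (π * k) / 2) atTop atTop := by
            apply Tendsto.atTop_div_const (by norm_num)
            apply Real.tendsto_exp_atTop.comp
            exact Tendsto.const_mul_atTop Real.pi_pos tendsto_natCast_atTop_atTop
          apply tendsto_atTop_mono _ h2
          intro k
          rw [Real.cosh_eq]
          have := Real.exp_pos (-(π * k))
          linarith
        have := (Complex.continuous_ofReal.tendsto (0 : ℝ)).comp h1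
        rw [Complex.ofReal_zero] at this
        exact this
      exact hclosed.mem_of_tendsto hlim (Eventually.of_forall hseq)
    · exact hcurve μ hμ

end Pool.Agent.Lib.MP_b37156_an
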