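import Pool.Agent.Lib.MP_b37156_an.Lower

namespace Pool.Agent.Lib.MP_b37156_an

open MeasureTheory Set FourierTransform Filter
open scoped Real ENNReal Topology

theorem summable_wt {β : ℝ} (hβ : |β| < 1) :
    Summable (fun n : ℕ => (((n : ℝ) + 1) ^ (-(β + 2) / 2)) ^ 2) := by
  obtain ⟨b1, b2⟩ := abs_lt.1 hβ
  have h : Summable (fun n : ℕ => ((n : ℝ)) ^ (-(β + 2))) :=
    Real.summable_nat_rpow.2 (by linarith)
  have h' := (summable_nat_add_iff 1).2 h
  refine h'.congr fun n => ?_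
  rw [← Real.rpow_natCast, ← Real.rpow_mul (by positivity)]
  push_cast
  congr 1; ring

/-- lower bound modulo finitely many coordinates -/
theorem lower_mod_finite {β : ℝ} (hβ : |β| < 1) {z : ℂ} (hz : z ≠ 0)
    (hz' : ∀ s : ℂ, s.re = (1 + β) / 2 → z ≠ π / Complex.sin (π * s)) :
    ∃ δ : ℝ, 0 < δ ∧ ∃ C : ℝ, 0 ≤ C ∧ ∃ s₀ : Finset ℕ, ∀ x : E2,
      δ * ‖x‖ ≤ ‖(Kop β - z • (1 : E2 →L[ℂ] E2)) x‖ + C * ∑ n ∈ s₀, ‖x n‖ := by
  obtain ⟨δ, hδ, C, hC, hmain⟩ := lower_fin hβ hz hz'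
  set w : ℕ → ℝ := fun n => ((n : ℝ) + 1) ^ (-(β + 2) / 2) with hw
  have hw0 : ∀ n, 0 ≤ w n := fun n => by rw [hw]; positivity
  have hw1 : ∀ n, w n ≤ 1 := by
    intro n
    apply Real.rpow_le_one_of_one_le_of_nonpos
    · have : (0 : ℝ) ≤ n := by positivity
      linarith
    · have := (abs_lt.1 hβ).1; linarith
  set ε : ℝ := δ / (2 * (C + 1)) with hε
  have hε0 : 0 < ε := by positivity
  obtain ⟨s₀, hs₀⟩ := summable_iff_vanishing_norm.1 (summable_wt hβ) (ε ^ 2) (by positivity)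
  refine ⟨δ / 2, by positivity, C, hC, s₀, ?_⟩
  intro x
  have hbound : ∀ s : Finset ℕ, s₀ ⊆ s → ∑ n ∈ s, ‖x n‖ * w n ≤ ∑ n ∈ s₀, ‖x n‖ + ε * ‖x‖ := by
    intro s hs
    rw [← Finset.sum_sdiff hs, add_comm]
    apply add_le_add
    · apply Finset.sum_le_sum
      intro n _
      exact mul_le_of_le_one_right (norm_nonneg _) (hw1 n)
    · have h1 : (∑ n ∈ s \ s₀, ‖x n‖ * w n) ^ 2 ≤
          (∑ n ∈ s \ s₀, ‖x n‖ ^ 2) * (∑ n ∈ s \ s₀, w n ^ 2) :=
        Finset.sum_mul_sq_le_sq_mul_sq _ _ _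
      have h2 : ∑ n ∈ s \ s₀, ‖x n‖ ^ 2 ≤ ‖x‖ ^ 2 :=
        sum_le_hasSum _ (fun _ _ => by positivity) (hasSum_norm_sq x)
      have h3 : ∑ n ∈ s \ s₀, w n ^ 2 ≤ ε ^ 2 := by
        have := hs₀ (s \ s₀) Finset.sdiff_disjoint
        exact (le_abs_self _).trans this.le
      have h4 : (∑ n ∈ s \ s₀, ‖x n‖ * w n) ^ 2 ≤ (ε * ‖x‖) ^ 2 := by
        calc _ ≤ _ := h1
          _ ≤ ‖x‖ ^ 2 * ε ^ 2 := by
              apply mul_le_mul h2 h3 (Finset.sum_nonneg fun _ _ => by positivity) (by positivity)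
          _ = _ := by ring
      exact (pow_le_pow_iff_left₀ (Finset.sum_nonneg fun n _ => mul_nonneg (norm_nonneg _) (hw0 n))
        (by positivity) two_ne_zero).1 h4
  have ht := hasSum_bv x
  have l1 : Tendsto (fun s : Finset ℕ => δ * ‖(∑ n ∈ s, x n • bv n : E2)‖) atTop (𝓝 (δ * ‖x‖)) :=
    (ht.norm).const_mul δ
  have l2 : Tendsto (fun s : Finset ℕ => ‖(Kop β - z • (1 : E2 →L[ℂ] E2)) (∑ n ∈ s, x n • bv n)‖ +
      C * (∑ n ∈ s₀, ‖x n‖ + ε * ‖x‖)) atTop
      (𝓝 (‖(Kop β - z • (1 : E2 →L[ℂ] E2)) x‖ + C * (∑ n ∈ s₀, ‖x n‖ + ε * ‖x‖))) := by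
    apply Tendsto.add_const
    exact (((Kop β - z • (1 : E2 →L[ℂ] E2)).continuous.tendsto x).comp ht).norm
  have hle := le_of_tendsto_of_tendsto l1 l2 (by
    filter_upwards [eventually_ge_atTop s₀] with s hs
    refine (hmain s x).trans ?_
    gcongr
    exact hbound s hs)
  have hCε : C * (ε * ‖x‖) ≤ δ / 2 * ‖x‖ := by
    have : C * ε ≤ δ / 2 := by
      rw [hε, ← mul_div_assoc, div_le_div_iff₀ (by positivity) (by positivity)]
      nlinarith
    calc C * (ε * ‖x‖) = (C * ε) * ‖x‖ := by ring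
      _ ≤ _ := by gcongr
  rw [mul_add] at hle
  linarith

/-- injective + bounded below modulo finitely many coordinates implies bounded below -/
theorem bounded_below_of_injective {T : E2 →L[ℂ] E2} {δ C : ℝ} (hδ : 0 < δ) (hC : 0 ≤ C)
    {s₀ : Finset ℕ} (h : ∀ x : E2, δ * ‖x‖ ≤ ‖T x‖ + C * ∑ n ∈ s₀, ‖x n‖)
    (hinj : ∀ x, T x = 0 → x = 0) :
    ∃ c : ℝ, 0 < c ∧ ∀ x, c * ‖x‖ ≤ ‖T x‖ := by
  by_contra hcon
  push Not at hcon
  have hex : ∀ k : ℕ, ∃ u : E2, ‖u‖ = 1 ∧ ‖T u‖ ≤ 1 / ((k : ℝ) + 1) := by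
    intro k
    obtain ⟨x, hx⟩ := hcon (1 / ((k : ℝ) + 1)) (by positivity)
    have hx0 : x ≠ 0 := by
      rintro rfl
      simp at hx
    have hxn : 0 < ‖x‖ := norm_pos_iff.2 hx0
    refine ⟨((‖x‖⁻¹ : ℝ) : ℂ) • x, ?_, ?_⟩
    · rw [norm_smul, Complex.norm_real, norm_inv, norm_norm]
      field_simp
    · rw [map_smul, norm_smul, Complex.norm_real, norm_inv, norm_norm, inv_mul_le_iff₀ hxn]
      rw [mul_comm]; exact hx.le
  choose u hu1 hu2 using hex
  set P : E2 →L[ℂ] (s₀ → ℂ) := ContinuousLinearMap.pi (fun n : s₀ => innerSL ℂ (bv n)) with hP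
  have hPa : ∀ x (n : s₀), P x n = x n := by
    intro x n
    rw [hP, ContinuousLinearMap.pi_apply, innerSL_apply_apply, inner_bv_left]
  have hmem : ∀ k, P (u k) ∈ Metric.closedBall (0 : s₀ → ℂ) 1 := by
    intro k
    rw [mem_closedBall_zero_iff, pi_norm_le_iff_of_nonneg zero_le_one]
    intro n
    rw [hPa, ← hu1 k]
    exact lp.norm_apply_le_norm (by norm_num) (u k) n
  obtain ⟨v, -, φ, hφ, hlim⟩ := (isCompact_closedBall (0 : s₀ → ℂ) 1).tendsto_subseq hmem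
  have hT0 : Tendsto (fun k => T (u (φ k))) atTop (𝓝 0) := by
    rw [tendsto_zero_iff_norm_tendsto_zero]
    have : Tendsto (fun k : ℕ => 1 / ((k : ℝ) + 1)) atTop (𝓝 0) :=
      tendsto_one_div_add_atTop_nhds_zero_nat
    exact squeeze_zero (fun _ => norm_nonneg _) (fun k => hu2 (φ k)) (this.comp hφ.tendsto_atTop)
  have hC1 : CauchySeq (fun k => T (u (φ k))) := hT0.cauchySeq
  have hC2 : CauchySeq (fun k => P (u (φ k))) := hlim.cauchySeq
  have hcau : CauchySeq (fun k => u (φ k)) := by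
    rw [Metric.cauchySeq_iff] at hC1 hC2 ⊢
    intro ε hε
    set K : ℝ := C * s₀.card + 1 with hK
    have hK0 : 0 < K := by positivity
    obtain ⟨N1, h1⟩ := hC1 (δ * ε / 2) (by positivity)
    obtain ⟨N2, h2⟩ := hC2 (δ * ε / (2 * K)) (by positivity)
    refine ⟨max N1 N2, fun a ha b hb => ?_⟩
    have e1 := h1 a ((le_max_left _ _).trans ha) b ((le_max_left _ _).trans hb)
    have e2 := h2 a ((le_max_right _ _).trans ha) b ((le_max_right _ _).trans hb)
    rw [dist_eq_norm] at e1 e2 ⊢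
    have e3 := h (u (φ a) - u (φ b))
    rw [map_sub] at e3
    have e4 : ∑ n ∈ s₀, ‖(u (φ a) - u (φ b)) n‖ ≤ s₀.card * ‖P (u (φ a)) - P (u (φ b))‖ := by
      rw [← nsmul_eq_mul, ← Finset.sum_const]
      apply Finset.sum_le_sum
      intro n hn
      have := norm_le_pi_norm (P (u (φ a)) - P (u (φ b))) ⟨n, hn⟩
      rw [← map_sub, hPa] at this
      rw [← map_sub]
      exact this
    have e5 : C * ∑ n ∈ s₀, ‖(u (φ a) - u (φ b)) n‖ ≤ δ * ε / 2 := by
      calc C * ∑ n ∈ s₀, ‖(u (φ a) - u (φ b)) n‖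
          ≤ C * (s₀.card * ‖P (u (φ a)) - P (u (φ b))‖) := by gcongr
        _ = (C * s₀.card) * ‖P (u (φ a)) - P (u (φ b))‖ := by ring
        _ ≤ K * (δ * ε / (2 * K)) := by
            apply mul_le_mul _ e2.le (norm_nonneg _) hK0.le
            rw [hK]; linarith
        _ = δ * ε / 2 := by field_simp
    have e6 : δ * ‖u (φ a) - u (φ b)‖ < δ * ε := by linarith
    exact lt_of_mul_lt_mul_left e6 hδ.le
  obtain ⟨x, hx⟩ := cauchySeq_tendsto_of_complete hcau
  have hx1 : ‖x‖ = 1 := by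
    have l1 := hx.norm
    have l2 : Tendsto (fun k => ‖u (φ k)‖) atTop (𝓝 1) := by
      simp only [hu1]; exact tendsto_const_nhds
    exact tendsto_nhds_unique l1 l2
  have hx2 : T x = 0 := tendsto_nhds_unique ((T.continuous.tendsto x).comp hx) hT0
  have := hinj x hx2
  rw [this, norm_zero] at hx1
  exact zero_ne_one hx1

/-- continuity method -/
theorem isUnit_of_continuous {α : ℝ} (hα : 0 ≤ α) {f : ℝ → (E2 →L[ℂ] E2)}
    (hf : ContinuousOn f (Icc 0 α))
    (hb : ∀ t ∈ Icc 0 α, ∃ c : ℝ, 0 < c ∧ ∀ x, c * ‖x‖ ≤ ‖f t x‖) (h0 : IsUnit (f 0)) :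
    IsUnit (f α) := by
  have : PreconnectedSpace (Icc 0 α) := isPreconnected_iff_preconnectedSpace.1 isPreconnected_Icc
  set g : Icc 0 α → (E2 →L[ℂ] E2) := fun t => f t with hg
  have hgc : Continuous g := continuousOn_iff_continuous_domRestrict.1 hf
  set U : Set (Icc 0 α) := {t | IsUnit (g t)} with hU
  have hopen : IsOpen U := Units.isOpen.preimage hgc
  have hclosed : IsClosed U := by
    rw [← closure_subset_iff_isClosed]
    intro t ht
    obtain ⟨c, hc, hcb⟩ := hb t t.2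
    have hnear : {s : Icc 0 α | ‖g s - g t‖ < c / 3} ∈ 𝓝 t := by
      have : Continuous fun s => ‖g s - g t‖ := by fun_prop
      have h2 : Tendsto (fun s => ‖g s - g t‖) (𝓝 t) (𝓝 0) := by
        have := this.tendsto t
        simpa using this
      exact h2.eventually (gt_mem_nhds (by positivity))
    obtain ⟨s, hs1, hs2⟩ := mem_closure_iff_nhds.1 ht _ hnear
    obtain ⟨v, hv⟩ := hs2
    have hs1 : ‖g s - g t‖ < c / 3 := hs1
    have hbs : ∀ x, (2 * c / 3) * ‖x‖ ≤ ‖g s x‖ := by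
      intro x
      have h1 := hcb x
      have h2 : ‖g t x - g s x‖ ≤ c / 3 * ‖x‖ := by
        rw [← sub_apply, ← norm_neg, ← neg_apply, neg_sub]
        exact ((g s - g t).le_opNorm x).trans (by gcongr)
      have h3 : ‖g t x‖ ≤ ‖g s x‖ + ‖g t x - g s x‖ := by
        have := norm_add_le (g s x) (g t x - g s x)
        rwa [add_sub_cancel] at this
      have h4 : ‖f t x‖ = ‖g t x‖ := rfl
      rw [h4] at h1
      linarith
    have hinv : ‖(v⁻¹ : (E2 →L[ℂ] E2)ˣ).val‖ ≤ (2 * c / 3)⁻¹ := by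
      apply ContinuousLinearMap.opNorm_le_bound _ (by positivity)
      intro y
      have h1 := hbs ((v⁻¹ : (E2 →L[ℂ] E2)ˣ).val y)
      rw [← hv] at h1
      have h2 : v.val ((v⁻¹ : (E2 →L[ℂ] E2)ˣ).val y) = y := by
        rw [← mul_apply_eq_comp, Units.mul_inv, one_apply_eq_self]
      rw [h2] at h1
      rw [inv_mul_eq_div, le_div_iff₀ (by positivity)]
      linarith
    have hvn : 0 < ‖(v⁻¹ : (E2 →L[ℂ] E2)ˣ).val‖ := by
      rw [norm_pos_iff]
      intro h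
      have h2 : v.val ((v⁻¹ : (E2 →L[ℂ] E2)ˣ).val (bv 0)) = bv 0 := by
        rw [← mul_apply_eq_comp, Units.mul_inv, one_apply_eq_self]
      rw [h, zero_apply, map_zero] at h2
      have h3 := bv_apply 0 0
      rw [← h2] at h3
      simp at h3
    have hlt : ‖g t - v.val‖ < ‖(v⁻¹ : (E2 →L[ℂ] E2)ˣ).val‖⁻¹ := by
      calc ‖g t - v.val‖ = ‖g s - g t‖ := by rw [hv, norm_sub_rev]
        _ < c / 3 := hs1
        _ ≤ 2 * c / 3 := by linarith
        _ ≤ _ := by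
            rw [le_inv_comm₀ (by positivity) hvn]
            exact hinv
    exact (Units.ofNearby v (g t) hlt).isUnit
  have hne : U.Nonempty := ⟨⟨0, left_mem_Icc.2 hα⟩, h0⟩
  have huniv := IsClopen.eq_univ ⟨hclosed, hopen⟩ hne
  have : (⟨α, right_mem_Icc.2 hα⟩ : Icc 0 α) ∈ U := by rw [huniv]; trivial
  exact this

/-- `z ∉ [0,π]` from the curve conditions -/
theorem not_mem_segment {z : ℂ} (hz : z ≠ 0)
    (hz' : ∀ s : ℂ, s.re = 1 / 2 → z ≠ π / Complex.sin (π * s)) (t : ℝ) (h0 : 0 ≤ t) (h1 : t ≤ π) :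
    z ≠ t := by
  rcases eq_or_lt_of_le h0 with h | h
  · rw [← h]; simpa using hz
  · have hc : 1 ≤ π / t := by rw [le_div_iff₀ h]; linarith
    set y : ℝ := Real.arcosh (π / t) / π with hy
    have hs := hz' (1 / 2 + y * Complex.I) (by simp)
    have e : Complex.sin (π * (1 / 2 + y * Complex.I)) = ((π / t : ℝ) : ℂ) := by
      have : (π : ℂ) * (1 / 2 + y * Complex.I) = (Real.arcosh (π / t) : ℂ) * Complex.I + π / 2 := by
        rw [hy]
        have : (π : ℂ) ≠ 0 := by exact_mod_cast Real.pi_ne_zero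
        push_cast
        field_simp
        ring
      rw [this, Complex.sin_add_pi_div_two, Complex.cos_mul_I, ← Complex.ofReal_cosh,
        Real.cosh_arcosh hc]
    rw [e] at hs
    intro hzt
    apply hs
    rw [hzt]
    push_cast
    have h1 : (π : ℂ) ≠ 0 := by exact_mod_cast Real.pi_ne_zero
    have h2 : (t : ℂ) ≠ 0 := by exact_mod_cast h.ne'
    field_simp

/-- invertibility for `0 ≤ α < 1` off the region -/
theorem isUnit_of_nonneg {α : ℝ} (h0 : 0 ≤ α) (h1 : α < 1) {z : ℂ} (hz : z ≠ 0)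
    (hz' : ∀ s : ℂ, |s.re - 1 / 2| ≤ α / 2 → z ≠ π / Complex.sin (π * s)) :
    IsUnit (Kop α - z • (1 : E2 →L[ℂ] E2)) := by
  have hseg := not_mem_segment hz (fun s hs => hz' s (by rw [hs]; simp; positivity))
  apply isUnit_of_continuous h0 (f := fun β => Kop β - z • (1 : E2 →L[ℂ] E2))
  · apply ContinuousOn.sub _ continuousOn_const
    apply continuousOn_Kop.mono
    intro β hβ
    exact ⟨by linarith [hβ.1], by linarith [hβ.2]⟩
  · intro β hβ
    have hβ1 : |β| < 1 := by rw [abs_of_nonneg hβ.1]; linarith [hβ.2]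
    obtain ⟨δ, hδ, C, hC, s₀, hmain⟩ := lower_mod_finite hβ1 hz (by
      intro s hs
      apply hz'
      rw [hs, show (1 + β) / 2 - 1 / 2 = β / 2 by ring, abs_of_nonneg (by linarith [hβ.1])]
      linarith [hβ.2])
    apply bounded_below_of_injective hδ hC hmain
    intro x hx
    apply Kop_injective hβ.1 (by linarith [hβ.2]) hseg
    rw [sub_apply, smul_apply, one_apply_eq_self, sub_eq_zero] at hx
    exact hx
  · exact Kop_zero_isUnit hseg

end Pool.Agent.Lib.MP_b37156_an
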