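import Pool.Agent.Lib.MP_b37156_an.Fourier

namespace Pool.Agent.Lib.MP_b37156_an

open MeasureTheory Set FourierTransform Convolution
open scoped Real ENNReal

/-- step function transform -/
noncomputable def Jf (σ : ℝ) (a : ℕ → ℂ) (u : ℝ) : ℂ :=
  if u < 0 then 0 else a (⌊Real.exp u⌋₊ - 1) * Complex.exp (σ * u)

/-- logarithmic cell -/
def cell (n : ℕ) : Set ℝ := Ico (Real.log ((n : ℝ) + 1)) (Real.log ((n : ℝ) + 2))

/-- exponential on a cell -/
noncomputable def gn (σ : ℝ) (n : ℕ) : ℝ → ℂ :=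
  (cell n).indicator (fun u => Complex.exp (σ * u))

theorem measurableSet_cell (n : ℕ) : MeasurableSet (cell n) := measurableSet_Ico

theorem mem_cell_iff (n : ℕ) (u : ℝ) : u ∈ cell n ↔ (n : ℝ) + 1 ≤ Real.exp u ∧ Real.exp u < n + 2 := by
  unfold cell
  rw [mem_Ico, Real.log_le_iff_le_exp (by positivity), Real.lt_log_iff_exp_lt (by positivity)]

theorem cell_nonneg {n : ℕ} {u : ℝ} (h : u ∈ cell n) : 0 ≤ u := by
  rw [mem_cell_iff] at h
  have : (0 : ℝ) ≤ n := by positivity
  have h1 : 1 ≤ Real.exp u := by linarith [h.1]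
  exact Real.one_le_exp_iff.1 h1

theorem floor_of_cell {n : ℕ} {u : ℝ} (h : u ∈ cell n) : ⌊Real.exp u⌋₊ = n + 1 := by
  rw [mem_cell_iff] at h
  rw [Nat.floor_eq_iff (Real.exp_pos u).le]
  push_cast
  exact ⟨h.1, by linarith [h.2]⟩

theorem exists_cell {u : ℝ} (h : 0 ≤ u) : ∃ n, u ∈ cell n := by
  have h1 : 1 ≤ Real.exp u := Real.one_le_exp h
  have h2 : 1 ≤ ⌊Real.exp u⌋₊ := by
    rw [Nat.le_floor_iff (by positivity)]; simpa using h1
  refine ⟨⌊Real.exp u⌋₊ - 1, ?_⟩
  rw [mem_cell_iff]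
  have h3 : ((⌊Real.exp u⌋₊ - 1 : ℕ) : ℝ) = (⌊Real.exp u⌋₊ : ℝ) - 1 := by
    rw [Nat.cast_sub h2]; simp
  rw [h3]
  have h4 := Nat.floor_le (Real.exp_pos u).le
  have h5 := Nat.lt_floor_add_one (Real.exp u)
  constructor <;> linarith

theorem cell_unique {n m : ℕ} {u : ℝ} (h : u ∈ cell n) (h' : u ∈ cell m) : n = m := by
  have h1 := floor_of_cell h
  have h2 := floor_of_cell h'
  omega

theorem Jf_cell {σ : ℝ} {a : ℕ → ℂ} {n : ℕ} {u : ℝ} (h : u ∈ cell n) :
    Jf σ a u = a n * Complex.exp (σ * u) := by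
  unfold Jf
  rw [if_neg (not_lt.2 (cell_nonneg h)), floor_of_cell h]
  rfl

theorem Jf_neg {σ : ℝ} {a : ℕ → ℂ} {u : ℝ} (h : u < 0) : Jf σ a u = 0 := by
  unfold Jf; rw [if_pos h]

theorem measurable_Jf (σ : ℝ) (a : ℕ → ℂ) : Measurable (Jf σ a) := by
  unfold Jf
  apply Measurable.ite measurableSet_Iio measurable_const
  apply Measurable.mul
  · have h1 : Measurable (fun u : ℝ => ⌊Real.exp u⌋₊ - 1) := by
      have : Measurable (fun u : ℝ => ⌊Real.exp u⌋₊) := Nat.measurable_floor.comp Real.measurable_exp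
      exact (measurable_from_nat (f := fun k : ℕ => k - 1)).comp this
    exact (measurable_from_nat (f := a)).comp h1
  · fun_prop

/-- weight of a cell -/
noncomputable def W (σ : ℝ) (n : ℕ) : ℝ≥0∞ := ∫⁻ u in cell n, ENNReal.ofReal (Real.exp (2 * σ * u))

theorem lintegral_Jf (σ : ℝ) (a : ℕ → ℂ) :
    ∫⁻ u, ‖Jf σ a u‖ₑ ^ 2 = ∑' n, ‖a n‖ₑ ^ 2 * W σ n := by
  have h1 : ∫⁻ u, ‖Jf σ a u‖ₑ ^ 2 = ∫⁻ u in ⋃ n, cell n, ‖Jf σ a u‖ₑ ^ 2 := by
    rw [← lintegral_indicator (MeasurableSet.iUnion measurableSet_cell)]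
    congr 1
    ext u
    by_cases hu : u < 0
    · have : u ∉ ⋃ n, cell n := by
        intro h
        obtain ⟨n, hn⟩ := mem_iUnion.1 h
        exact absurd (cell_nonneg hn) (not_le.2 hu)
      rw [indicator_of_notMem this, Jf_neg hu]; simp
    · push Not at hu
      rw [indicator_of_mem (mem_iUnion.2 (exists_cell hu))]
  rw [h1, lintegral_iUnion measurableSet_cell]
  · congr 1
    ext n
    unfold W
    rw [← lintegral_const_mul' _ _ (by simp)]
    apply setLIntegral_congr_fun (measurableSet_cell n)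
    intro u hu
    simp only
    rw [Jf_cell hu, enorm_mul, mul_pow]
    congr 1
    rw [← ofReal_norm, Complex.norm_exp, ← ENNReal.ofReal_pow (Real.exp_pos _).le,
      ← Real.exp_nat_mul]
    congr 2
    simp
    ring
  · intro i j hij
    show Disjoint (cell i) (cell j)
    rw [Set.disjoint_left]
    intro u h1 h2
    exact hij (cell_unique h1 h2)

theorem integral_cell_exp (n : ℕ) : ∫ u in cell n, Real.exp u = 1 := by
  unfold cell
  rw [integral_Ico_eq_integral_Ioo, ← integral_Ioc_eq_integral_Ioo,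
    ← intervalIntegral.integral_of_le, integral_exp, Real.exp_log (by positivity),
    Real.exp_log (by positivity)]
  · ring
  · apply Real.log_le_log (by positivity); linarith

theorem integrableOn_cell {f : ℝ → ℝ} (hf : Continuous f) (n : ℕ) : IntegrableOn f (cell n) :=
  (hf.integrableOn_Icc).mono_set Ico_subset_Icc_self

theorem integrableOn_cell' {f : ℝ → ℂ} (hf : Continuous f) (n : ℕ) : IntegrableOn f (cell n) :=
  (hf.integrableOn_Icc).mono_set Ico_subset_Icc_self

theorem lintegral_cell_exp (n : ℕ) : ∫⁻ u in cell n, ENNReal.ofReal (Real.exp u) = 1 := by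
  rw [← ofReal_integral_eq_lintegral_ofReal (integrableOn_cell Real.continuous_exp n)
    (by filter_upwards with u using (Real.exp_pos u).le), integral_cell_exp]
  simp

theorem rpow_ratio {β : ℝ} (hβ : |β| < 1) {x y : ℝ} (hx : 0 < x) (h1 : x ≤ y) (h2 : y ≤ 2 * x) :
    1 / 2 * x ^ β ≤ y ^ β ∧ y ^ β ≤ 2 * x ^ β := by
  obtain ⟨b1, b2⟩ := abs_lt.1 hβ
  have hy : 0 < y := lt_of_lt_of_le hx h1
  set r := y / x with hr
  have hyr : y = r * x := by rw [hr]; field_simp
  have r1 : 1 ≤ r := by rw [hr, le_div_iff₀ hx]; linarith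
  have r2 : r ≤ 2 := by rw [hr, div_le_iff₀ hx]; linarith
  have hr0 : 0 < r := by linarith
  rw [hyr, Real.mul_rpow hr0.le hx.le]
  have hxb : 0 < x ^ β := by positivity
  have u1 : r ^ β ≤ 2 := by
    calc r ^ β ≤ r ^ (1 : ℝ) := Real.rpow_le_rpow_of_exponent_le r1 b2.le
      _ = r := Real.rpow_one r
      _ ≤ 2 := r2
  have u2 : 1 / 2 ≤ r ^ β := by
    calc 1 / 2 ≤ 1 / r := one_div_le_one_div_of_le hr0 r2
      _ = r ^ (-1 : ℝ) := by rw [Real.rpow_neg_one]; simp
      _ ≤ r ^ β := Real.rpow_le_rpow_of_exponent_le r1 b1.le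
  constructor
  · exact mul_le_mul_of_nonneg_right u2 hxb.le
  · exact mul_le_mul_of_nonneg_right u1 hxb.le

theorem W_bounds {σ : ℝ} (h0 : 0 < σ) (h1 : σ < 1) (n : ℕ) :
    ENNReal.ofReal (1 / 2 * ((n : ℝ) + 1) ^ (2 * σ - 1)) ≤ W σ n ∧
      W σ n ≤ ENNReal.ofReal (2 * ((n : ℝ) + 1) ^ (2 * σ - 1)) := by
  have hβ : |2 * σ - 1| < 1 := abs_lt.2 ⟨by linarith, by linarith⟩
  have key : ∀ u ∈ cell n, 1 / 2 * ((n : ℝ) + 1) ^ (2 * σ - 1) * Real.exp u ≤ Real.exp (2 * σ * u) ∧
      Real.exp (2 * σ * u) ≤ 2 * ((n : ℝ) + 1) ^ (2 * σ - 1) * Real.exp u := by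
    intro u hu
    rw [mem_cell_iff] at hu
    have hn : (0 : ℝ) ≤ n := by positivity
    have h := rpow_ratio hβ (x := (n : ℝ) + 1) (y := Real.exp u) (by positivity) hu.1
      (by linarith [hu.2])
    have e : Real.exp (2 * σ * u) = Real.exp u ^ (2 * σ - 1) * Real.exp u := by
      rw [← Real.exp_mul, ← Real.exp_add]; congr 1; ring
    rw [e]
    have hp := Real.exp_pos u
    exact ⟨mul_le_mul_of_nonneg_right h.1 hp.le, mul_le_mul_of_nonneg_right h.2 hp.le⟩
  have cst : ∀ c : ℝ, 0 ≤ c → ∫⁻ u in cell n, ENNReal.ofReal (c * Real.exp u) = ENNReal.ofReal c := by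
    intro c hc
    have : ∀ u, ENNReal.ofReal (c * Real.exp u) = ENNReal.ofReal c * ENNReal.ofReal (Real.exp u) :=
      fun u => ENNReal.ofReal_mul hc
    simp only [this]
    rw [lintegral_const_mul' _ _ ENNReal.ofReal_ne_top, lintegral_cell_exp, mul_one]
  constructor
  · rw [← cst _ (by positivity)]
    apply setLIntegral_mono' (measurableSet_cell n)
    intro u hu
    exact ENNReal.ofReal_le_ofReal (key u hu).1
  · rw [← cst (2 * ((n : ℝ) + 1) ^ (2 * σ - 1)) (by positivity)]
    apply setLIntegral_mono' (measurableSet_cell n)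
    intro u hu
    exact ENNReal.ofReal_le_ofReal (key u hu).2

theorem gn_cell {σ : ℝ} {n : ℕ} {u : ℝ} (h : u ∈ cell n) : gn σ n u = Complex.exp (σ * u) := by
  unfold gn; rw [indicator_of_mem h]

theorem gn_not_cell {σ : ℝ} {n : ℕ} {u : ℝ} (h : u ∉ cell n) : gn σ n u = 0 := by
  unfold gn; rw [indicator_of_notMem h]

theorem integrable_gn (σ : ℝ) (n : ℕ) : Integrable (gn σ n) := by
  unfold gn
  rw [integrable_indicator_iff (measurableSet_cell n)]
  exact integrableOn_cell' (by fun_prop) n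

open Classical in
/-- truncation -/
noncomputable def trunc (s : Finset ℕ) (a : ℕ → ℂ) (n : ℕ) : ℂ := if n ∈ s then a n else 0

theorem Jf_trunc (σ : ℝ) (s : Finset ℕ) (a : ℕ → ℂ) (u : ℝ) :
    Jf σ (trunc s a) u = ∑ n ∈ s, a n * gn σ n u := by
  by_cases hu : u < 0
  · rw [Jf_neg hu]
    symm
    apply Finset.sum_eq_zero
    intro n _
    rw [gn_not_cell, mul_zero]
    intro h
    exact absurd (cell_nonneg h) (not_le.2 hu)
  · push Not at hu
    obtain ⟨k, hk⟩ := exists_cell hu
    rw [Jf_cell hk]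
    unfold trunc
    by_cases hks : k ∈ s
    · rw [if_pos hks, Finset.sum_eq_single k]
      · rw [gn_cell hk]
      · intro n _ hn
        rw [gn_not_cell, mul_zero]
        intro h
        exact hn (cell_unique h hk)
      · intro h; exact absurd hks h
    · rw [if_neg hks, zero_mul]
      symm
      apply Finset.sum_eq_zero
      intro n hn
      rw [gn_not_cell, mul_zero]
      intro h
      have := cell_unique h hk
      subst this
      exact hks hn

/-- the averaged kernel -/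
noncomputable def Rn (n : ℕ) (u : ℝ) : ℝ := ∫ t in cell n, Real.exp t / (Real.exp t + Real.exp u)

theorem Rn_bounds (n : ℕ) (u : ℝ) :
    1 / (Real.exp u + n + 2) ≤ Rn n u ∧ Rn n u ≤ 1 / (Real.exp u + n + 1) := by
  have hu := Real.exp_pos u
  have hn : (0 : ℝ) ≤ n := by positivity
  have hc : Continuous fun t => Real.exp t / (Real.exp t + Real.exp u) := by
    apply Continuous.div (by fun_prop) (by fun_prop)
    intro t
    have := Real.exp_pos t
    positivity
  constructor
  · calc 1 / (Real.exp u + n + 2) = ∫ t in cell n, Real.exp t / (Real.exp u + n + 2) := by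
          rw [integral_div, integral_cell_exp]
      _ ≤ Rn n u := by
          apply setIntegral_mono_on (integrableOn_cell (by fun_prop) n) (integrableOn_cell hc n)
            (measurableSet_cell n)
          intro t ht
          rw [mem_cell_iff] at ht
          have := Real.exp_pos t
          apply div_le_div_of_nonneg_left this.le (by positivity)
          linarith [ht.2]
  · calc Rn n u ≤ ∫ t in cell n, Real.exp t / (Real.exp u + n + 1) := by
          apply setIntegral_mono_on (integrableOn_cell hc n) (integrableOn_cell (by fun_prop) n)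
            (measurableSet_cell n)
          intro t ht
          rw [mem_cell_iff] at ht
          have := Real.exp_pos t
          apply div_le_div_of_nonneg_left this.le (by positivity)
          linarith [ht.1]
      _ = 1 / (Real.exp u + n + 1) := by
          rw [integral_div, integral_cell_exp]

theorem conv_gn (σ : ℝ) (n : ℕ) (u : ℝ) :
    ∫ t, gn σ n t * kapF σ (u - t) = Complex.exp (σ * u) * (Rn n u : ℂ) := by
  have h1 : (fun t => gn σ n t * kapF σ (u - t)) =
      (cell n).indicator (fun t => Complex.exp (σ * u) *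
        ((Real.exp t / (Real.exp t + Real.exp u) : ℝ) : ℂ)) := by
    ext t
    by_cases ht : t ∈ cell n
    · rw [indicator_of_mem ht, gn_cell ht]
      unfold kapF
      have e1 : Complex.exp (σ * ((u - t : ℝ) : ℂ)) = Complex.exp (σ * u) / Complex.exp (σ * t) := by
        rw [← Complex.exp_sub]; congr 1; push_cast; ring
      have e2 : Complex.exp ((u - t : ℝ) : ℂ) = Complex.exp u / Complex.exp t := by
        rw [← Complex.exp_sub]; congr 1; push_cast; ring
      rw [e1, e2]
      push_cast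
      have n1 := Complex.exp_ne_zero (σ * t)
      have n2 := Complex.exp_ne_zero (t : ℂ)
      have n3 : Complex.exp (t : ℂ) + Complex.exp u ≠ 0 := by
        have : Complex.exp (t : ℂ) + Complex.exp u = ((Real.exp t + Real.exp u : ℝ) : ℂ) := by
          push_cast; rfl
        rw [this]
        have h1 := Real.exp_pos t
        have h2 := Real.exp_pos u
        exact_mod_cast (by positivity : (Real.exp t + Real.exp u) ≠ 0)
      have e3 : (1 : ℂ) + Complex.exp u / Complex.exp t = (Complex.exp t + Complex.exp u) / Complex.exp t := by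
        field_simp
      rw [e3]
      field_simp
    · rw [indicator_of_notMem ht, gn_not_cell ht, zero_mul]
  rw [h1, integral_indicator (measurableSet_cell n), integral_const_mul]
  congr 1
  exact integral_ofReal

/-- the key pointwise error bound for one column -/
theorem column_error (σ : ℝ) (n : ℕ) (u : ℝ) :
    ‖Jf σ (fun m => 1 / ((m : ℂ) + n + 1)) u - Complex.exp (σ * u) * (Rn n u : ℂ)‖ ≤
      6 * psi σ u / ((n : ℝ) + 1) := by
  have hu := Real.exp_pos u
  have hn : (0 : ℝ) ≤ n := by positivity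
  obtain ⟨r1, r2⟩ := Rn_bounds n u
  have hR : 0 ≤ Rn n u := le_trans (by positivity) r1
  have hnorm : ‖Complex.exp (σ * u)‖ = Real.exp (σ * u) := by
    rw [Complex.norm_exp]; simp
  by_cases h : u < 0
  · rw [Jf_neg h, zero_sub, norm_neg, norm_mul, hnorm, Complex.norm_real, Real.norm_of_nonneg hR]
    unfold psi
    rw [if_pos h]
    have : Rn n u ≤ 1 / ((n : ℝ) + 1) := r2.trans (by
      apply one_div_le_one_div_of_le (by positivity); linarith)
    have hp := Real.exp_pos (σ * u)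
    calc Real.exp (σ * u) * Rn n u ≤ Real.exp (σ * u) * (1 / ((n : ℝ) + 1)) := by gcongr
      _ ≤ 6 * Real.exp (σ * u) / ((n : ℝ) + 1) := by
          rw [mul_one_div]
          gcongr
          linarith
  · push Not at h
    obtain ⟨k, hk⟩ := exists_cell h
    rw [Jf_cell hk, mul_comm, ← mul_sub, norm_mul, hnorm]
    have hk' := (mem_cell_iff k u).1 hk
    have hk0 : (0 : ℝ) ≤ k := by positivity
    have e : (1 / ((k : ℂ) + n + 1) - (Rn n u : ℂ)) = ((1 / ((k : ℝ) + n + 1) - Rn n u : ℝ) : ℂ) := by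
      push_cast; rfl
    rw [e, Complex.norm_real, Real.norm_eq_abs]
    unfold psi
    rw [if_neg (not_lt.2 h)]
    have habs : |1 / ((k : ℝ) + n + 1) - Rn n u| ≤ 6 / (Real.exp u * ((n : ℝ) + 1)) := by
      rw [abs_le]
      constructor
      · have : Rn n u ≤ 1 / ((k : ℝ) + n + 1) := r2.trans (by
          apply one_div_le_one_div_of_le (by positivity); linarith [hk'.1])
        have : 0 ≤ 6 / (Real.exp u * ((n : ℝ) + 1)) := by positivity
        linarith
      · calc 1 / ((k : ℝ) + n + 1) - Rn n u ≤ 1 / ((k : ℝ) + n + 1) - 1 / (Real.exp u + n + 2) := by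
              linarith
          _ = (Real.exp u + 1 - k) / (((k : ℝ) + n + 1) * (Real.exp u + n + 2)) := by
              rw [div_sub_div _ _ (by positivity) (by positivity)]
              congr 1; ring
          _ ≤ 3 / (((k : ℝ) + n + 1) * (Real.exp u + n + 2)) := by
              gcongr
              linarith [hk'.2]
          _ ≤ _ := by
              rw [div_le_div_iff₀ (by positivity) (by positivity)]
              have h3 : Real.exp u ≤ k + 2 := hk'.2.le
              nlinarith [mul_nonneg hk0 hu.le, mul_nonneg hk0 hn, mul_nonneg hn hu.le]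
    calc Real.exp (σ * u) * |1 / ((k : ℝ) + n + 1) - Rn n u|
        ≤ Real.exp (σ * u) * (6 / (Real.exp u * ((n : ℝ) + 1))) := by gcongr
      _ = 6 * (Real.exp (σ * u) / Real.exp u) / ((n : ℝ) + 1) := by
          field_simp
      _ = _ := by
          rw [← Real.exp_sub]
          congr 3; ring

/-- finite Hilbert sums -/
noncomputable def Hs (s : Finset ℕ) (a : ℕ → ℂ) (m : ℕ) : ℂ := ∑ n ∈ s, a n / ((m : ℂ) + n + 1)

theorem conv_trunc (σ : ℝ) (h0 : 0 < σ) (h1 : σ < 1) (s : Finset ℕ) (a : ℕ → ℂ) (u : ℝ) :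
    (Jf σ (trunc s a) ⋆[ContinuousLinearMap.mul ℂ ℂ] (kapF σ)) u =
      ∑ n ∈ s, a n * (Complex.exp (σ * u) * (Rn n u : ℂ)) := by
  have e : (Jf σ (trunc s a) ⋆[ContinuousLinearMap.mul ℂ ℂ] (kapF σ)) u =
      ∫ t, ∑ n ∈ s, a n * (gn σ n t * kapF σ (u - t)) := by
    show ∫ t, (ContinuousLinearMap.mul ℂ ℂ) (Jf σ (trunc s a) t) (kapF σ (u - t)) = _
    congr 1
    ext t
    rw [ContinuousLinearMap.mul_apply', Jf_trunc, Finset.sum_mul]
    apply Finset.sum_congr rfl
    intro n _
    ring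
  rw [e, integral_finsetSum]
  · apply Finset.sum_congr rfl
    intro n _
    rw [integral_const_mul, conv_gn]
  · intro n _
    apply Integrable.const_mul
    have hk : Continuous fun t => kapF σ (u - t) := (continuous_kapF σ).comp (by fun_prop)
    apply Integrable.mono' (integrable_gn σ n).norm
    · exact (integrable_gn σ n).aestronglyMeasurable.mul hk.aestronglyMeasurable
    · filter_upwards with t
      rw [norm_mul]
      exact mul_le_of_le_one_right (norm_nonneg _) ((norm_kapF_le_psi σ _).trans (psi_le_one h0 h1 _))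

theorem error_bound (σ : ℝ) (h0 : 0 < σ) (h1 : σ < 1) (s : Finset ℕ) (a : ℕ → ℂ) (u : ℝ) :
    ‖Jf σ (Hs s a) u - (Jf σ (trunc s a) ⋆[ContinuousLinearMap.mul ℂ ℂ] (kapF σ)) u‖ ≤
      (6 * ∑ n ∈ s, ‖a n‖ / ((n : ℝ) + 1)) * psi σ u := by
  rw [conv_trunc σ h0 h1]
  have e : Jf σ (Hs s a) u = ∑ n ∈ s, a n * Jf σ (fun m => 1 / ((m : ℂ) + n + 1)) u := by
    by_cases hu : u < 0
    · rw [Jf_neg hu]
      symm
      apply Finset.sum_eq_zero
      intro n _
      rw [Jf_neg hu, mul_zero]
    · push Not at hu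
      obtain ⟨k, hk⟩ := exists_cell hu
      rw [Jf_cell hk]
      unfold Hs
      rw [Finset.sum_mul]
      apply Finset.sum_congr rfl
      intro n _
      rw [Jf_cell hk]
      ring
  rw [e, ← Finset.sum_sub_distrib]
  calc ‖∑ n ∈ s, (a n * Jf σ (fun m => 1 / ((m : ℂ) + n + 1)) u -
        a n * (Complex.exp (σ * u) * (Rn n u : ℂ)))‖
      ≤ ∑ n ∈ s, ‖a n * Jf σ (fun m => 1 / ((m : ℂ) + n + 1)) u -
        a n * (Complex.exp (σ * u) * (Rn n u : ℂ))‖ := norm_sum_le _ _
    _ ≤ ∑ n ∈ s, ‖a n‖ * (6 * psi σ u / ((n : ℝ) + 1)) := by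
        apply Finset.sum_le_sum
        intro n _
        rw [← mul_sub, norm_mul]
        gcongr
        exact column_error σ n u
    _ = _ := by
        rw [Finset.mul_sum, Finset.sum_mul]
        apply Finset.sum_congr rfl
        intro n _
        ring

/-- lower bound for the step functions -/
theorem lower_step {σ : ℝ} (h0 : 0 < σ) (h1 : σ < 1) {z : ℂ} {δ : ℝ} (hδ : 0 < δ)
    (hδ' : ∀ ξ : ℝ, δ ≤ ‖𝓕 (kapF σ) ξ - z‖) (s : Finset ℕ) (a : ℕ → ℂ) :
    ENNReal.ofReal δ * eLpNorm (Jf σ (trunc s a)) 2 ≤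
      eLpNorm (Jf σ (fun m => Hs s a m - z * trunc s a m)) 2 +
        ENNReal.ofReal (6 * ∑ n ∈ s, ‖a n‖ / ((n : ℝ) + 1)) * eLpNorm (psi σ) 2 := by
  have hg1 : Integrable (Jf σ (trunc s a)) := by
    have : Jf σ (trunc s a) = fun u => ∑ n ∈ s, a n * gn σ n u := by
      ext u; exact Jf_trunc σ s a u
    rw [this]
    apply integrable_finsetSum
    intro n _
    exact (integrable_gn σ n).const_mul _
  have hg2 : MemLp (Jf σ (trunc s a)) 2 := by
    obtain ⟨N, hN⟩ : ∃ N : ℕ, ∀ n ∈ s, n < N := ⟨s.sup id + 1, fun n hn =>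
      Nat.lt_succ_of_le (Finset.le_sup (f := id) hn)⟩
    apply memLp_two_of_bounded hg1 (C := ∑ n ∈ s, ‖a n‖ * ((n : ℝ) + 2))
    intro u
    rw [Jf_trunc]
    refine (norm_sum_le _ _).trans ?_
    apply Finset.sum_le_sum
    intro n _
    rw [norm_mul]
    gcongr
    by_cases h : u ∈ cell n
    · rw [gn_cell h, Complex.norm_exp]
      have h' := (mem_cell_iff n u).1 h
      have hu0 := cell_nonneg h
      have : ((σ : ℂ) * u).re = σ * u := by simp
      rw [this]
      calc Real.exp (σ * u) ≤ Real.exp u := by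
            apply Real.exp_le_exp.2; nlinarith
        _ ≤ n + 2 := h'.2.le
    · rw [gn_not_cell h, norm_zero]; positivity
  refine (fourier_lower h0 h1 hδ hδ' hg1 hg2).trans ?_
  set b : ℕ → ℂ := fun m => Hs s a m - z * trunc s a m with hb
  have e : (fun u => (Jf σ (trunc s a) ⋆[ContinuousLinearMap.mul ℂ ℂ] (kapF σ)) u -
      z * Jf σ (trunc s a) u) = fun u => Jf σ b u -
      (Jf σ (Hs s a) u - (Jf σ (trunc s a) ⋆[ContinuousLinearMap.mul ℂ ℂ] (kapF σ)) u) := by
    ext u
    have : Jf σ b u = Jf σ (Hs s a) u - z * Jf σ (trunc s a) u := by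
      by_cases hu : u < 0
      · rw [Jf_neg hu, Jf_neg hu, Jf_neg hu]; simp
      · push Not at hu
        obtain ⟨k, hk⟩ := exists_cell hu
        rw [Jf_cell hk, Jf_cell hk, Jf_cell hk, hb]
        ring
    rw [this]; ring
  have hk1 := integrable_kapF h0 h1
  have c1 : AEStronglyMeasurable (Jf σ (trunc s a) ⋆[ContinuousLinearMap.mul ℂ ℂ] (kapF σ)) volume :=
    (hg1.integrable_convolution _ hk1).aestronglyMeasurable
  rw [e]
  refine (eLpNorm_sub_le (measurable_Jf σ b).aestronglyMeasurable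
    ((measurable_Jf σ _).aestronglyMeasurable.sub c1) (by norm_num)).trans ?_
  gcongr
  have hS : 0 ≤ 6 * ∑ n ∈ s, ‖a n‖ / ((n : ℝ) + 1) := by positivity
  have : ENNReal.ofReal (6 * ∑ n ∈ s, ‖a n‖ / ((n : ℝ) + 1)) * eLpNorm (psi σ) 2 =
      eLpNorm (fun u => (6 * ∑ n ∈ s, ‖a n‖ / ((n : ℝ) + 1)) * psi σ u) 2 := by
    have := eLpNorm_const_smul (6 * ∑ n ∈ s, ‖a n‖ / ((n : ℝ) + 1)) (psi σ) 2 (volume : Measure ℝ)
    rw [show (fun u => (6 * ∑ n ∈ s, ‖a n‖ / ((n : ℝ) + 1)) * psi σ u)
      = (6 * ∑ n ∈ s, ‖a n‖ / ((n : ℝ) + 1)) • psi σ from rfl, this]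
    congr 1
    rw [← ofReal_norm, Real.norm_of_nonneg hS]
  rw [this]
  apply eLpNorm_mono
  intro u
  rw [Real.norm_of_nonneg (mul_nonneg hS (psi_pos σ u).le)]
  exact error_bound σ h0 h1 s a u

end Pool.Agent.Lib.MP_b37156_an
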