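import Pool.Agent.Lib.MP_b37156_an.Stieltjes

namespace Pool.Agent.Lib.MP_b37156_an

open MeasureTheory Set
open scoped Real ENNReal

theorem image_scale {M : ℝ} (hM : 0 < M) :
    (fun u : ℝ => M * Real.exp u) '' (univ : Set ℝ) = Ioi 0 := by
  ext x
  constructor
  · rintro ⟨u, -, rfl⟩
    have := Real.exp_pos u
    simp only [mem_Ioi]; positivity
  · intro h0
    have h0 : 0 < x := h0
    refine ⟨Real.log (x / M), mem_univ _, ?_⟩
    show M * Real.exp (Real.log (x / M)) = x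
    rw [Real.exp_log (by positivity)]
    field_simp

theorem hasDerivAt_scale (M u : ℝ) :
    HasDerivAt (fun u : ℝ => M * Real.exp u) (M * Real.exp u) u :=
  (Real.hasDerivAt_exp u).const_mul M

theorem scale_injective {M : ℝ} (hM : 0 < M) : Function.Injective (fun u : ℝ => M * Real.exp u) := by
  intro u v h
  simp only at h
  exact Real.exp_injective (mul_left_cancel₀ hM.ne' h)

theorem scale_integrand {M : ℝ} (hM : 0 < M) (s : ℂ) (u : ℝ) :
    |M * Real.exp u| • (((M * Real.exp u : ℝ) : ℂ) ^ (-s) / (((M * Real.exp u : ℝ) : ℂ) + M))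
      = (M : ℂ) ^ (-s) * (Complex.exp ((1 - s) * u) / (1 + Complex.exp u)) := by
  have hu := Real.exp_pos u
  rw [abs_of_pos (by positivity)]
  have hMc : (M : ℂ) ≠ 0 := by exact_mod_cast hM.ne'
  have h1 : (1 : ℂ) + Complex.exp u ≠ 0 := by
    have : (1 : ℂ) + Complex.exp u = ((1 + Real.exp u : ℝ) : ℂ) := by push_cast; rfl
    rw [this]
    exact_mod_cast (by positivity : (1 + Real.exp u) ≠ 0)
  have e1 : ((M * Real.exp u : ℝ) : ℂ) ^ (-s) = (M : ℂ) ^ (-s) * Complex.exp (-s * u) := by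
    push_cast
    rw [← Complex.ofReal_exp, Complex.mul_cpow_ofReal_nonneg hM.le hu.le]
    congr 1
    rw [Complex.cpow_def_of_ne_zero (by exact_mod_cast hu.ne'), ← Complex.ofReal_log hu.le,
      Real.log_exp]
    ring_nf
  rw [e1, Complex.real_smul]
  have e2 : Complex.exp ((1 - s) * u) = Complex.exp u * Complex.exp (-s * u) := by
    rw [← Complex.exp_add]; ring_nf
  rw [e2]
  push_cast
  have h2 : (M : ℂ) * Complex.exp u + M = M * (1 + Complex.exp u) := by ring
  rw [h2]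
  field_simp

theorem integrableOn_stieltjes {M : ℝ} (hM : 0 < M) {s : ℂ} (h0 : 0 < s.re) (h1 : s.re < 1) :
    IntegrableOn (fun x : ℝ => (x : ℂ) ^ (-s) / (x + M)) (Ioi 0) := by
  rw [← image_scale hM, integrableOn_image_iff_integrableOn_abs_deriv_smul MeasurableSet.univ
    (fun x _ => (hasDerivAt_scale M x).hasDerivWithinAt) ((scale_injective hM).injOn)]
  rw [integrableOn_univ]
  have := (integrable_kap (s := 1 - s) (by simpa using h1) (by simpa using h0)).const_mul
    ((M : ℂ) ^ (-s))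
  refine this.congr (Filter.Eventually.of_forall fun u => ?_)
  exact (scale_integrand hM s u).symm

theorem integral_stieltjes {M : ℝ} (hM : 0 < M) {s : ℂ} (h0 : 0 < s.re) (h1 : s.re < 1) :
    ∫ x : ℝ in Ioi 0, (x : ℂ) ^ (-s) / (x + M) = (M : ℂ) ^ (-s) * (π / Complex.sin (π * s)) := by
  rw [← image_scale hM, integral_image_eq_integral_abs_deriv_smul MeasurableSet.univ
    (fun x _ => (hasDerivAt_scale M x).hasDerivWithinAt) ((scale_injective hM).injOn)]
  rw [Measure.restrict_univ]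
  have e : ∫ x : ℝ, |M * Real.exp x| • ((((M * Real.exp x : ℝ) : ℂ)) ^ (-s) /
      (((M * Real.exp x : ℝ) : ℂ) + M))
      = ∫ u : ℝ, (M : ℂ) ^ (-s) * (Complex.exp ((1 - s) * u) / (1 + Complex.exp u)) :=
    integral_congr_ae (Filter.Eventually.of_forall fun u => scale_integrand hM s u)
  rw [e, integral_const_mul, integral_kap (by simpa using h1) (by simpa using h0)]
  congr 2
  have : (π : ℂ) * (1 - s) = π - π * s := by ring
  rw [this, Complex.sin_pi_sub]

theorem stieltjes_ofReal {M σ x : ℝ} (hx : 0 < x) :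
    ((x ^ (-σ) / (x + M) : ℝ) : ℂ) = (x : ℂ) ^ (-(σ : ℂ)) / (x + M) := by
  push_cast
  rw [Complex.ofReal_cpow hx.le]
  push_cast
  rfl

theorem integrableOn_stieltjes_real {M : ℝ} (hM : 0 < M) {σ : ℝ} (h0 : 0 < σ) (h1 : σ < 1) :
    IntegrableOn (fun x : ℝ => x ^ (-σ) / (x + M)) (Ioi 0) := by
  have := integrableOn_stieltjes hM (s := σ) (by simpa using h0) (by simpa using h1)
  have h2 := this.re
  refine IntegrableOn.congr_fun h2 ?_ measurableSet_Ioi
  intro x hx
  have hx : 0 < x := hx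
  show RCLike.re _ = _
  rw [← stieltjes_ofReal hx]
  exact Complex.ofReal_re _

theorem integral_stieltjes_real {M : ℝ} (hM : 0 < M) {σ : ℝ} (h0 : 0 < σ) (h1 : σ < 1) :
    ∫ x : ℝ in Ioi 0, x ^ (-σ) / (x + M) = M ^ (-σ) * (π / Real.sin (π * σ)) := by
  have := integral_stieltjes hM (s := σ) (by simpa using h0) (by simpa using h1)
  have e : ∫ x : ℝ in Ioi 0, (x : ℂ) ^ (-(σ : ℂ)) / (x + M)
      = ∫ x : ℝ in Ioi 0, ((x ^ (-σ) / (x + M) : ℝ) : ℂ) := by
    apply setIntegral_congr_fun measurableSet_Ioi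
    intro x hx
    exact (stieltjes_ofReal hx).symm
  rw [e] at this
  have e' : ∫ x : ℝ in Ioi 0, ((x ^ (-σ) / (x + M) : ℝ) : ℂ)
      = ((∫ x : ℝ in Ioi 0, x ^ (-σ) / (x + M) : ℝ) : ℂ) := integral_ofReal
  rw [e'] at this
  have h3 : ((M ^ (-σ) * (π / Real.sin (π * σ)) : ℝ) : ℂ)
      = (M : ℂ) ^ (-(σ : ℂ)) * (π / Complex.sin (π * σ)) := by
    push_cast
    rw [Complex.ofReal_cpow hM.le]
    push_cast
    rfl
  rw [← h3] at this
  exact_mod_cast this

theorem lintegral_stieltjes_real {M : ℝ} (hM : 0 < M) {σ : ℝ} (h0 : 0 < σ) (h1 : σ < 1) :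
    ∫⁻ x : ℝ in Ioi 0, ENNReal.ofReal (x ^ (-σ) / (x + M))
      = ENNReal.ofReal (M ^ (-σ) * (π / Real.sin (π * σ))) := by
  rw [← integral_stieltjes_real hM h0 h1]
  symm
  apply ofReal_integral_eq_lintegral_ofReal
  · exact integrableOn_stieltjes_real hM h0 h1
  · filter_upwards [ae_restrict_mem measurableSet_Ioi] with x hx
    have hx : 0 < x := hx
    simp only [Pi.zero_apply]
    positivity

/-- sum bounded by an integral over `(0,∞)` -/
theorem tsum_le_lintegral_Ioi (a : ℕ → ℝ≥0∞) (f : ℝ → ℝ≥0∞)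
    (h : ∀ n : ℕ, a n ≤ ∫⁻ x in Ioc (n : ℝ) (n + 1), f x) :
    ∑' n, a n ≤ ∫⁻ x in Ioi (0 : ℝ), f x := by
  calc ∑' n, a n ≤ ∑' n : ℕ, ∫⁻ x in Ioc (n : ℝ) (n + 1), f x := ENNReal.tsum_le_tsum h
    _ = ∫⁻ x in ⋃ n : ℕ, Ioc (n : ℝ) (n + 1), f x := by
        rw [lintegral_iUnion (fun _ => measurableSet_Ioc)]
        intro i j hij
        have : Disjoint (Ioc (i : ℝ) (i + 1)) (Ioc (j : ℝ) (j + 1)) := by
          rw [Set.disjoint_left]
          rintro x ⟨h1, h2⟩ ⟨h3, h4⟩
          rcases lt_or_gt_of_ne hij with h | h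
          · have : (i : ℝ) + 1 ≤ j := by exact_mod_cast h
            linarith
          · have : (j : ℝ) + 1 ≤ i := by exact_mod_cast h
            linarith
        exact this
    _ ≤ ∫⁻ x in Ioi (0 : ℝ), f x := by
        apply lintegral_mono_set
        intro x hx
        obtain ⟨n, hn⟩ := mem_iUnion.1 hx
        have : (0 : ℝ) ≤ n := by positivity
        exact lt_of_le_of_lt this hn.1

/-- pointwise version -/
theorem tsum_le_lintegral_Ioi' (a : ℕ → ℝ≥0∞) (f : ℝ → ℝ≥0∞)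
    (h : ∀ n : ℕ, ∀ x ∈ Ioc (n : ℝ) (n + 1), a n ≤ f x) :
    ∑' n, a n ≤ ∫⁻ x in Ioi (0 : ℝ), f x := by
  apply tsum_le_lintegral_Ioi
  intro n
  calc a n = ∫⁻ _ in Ioc (n : ℝ) (n + 1), a n := by simp
    _ ≤ _ := setLIntegral_mono' measurableSet_Ioc (h n)

/-- the basic row-sum bound -/
theorem rowsum {σ : ℝ} (h0 : 0 < σ) (h1 : σ < 1) (m : ℕ) :
    ∑' n : ℕ, ENNReal.ofReal (((n : ℝ) + 1) ^ (-σ) / (m + n + 1)) ≤
      ENNReal.ofReal (2 * (π / Real.sin (π * σ)) * ((m : ℝ) + 1) ^ (-σ)) := by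
  have hm : (0 : ℝ) < m + 1 := by positivity
  have key : ∑' n : ℕ, ENNReal.ofReal (((n : ℝ) + 1) ^ (-σ) / (m + n + 1)) ≤
      ∫⁻ x in Ioi (0 : ℝ), ENNReal.ofReal 2 * ENNReal.ofReal (x ^ (-σ) / (x + (m + 1))) := by
    apply tsum_le_lintegral_Ioi'
    intro n x hx
    have hn : (0 : ℝ) ≤ n := by positivity
    have hx0 : 0 < x := lt_of_le_of_lt hn hx.1
    have hx2 : x ≤ n + 1 := hx.2
    rw [← ENNReal.ofReal_mul (by norm_num)]
    apply ENNReal.ofReal_le_ofReal
    have e1 : ((n : ℝ) + 1) ^ (-σ) ≤ x ^ (-σ) :=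
      Real.rpow_le_rpow_of_nonpos hx0 hx2 (by linarith)
    have e2 : 1 / ((m : ℝ) + n + 1) ≤ 2 / (x + (m + 1)) := by
      rw [div_le_div_iff₀ (by positivity) (by positivity)]
      have : (0 : ℝ) ≤ m := by positivity
      linarith
    have p1 : 0 < x ^ (-σ) := by positivity
    calc ((n : ℝ) + 1) ^ (-σ) / (m + n + 1) = ((n : ℝ) + 1) ^ (-σ) * (1 / (m + n + 1)) := by ring
      _ ≤ x ^ (-σ) * (2 / (x + (m + 1))) := by
          apply mul_le_mul e1 e2 (by positivity) p1.le
      _ = 2 * (x ^ (-σ) / (x + (m + 1))) := by ring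
  refine key.trans ?_
  rw [lintegral_const_mul' _ _ ENNReal.ofReal_ne_top, lintegral_stieltjes_real hm h0 h1,
    ← ENNReal.ofReal_mul (by norm_num)]
  apply ENNReal.ofReal_le_ofReal
  apply le_of_eq
  ring

/-- tangent-line inequality -/
theorem inv_sqrt_tangent {x c : ℝ} (hx : 0 < x) (hc : 0 < c) :
    c ^ (-(1 / 2) : ℝ) * (1 - (x - c) / (2 * c)) ≤ x ^ (-(1 / 2) : ℝ) := by
  have e1 : ∀ y : ℝ, 0 < y → y ^ (-(1 / 2) : ℝ) = (Real.sqrt y)⁻¹ := by
    intro y hy
    rw [Real.rpow_neg hy.le, Real.sqrt_eq_rpow]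
  rw [e1 x hx, e1 c hc]
  set a := Real.sqrt x
  set b := Real.sqrt c
  have ha : 0 < a := Real.sqrt_pos.2 hx
  have hb : 0 < b := Real.sqrt_pos.2 hc
  have hxa : x = a ^ 2 := (Real.sq_sqrt hx.le).symm
  have hcb : c = b ^ 2 := (Real.sq_sqrt hc.le).symm
  rw [hxa, hcb]
  have : b⁻¹ * (1 - (a ^ 2 - b ^ 2) / (2 * b ^ 2)) = (3 * b ^ 2 - a ^ 2) / (2 * b ^ 3) := by
    field_simp; ring
  rw [this, inv_eq_one_div, div_le_div_iff₀ (by positivity) ha]
  nlinarith [mul_nonneg (add_nonneg ha.le (mul_nonneg (by norm_num : (0:ℝ) ≤ 2) hb.le)) (sq_nonneg (a - b))]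

/-- sharp half-integer row sum (midpoint convexity) -/
theorem rowsum_half (m : ℕ) :
    ∑' n : ℕ, ENNReal.ofReal (((n : ℝ) + 1 / 2) ^ (-(1 / 2) : ℝ) / (m + n + 1)) ≤
      ENNReal.ofReal (π * ((m : ℝ) + 1 / 2) ^ (-(1 / 2) : ℝ)) := by
  have hM : (0 : ℝ) < m + 1 / 2 := by positivity
  set M : ℝ := m + 1 / 2 with hMdef
  have key : ∑' n : ℕ, ENNReal.ofReal (((n : ℝ) + 1 / 2) ^ (-(1 / 2) : ℝ) / (m + n + 1)) ≤
      ∫⁻ x in Ioi (0 : ℝ), ENNReal.ofReal (x ^ (-(1 / 2) : ℝ) / (x + M)) := by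
    apply tsum_le_lintegral_Ioi
    intro n
    have hn : (0 : ℝ) ≤ n := by positivity
    set c : ℝ := n + 1 / 2 with hc
    have hc0 : 1 / 2 ≤ c := by linarith
    have hc1 : 0 < c := by linarith
    have hcM : 0 < c + M := by linarith
    set A : ℝ := c ^ (-(1 / 2) : ℝ) / (c + M) with hA
    have hApos : 0 < A := by positivity
    set B : ℝ := 1 / (2 * c) + 1 / (c + M) with hB
    have e0 : ((n : ℝ) + 1 / 2) ^ (-(1 / 2) : ℝ) / (m + n + 1) = A := by
      rw [hA, hc, hMdef]; ring_nf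
    rw [e0]
    have hint : ∫ x in Ioc (n : ℝ) (n + 1), A * (1 - B * (x - c)) = A := by
      rw [← intervalIntegral.integral_of_le (by linarith)]
      rw [intervalIntegral.integral_const_mul]
      have : ∫ x in (n : ℝ)..(n + 1), (1 - B * (x - c)) = 1 := by
        rw [intervalIntegral.integral_sub (by apply Continuous.intervalIntegrable; fun_prop) (by
          apply Continuous.intervalIntegrable; fun_prop)]
        rw [intervalIntegral.integral_const_mul,
          intervalIntegral.integral_sub (by apply Continuous.intervalIntegrable; fun_prop)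
            (by apply Continuous.intervalIntegrable; fun_prop)]
        simp only [intervalIntegral.integral_const, smul_eq_mul, integral_id]
        rw [hc]; ring
      rw [this, mul_one]
    have hineq : ∀ x ∈ Ioc (n : ℝ) (n + 1), A * (1 - B * (x - c)) ≤ x ^ (-(1 / 2) : ℝ) / (x + M) := by
      intro x hx
      have hx0 : 0 < x := lt_of_le_of_lt hn hx.1
      have hx1 : x - c ≤ 1 / 2 := by have := hx.2; rw [hc]; linarith
      have hx2 : -(1 / 2) ≤ x - c := by have := hx.1; rw [hc]; linarith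
      have t1 := inv_sqrt_tangent hx0 hc1
      have t2 : 1 / (c + M) * (1 - (x - c) / (c + M)) ≤ 1 / (x + M) := by
        have hxM : 0 < x + M := by linarith
        rw [show 1 / (c + M) * (1 - (x - c) / (c + M)) = (2 * c + M - x) / (c + M) ^ 2 by
          field_simp; ring]
        rw [div_le_div_iff₀ (by positivity) hxM]
        nlinarith [sq_nonneg (x - c)]
      have p1 : 0 ≤ 1 - (x - c) / (2 * c) := by
        rw [sub_nonneg, div_le_one (by linarith)]; linarith
      have p2 : 0 ≤ 1 - (x - c) / (c + M) := by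
        rw [sub_nonneg, div_le_one (by linarith)]; linarith
      have q : (0 : ℝ) < c ^ (-(1 / 2) : ℝ) := by positivity
      have q' : (0 : ℝ) < 1 / (c + M) := by positivity
      have m1 := mul_le_mul t1 t2 (by positivity) (by positivity)
      have m2 : 1 - B * (x - c) ≤ (1 - (x - c) / (2 * c)) * (1 - (x - c) / (c + M)) := by
        have : (1 - (x - c) / (2 * c)) * (1 - (x - c) / (c + M)) =
          1 - B * (x - c) + (x - c) ^ 2 / (2 * c * (c + M)) := by
          rw [hB]; field_simp; ring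
        rw [this]
        have : 0 ≤ (x - c) ^ 2 / (2 * c * (c + M)) := by positivity
        linarith
      calc A * (1 - B * (x - c)) ≤ A * ((1 - (x - c) / (2 * c)) * (1 - (x - c) / (c + M))) :=
            mul_le_mul_of_nonneg_left m2 hApos.le
        _ = c ^ (-(1 / 2) : ℝ) * (1 - (x - c) / (2 * c)) *
              (1 / (c + M) * (1 - (x - c) / (c + M))) := by rw [hA]; ring
        _ ≤ x ^ (-(1 / 2) : ℝ) * (1 / (x + M)) := m1
        _ = _ := by ring
    have hI1 : IntegrableOn (fun x => A * (1 - B * (x - c))) (Ioc (n : ℝ) (n + 1)) :=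
      (Continuous.integrableOn_Icc (by fun_prop)).mono_set Ioc_subset_Icc_self
    have hI2 : IntegrableOn (fun x : ℝ => x ^ (-(1 / 2) : ℝ) / (x + M)) (Ioc (n : ℝ) (n + 1)) :=
      (integrableOn_stieltjes_real hM (by norm_num) (by norm_num)).mono_set
        (fun x hx => lt_of_le_of_lt hn hx.1)
    calc ENNReal.ofReal A = ENNReal.ofReal (∫ x in Ioc (n : ℝ) (n + 1), A * (1 - B * (x - c))) := by
          rw [hint]
      _ ≤ ENNReal.ofReal (∫ x in Ioc (n : ℝ) (n + 1), x ^ (-(1 / 2) : ℝ) / (x + M)) := by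
          apply ENNReal.ofReal_le_ofReal
          exact setIntegral_mono_on hI1 hI2 measurableSet_Ioc hineq
      _ = ∫⁻ x in Ioc (n : ℝ) (n + 1), ENNReal.ofReal (x ^ (-(1 / 2) : ℝ) / (x + M)) := by
          apply ofReal_integral_eq_lintegral_ofReal hI2
          filter_upwards [ae_restrict_mem measurableSet_Ioc] with x hx
          have hx0 : 0 < x := lt_of_le_of_lt hn hx.1
          simp only [Pi.zero_apply]
          positivity
  refine key.trans ?_
  rw [lintegral_stieltjes_real hM (by norm_num) (by norm_num)]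
  apply ENNReal.ofReal_le_ofReal
  have : Real.sin (π * (1 / 2)) = 1 := by
    rw [show π * (1 / 2) = π / 2 by ring, Real.sin_pi_div_two]
  rw [this]
  apply le_of_eq
  ring

end Pool.Agent.Lib.MP_b37156_an
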